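import Pool.Agent.Helper112.MultLS

/-!
The variance over the residue classes and the characters.
-/

open Finset

namespace Pool.Agent.W110.HV

open Pool.Agent.Helper112

/-- `ψ(X; q, a)` -/
noncomputable def psiAP (X : ℝ) (q a : ℕ) : ℝ :=
  ∑ n ∈ (Icc 1 ⌊X⌋₊).filter (fun n => n % q = a), ArithmeticFunction.vonMangoldt n

/-- `ψ(X, χ) = ∑_{n ≤ X} Λ(n) χ(n)` -/
noncomputable def psiChi (X : ℝ) {q : ℕ} (χ : DirichletCharacter ℂ q) : ℂ :=
  ∑ n ∈ Icc 1 ⌊X⌋₊, ((ArithmeticFunction.vonMangoldt n : ℝ) : ℂ) * χ (n : ZMod q)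

/-- the variance of the primes in the reduced residue classes modulo `q` -/
noncomputable def G (X : ℝ) (q : ℕ) : ℝ :=
  ∑ a ∈ (range q).filter (fun a => Nat.Coprime a q), (psiAP X q a - X / (Nat.totient q : ℝ)) ^ 2

open Classical in
/-- the contribution `φ(q)⁻¹ ∑_{cond χ ≤ R} conj χ(a) ψ(X, χ)` of the characters modulo `q` of
conductor at most `R` to `ψ(X; q, a)` -/
noncomputable def smallPart (X : ℝ) (q R a : ℕ) : ℂ :=
  (1 / (Nat.totient q : ℂ)) * ∑ χ ∈ (univ : Finset (DirichletCharacter ℂ q)).filter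
    (fun χ => χ.conductor ≤ R), (starRingEnd ℂ) (χ (a : ZMod q)) * psiChi X χ

/-- the variance around the contribution of the characters of conductor at most `R` -/
noncomputable def GR (X : ℝ) (q R : ℕ) : ℝ :=
  ∑ a ∈ (range q).filter (fun a => Nat.Coprime a q), ‖(psiAP X q a : ℂ) - smallPart X q R a‖ ^ 2

/-- sum over `ZMod q` as a sum over `range q` -/
lemma sum_zmod (q : ℕ) [NeZero q] (F : ZMod q → ℂ) :
    ∑ a : ZMod q, F a = ∑ a ∈ range q, F (a : ZMod q) := by
  apply sum_bij (fun (a : ZMod q) _ => a.val)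
  · intro a _
    rw [mem_range]
    exact ZMod.val_lt _
  · intro a _ b _ hab
    exact ZMod.val_injective q hab
  · intro b hb
    rw [mem_range] at hb
    exact ⟨(b : ZMod q), mem_univ _, by rw [ZMod.val_natCast, Nat.mod_eq_of_lt hb]⟩
  · intro a _
    rw [ZMod.natCast_zmod_val]

lemma sum_char_coprime (q : ℕ) [NeZero q] (χ : DirichletCharacter ℂ q) (g : ℕ → ℂ) :
    ∑ a ∈ (range q).filter (fun a => Nat.Coprime a q), χ (a : ZMod q) * g a =
      ∑ a ∈ range q, χ (a : ZMod q) * g a := by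
  rw [sum_filter]
  refine sum_congr rfl fun a _ => ?_
  split_ifs with h
  · rfl
  · rw [MulChar.map_nonunit _ (fun hu => h ((ZMod.isUnit_iff_coprime a _).mp hu)), zero_mul]

/-- Parseval over the reduced residue classes -/
lemma parsA (q : ℕ) [NeZero q] (g : ℕ → ℂ) :
    (Nat.totient q : ℝ) * ∑ a ∈ (range q).filter (fun a => Nat.Coprime a q), ‖g a‖ ^ 2 =
      ∑ χ : DirichletCharacter ℂ q,
        ‖∑ a ∈ (range q).filter (fun a => Nat.Coprime a q), χ⁻¹ (a : ZMod q) * g a‖ ^ 2 := by
  have h := MLS.sum_all q (fun a : ZMod q => g a.val)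
  have h1 : ∀ χ : DirichletCharacter ℂ q, ∑ a : ZMod q, χ⁻¹ a * g a.val =
      ∑ a ∈ (range q).filter (fun a => Nat.Coprime a q), χ⁻¹ (a : ZMod q) * g a := by
    intro χ
    rw [sum_char_coprime, sum_zmod]
    refine sum_congr rfl fun a ha => ?_
    rw [mem_range] at ha
    rw [ZMod.val_natCast, Nat.mod_eq_of_lt ha]
  simp_rw [h1] at h
  rw [h]
  congr 1
  symm
  apply sum_bij (fun (a : (ZMod q)ˣ) _ => (a : ZMod q).val)
  · intro a _
    rw [mem_filter, mem_range]
    exact ⟨ZMod.val_lt _, ZMod.val_coe_unit_coprime a⟩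
  · intro a _ b _ hab
    exact Units.ext (ZMod.val_injective q hab)
  · intro b hb
    rw [mem_filter, mem_range] at hb
    refine ⟨ZMod.unitOfCoprime b hb.2, mem_univ _, ?_⟩
    rw [ZMod.coe_unitOfCoprime, ZMod.val_natCast, Nat.mod_eq_of_lt hb.1]
  · intro a _
    rfl

lemma transform_psi (q : ℕ) [NeZero q] (X : ℝ) (χ : DirichletCharacter ℂ q) :
    ∑ a ∈ (range q).filter (fun a => Nat.Coprime a q), χ (a : ZMod q) * (psiAP X q a : ℂ) =
      psiChi X χ := by
  rw [sum_char_coprime]
  unfold psiAP psiChi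
  have hq : 0 < q := NeZero.pos q
  rw [← sum_fiberwise_of_maps_to (s := Icc 1 ⌊X⌋₊) (t := range q) (g := fun n => n % q)
    (fun n _ => mem_range.2 (Nat.mod_lt n hq))]
  refine sum_congr rfl fun a _ => ?_
  rw [Complex.ofReal_sum, mul_sum]
  refine sum_congr rfl fun n hn => ?_
  rw [mem_filter] at hn
  rw [← hn.2, ZMod.natCast_mod]
  ring

lemma transform_one (q : ℕ) [NeZero q] (χ : DirichletCharacter ℂ q) :
    ∑ a ∈ (range q).filter (fun a => Nat.Coprime a q), χ (a : ZMod q) =
      if χ = 1 then (Nat.totient q : ℂ) else 0 := by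
  have h := sum_char_coprime q χ (fun _ => 1)
  simp only [mul_one] at h
  rw [h, ← sum_zmod q (fun a => χ a)]
  split_ifs with h1
  · subst h1
    rw [MulChar.sum_one_eq_card_units, ZMod.card_units_eq_totient]
  · exact MulChar.sum_eq_zero_of_ne_one h1

open Classical in
lemma transform_small (q : ℕ) [NeZero q] (X : ℝ) (R : ℕ) (χ : DirichletCharacter ℂ q) :
    ∑ a ∈ (range q).filter (fun a => Nat.Coprime a q), χ (a : ZMod q) * smallPart X q R a =
      if χ.conductor ≤ R then psiChi X χ else 0 := by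
  have hφ : (Nat.totient q : ℂ) ≠ 0 := by
    have := Nat.totient_pos.2 (NeZero.pos q)
    exact_mod_cast this.ne'
  have h1 : ∀ a ∈ (range q).filter (fun a => Nat.Coprime a q),
      χ (a : ZMod q) * smallPart X q R a =
      ∑ ψ ∈ (univ : Finset (DirichletCharacter ℂ q)).filter (fun χ => χ.conductor ≤ R),
        (1 / (Nat.totient q : ℂ)) * psiChi X ψ * (χ * ψ⁻¹) (a : ZMod q) := by
    intro a _
    unfold smallPart
    rw [mul_sum, mul_sum]
    refine sum_congr rfl fun ψ _ => ?_
    have : (starRingEnd ℂ) (ψ (a : ZMod q)) = ψ⁻¹ (a : ZMod q) := MulChar.star_apply' ψ _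
    rw [this, MulChar.mul_apply]
    ring
  rw [sum_congr rfl h1, sum_comm]
  have h2 : ∀ ψ ∈ (univ : Finset (DirichletCharacter ℂ q)).filter (fun χ => χ.conductor ≤ R),
      ∑ a ∈ (range q).filter (fun a => Nat.Coprime a q),
        (1 / (Nat.totient q : ℂ)) * psiChi X ψ * (χ * ψ⁻¹) (a : ZMod q) =
      if ψ = χ then psiChi X ψ else 0 := by
    intro ψ _
    rw [← mul_sum, transform_one]
    by_cases h : ψ = χ
    · subst h
      rw [if_pos (mul_inv_cancel ψ), if_pos rfl]
      field_simp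
    · rw [if_neg (fun e => h (mul_inv_eq_one.1 e).symm), if_neg h, mul_zero]
  rw [sum_congr rfl h2, sum_ite_eq']
  simp only [mem_filter, mem_univ, true_and]

open Classical in
/-- the variance around the small conductor part, in terms of the characters of large conductor -/
theorem GR_eq (q : ℕ) [NeZero q] (X : ℝ) (R : ℕ) :
    (Nat.totient q : ℝ) * GR X q R =
      ∑ χ ∈ (univ : Finset (DirichletCharacter ℂ q)).filter (fun χ => R < χ.conductor),
        ‖psiChi X χ‖ ^ 2 := by
  unfold GR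
  rw [parsA q (fun a => (psiAP X q a : ℂ) - smallPart X q R a),
    ← Equiv.sum_comp (Equiv.inv (DirichletCharacter ℂ q)), sum_filter]
  refine sum_congr rfl fun χ _ => ?_
  simp only [Equiv.inv_apply, inv_inv]
  simp_rw [mul_sub]
  rw [sum_sub_distrib, transform_psi, transform_small]
  by_cases h : χ.conductor ≤ R
  · rw [if_pos h, if_neg (not_lt.2 h), sub_self]
    simp
  · rw [if_neg h, if_pos (not_le.1 h), sub_zero]

open Classical in
/-- the variance is at least the contribution of the characters of large conductor -/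
theorem G_ge (q : ℕ) [NeZero q] (X : ℝ) (R : ℕ) (hR : 1 ≤ R) :
    ∑ χ ∈ (univ : Finset (DirichletCharacter ℂ q)).filter (fun χ => R < χ.conductor),
        ‖psiChi X χ‖ ^ 2 ≤ (Nat.totient q : ℝ) * G X q := by
  have h1 : G X q = ∑ a ∈ (range q).filter (fun a => Nat.Coprime a q),
      ‖(psiAP X q a : ℂ) - (X / (Nat.totient q : ℝ) : ℝ)‖ ^ 2 := by
    unfold G
    refine sum_congr rfl fun a _ => ?_
    rw [← Complex.ofReal_sub, Complex.norm_real, Real.norm_eq_abs, sq_abs]
  rw [h1, parsA q (fun a => (psiAP X q a : ℂ) - (X / (Nat.totient q : ℝ) : ℝ)),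
    ← Equiv.sum_comp (Equiv.inv (DirichletCharacter ℂ q)), sum_filter]
  apply sum_le_sum
  intro χ _
  simp only [Equiv.inv_apply, inv_inv]
  split_ifs with h
  · simp_rw [mul_sub]
    rw [sum_sub_distrib, transform_psi, ← sum_mul, transform_one, if_neg, zero_mul, sub_zero]
    intro hc
    rw [hc, DirichletCharacter.conductor_one] at h
    omega
  · positivity

end Pool.Agent.W110.HV
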