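import Pool.Agent.W110.HV.Basic

/-!
The major arc kernel: Fejér kernels around the fractions `a/d`, `d ≤ P`.
-/

open Finset

namespace Pool.Agent.W110.HV

open Pool.Agent.Helper112

/-- the fractions `a/d`, `d ≤ P` -/
def Fr (P : ℕ) : Finset (Σ _ : ℕ, ℕ) :=
  (Icc 1 P).sigma (fun f => (range f).filter (fun a => a.Coprime f))

noncomputable def xi (r : Σ _ : ℕ, ℕ) : ℝ := (r.2 : ℝ) / r.1

/-- the kernel on the frequency side -/
noncomputable def Kh (P H : ℕ) (α : ℝ) : ℝ :=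
  (1 / (H : ℝ) ^ 2) * ∑ r ∈ Fr P, ‖lsD H (α - xi r)‖ ^ 2

/-- the kernel on the integers -/
noncomputable def kk (P H : ℕ) (h : ℤ) : ℂ :=
  (1 / (H : ℂ) ^ 2) * ∑ r ∈ Fr P, ∑ i ∈ range H, ∑ j ∈ range H,
    if (i : ℤ) - j = h then ee (-(h * xi r)) else 0

/-- distance to the nearest integer -/
noncomputable def dst (t : ℝ) : ℝ := |t - round t|

lemma dst_nonneg (t : ℝ) : 0 ≤ dst t := abs_nonneg _

lemma dst_le (t : ℝ) (k : ℤ) : dst t ≤ |t - k| := round_le t k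

lemma dst_sub (s t : ℝ) : dst (s - t) ≤ dst s + dst t := by
  refine (dst_le (s - t) (round s - round t)).trans ?_
  have : s - t - ((round s - round t : ℤ) : ℝ) = (s - round s) - (t - round t) := by
    push_cast
    ring
  rw [this]
  exact abs_sub _ _

lemma dst_of_sep (K : ℕ) (x : ℝ) (h : lsSep K x) : 1 / (K : ℝ) ≤ dst x := by
  unfold dst
  rw [abs_sub_round_eq_min]
  exact le_min h.1 (by linarith [h.2])

lemma card_Fr (P : ℕ) : ((Fr P).card : ℝ) ≤ (P : ℝ) ^ 2 := by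
  unfold Fr
  rw [card_sigma]
  have : ∑ f ∈ Icc 1 P, ((range f).filter (fun a => a.Coprime f)).card ≤ P * P := by
    calc _ ≤ ∑ f ∈ Icc 1 P, P := by
          apply sum_le_sum
          intro f hf
          rw [mem_Icc] at hf
          refine (card_filter_le _ _).trans ?_
          rw [card_range]
          exact hf.2
      _ = P * P := by simp
  have h2 : ((∑ f ∈ Icc 1 P, ((range f).filter (fun a => a.Coprime f)).card : ℕ) : ℝ) ≤
      ((P * P : ℕ) : ℝ) := by exact_mod_cast this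
  push_cast at h2 ⊢
  rw [pow_two]
  exact h2

/-- at most one fraction is close to a given number -/
lemma close_unique (P : ℕ) (hP : 1 ≤ P) (α : ℝ) (r s : Σ _ : ℕ, ℕ) (hr : r ∈ Fr P) (hs : s ∈ Fr P)
    (h1 : dst (α - xi r) < 1 / (2 * (P : ℝ) ^ 2)) (h2 : dst (α - xi s) < 1 / (2 * (P : ℝ) ^ 2)) :
    r = s := by
  by_contra hne
  unfold Fr at hr hs
  rw [mem_sigma, mem_Icc, mem_filter, mem_range] at hr hs
  have h3 := ls_sep_of_int P r.1 s.1 hr.1.1 hs.1.1 hr.1.2 hs.1.2 r.2 s.2 hr.2.1 hs.2.1 hr.2.2 hs.2.2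
    (by
      rintro ⟨e1, e2⟩
      apply hne
      obtain ⟨f, a⟩ := r
      obtain ⟨f', a'⟩ := s
      simp only at e1 e2
      subst e1
      subst e2
      rfl)
  have h4 := dst_of_sep _ _ h3
  have h5 : ((s.2 : ℝ) / s.1 - (r.2 : ℝ) / r.1) = (α - xi r) - (α - xi s) := by
    unfold xi
    ring
  rw [h5] at h4
  have h6 := dst_sub (α - xi r) (α - xi s)
  push_cast at h4
  have h7 : 1 / (2 * (P : ℝ) ^ 2) + 1 / (2 * (P : ℝ) ^ 2) = 1 / (P : ℝ) ^ 2 := by
    have : (0 : ℝ) < P := by exact_mod_cast hP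
    field_simp
    norm_num
  linarith

lemma lsD_far (H : ℕ) (t d : ℝ) (hd : 0 < d) (h : d ≤ dst t) : ‖lsD H t‖ ^ 2 ≤ 1 / (2 * d ^ 2) := by
  rw [← lsD_fract]
  unfold dst at h
  rw [abs_sub_round_eq_min] at h
  have h1 : d ≤ Int.fract t := h.trans (min_le_left _ _)
  have h2 : d ≤ 1 - Int.fract t := h.trans (min_le_right _ _)
  have h3 := lsD_bound H (Int.fract t) (by linarith) (by linarith)
  refine h3.trans ?_
  have e1 : 1 / (Int.fract t) ^ 2 ≤ 1 / d ^ 2 :=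
    one_div_le_one_div_of_le (by positivity) (pow_le_pow_left₀ hd.le h1 2)
  have e2 : 1 / (1 - Int.fract t) ^ 2 ≤ 1 / d ^ 2 :=
    one_div_le_one_div_of_le (by positivity) (pow_le_pow_left₀ hd.le h2 2)
  calc (1 / 4) * (1 / (Int.fract t) ^ 2 + 1 / (1 - Int.fract t) ^ 2) ≤ (1 / 4) * (1 / d ^ 2 + 1 / d ^ 2) := by
        linarith
    _ = 1 / (2 * d ^ 2) := by field_simp; norm_num

lemma lsD_le (H : ℕ) (t : ℝ) : ‖lsD H t‖ ≤ H := by
  unfold lsD
  refine (norm_sum_le _ _).trans ?_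
  simp [ls_norm_ee]

lemma Kh_nonneg (P H : ℕ) (α : ℝ) : 0 ≤ Kh P H α := by
  unfold Kh
  positivity

/-- upper bound for the kernel -/
lemma Kh_le (P H : ℕ) (hP : 1 ≤ P) (hH : 1 ≤ H) (α : ℝ) :
    Kh P H α ≤ 1 + 2 * (P : ℝ) ^ 6 / (H : ℝ) ^ 2 := by
  have hP0 : (0 : ℝ) < P := by exact_mod_cast hP
  have hH0 : (0 : ℝ) < H := by exact_mod_cast hH
  unfold Kh
  have hfar : ∀ r : Σ _ : ℕ, ℕ, 1 / (2 * (P : ℝ) ^ 2) ≤ dst (α - xi r) →
      ‖lsD H (α - xi r)‖ ^ 2 ≤ 2 * (P : ℝ) ^ 4 := by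
    intro r hr
    refine (lsD_far H _ _ (by positivity) hr).trans (le_of_eq ?_)
    field_simp
  have key : ∑ r ∈ Fr P, ‖lsD H (α - xi r)‖ ^ 2 ≤ (H : ℝ) ^ 2 + 2 * (P : ℝ) ^ 6 := by
    have hcard : ∀ S : Finset (Σ _ : ℕ, ℕ), S ⊆ Fr P → (S.card : ℝ) * (2 * (P : ℝ) ^ 4) ≤ 2 * (P : ℝ) ^ 6 := by
      intro S hS
      have h1 : (S.card : ℝ) ≤ (P : ℝ) ^ 2 := le_trans (by exact_mod_cast card_le_card hS) (card_Fr P)
      calc (S.card : ℝ) * (2 * (P : ℝ) ^ 4) ≤ (P : ℝ) ^ 2 * (2 * (P : ℝ) ^ 4) :=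
            mul_le_mul_of_nonneg_right h1 (by positivity)
        _ = _ := by ring
    by_cases hc : ∃ r ∈ Fr P, dst (α - xi r) < 1 / (2 * (P : ℝ) ^ 2)
    · obtain ⟨r0, hr0, hc0⟩ := hc
      rw [← add_sum_erase _ _ hr0]
      apply add_le_add
      · exact pow_le_pow_left₀ (norm_nonneg _) (lsD_le _ _) 2
      · calc ∑ r ∈ (Fr P).erase r0, ‖lsD H (α - xi r)‖ ^ 2
            ≤ ∑ r ∈ (Fr P).erase r0, 2 * (P : ℝ) ^ 4 := by
              apply sum_le_sum
              intro r hr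
              rw [mem_erase] at hr
              apply hfar
              by_contra hlt
              push Not at hlt
              exact hr.1 (close_unique P hP α r r0 hr.2 hr0 hlt hc0)
          _ ≤ _ := by
              rw [sum_const, nsmul_eq_mul]
              exact hcard _ (erase_subset _ _)
    · push Not at hc
      calc ∑ r ∈ Fr P, ‖lsD H (α - xi r)‖ ^ 2 ≤ ∑ r ∈ Fr P, 2 * (P : ℝ) ^ 4 :=
            sum_le_sum fun r hr => hfar r (hc r hr)
        _ ≤ 2 * (P : ℝ) ^ 6 := by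
              rw [sum_const, nsmul_eq_mul]
              exact hcard _ subset_rfl
        _ ≤ _ := by
              have : (0 : ℝ) ≤ (H : ℝ) ^ 2 := by positivity
              linarith
  calc (1 / (H : ℝ) ^ 2) * ∑ r ∈ Fr P, ‖lsD H (α - xi r)‖ ^ 2
      ≤ (1 / (H : ℝ) ^ 2) * ((H : ℝ) ^ 2 + 2 * (P : ℝ) ^ 6) :=
        mul_le_mul_of_nonneg_left key (by positivity)
    _ = _ := by field_simp

lemma norm_ee_sub_one_le (t : ℝ) : ‖ee t - 1‖ ≤ 2 * Real.pi * |t| := by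
  rw [ls_norm_ee_sub_one, abs_mul, abs_two]
  have h := Real.abs_sin_le_one (Real.pi * t)
  have h1 : |Real.sin (Real.pi * t)| ≤ |Real.pi * t| := Real.abs_sin_le_abs
  rw [abs_mul, abs_of_pos Real.pi_pos] at h1
  linarith

/-- lower bound for the Dirichlet kernel near the integers -/
lemma lsD_near (H : ℕ) (t : ℝ) : (H : ℝ) ^ 2 * (1 - 4 * Real.pi * (H * dst t)) ≤ ‖lsD H t‖ ^ 2 := by
  have h0 : lsD H t = lsD H (t - round t) := by
    have := lsD_add_int H (t - round t) (round t)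
    rw [← this]
    congr 1
    ring
  rw [h0]
  have hd : dst t = |t - round t| := rfl
  rw [hd]
  set s := t - round t with hs
  have h1 : ‖lsD H s - H‖ ≤ 2 * Real.pi * ((H : ℝ) ^ 2 * |s|) := by
    have : lsD H s - H = ∑ j ∈ range H, (ee (j * s) - 1) := by
      rw [sum_sub_distrib]
      simp [lsD]
    rw [this]
    refine (norm_sum_le _ _).trans ?_
    calc ∑ j ∈ range H, ‖ee (j * s) - 1‖ ≤ ∑ j ∈ range H, 2 * Real.pi * (H * |s|) := by
          apply sum_le_sum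
          intro j hj
          rw [mem_range] at hj
          refine (norm_ee_sub_one_le _).trans ?_
          rw [abs_mul, Nat.abs_cast]
          have : (j : ℝ) ≤ H := by exact_mod_cast hj.le
          have hp := Real.pi_pos
          gcongr
      _ = _ := by
          rw [sum_const, card_range, nsmul_eq_mul]
          ring
  have h2 : (H : ℝ) - 2 * Real.pi * ((H : ℝ) ^ 2 * |s|) ≤ ‖lsD H s‖ := by
    have h3 : ‖(H : ℂ)‖ ≤ ‖lsD H s‖ + ‖lsD H s - H‖ := by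
      have := norm_sub_le (lsD H s) (lsD H s - H)
      simpa using this
    rw [Complex.norm_natCast] at h3
    linarith
  have hH0 : (0 : ℝ) ≤ H := by positivity
  have hp := Real.pi_pos
  set x := 2 * Real.pi * (H * |s|) with hx
  have hx0 : 0 ≤ x := by positivity
  have h4 : (H : ℝ) * (1 - x) ≤ ‖lsD H s‖ := by
    refine le_trans (le_of_eq ?_) h2
    rw [hx]
    ring
  have h5 : 4 * Real.pi * (H * |s|) = 2 * x := by rw [hx]; ring
  rw [h5]
  rcases le_or_gt x 1 with hx1 | hx1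
  · calc (H : ℝ) ^ 2 * (1 - 2 * x) ≤ ((H : ℝ) * (1 - x)) ^ 2 := by
          have : 0 ≤ ((H : ℝ) * x) ^ 2 := by positivity
          nlinarith
      _ ≤ _ := pow_le_pow_left₀ (mul_nonneg hH0 (by linarith)) h4 2
  · have : (H : ℝ) ^ 2 * (1 - 2 * x) ≤ 0 := by
      apply mul_nonpos_of_nonneg_of_nonpos (by positivity)
      linarith
    exact this.trans (by positivity)

/-- lower bound for the kernel near a fraction -/
lemma Kh_ge (P H : ℕ) (hH : 1 ≤ H) (α : ℝ) (r : Σ _ : ℕ, ℕ) (hr : r ∈ Fr P) :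
    1 - 4 * Real.pi * (H * dst (α - xi r)) ≤ Kh P H α := by
  have hH0 : (0 : ℝ) < H := by exact_mod_cast hH
  unfold Kh
  have h1 : ‖lsD H (α - xi r)‖ ^ 2 ≤ ∑ r ∈ Fr P, ‖lsD H (α - xi r)‖ ^ 2 :=
    single_le_sum (f := fun r => ‖lsD H (α - xi r)‖ ^ 2) (fun _ _ => by positivity) hr
  have h2 := (lsD_near H (α - xi r)).trans h1
  calc 1 - 4 * Real.pi * (H * dst (α - xi r))
      = (1 / (H : ℝ) ^ 2) * ((H : ℝ) ^ 2 * (1 - 4 * Real.pi * (H * dst (α - xi r)))) := by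
        field_simp
    _ ≤ _ := mul_le_mul_of_nonneg_left h2 (by positivity)

/-- the smooth major arc part of `u` -/
noncomputable def EE (P H N : ℕ) (u : ℤ → ℂ) (n : ℤ) : ℂ := ∑ m ∈ Icc (1 : ℤ) N, u m * kk P H (n - m)

lemma lsD_sq (H : ℕ) (t : ℝ) : ((‖lsD H t‖ ^ 2 : ℝ) : ℂ) =
    ∑ i ∈ range H, ∑ j ∈ range H, ee ((((i : ℤ) - j : ℤ) : ℝ) * t) := by
  rw [← mul_conj_norm]
  unfold lsD
  rw [map_sum, sum_mul_sum]
  refine sum_congr rfl fun i _ => sum_congr rfl fun j _ => ?_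
  rw [ls_conj_ee, ← ls_ee_add]
  congr 1
  push_cast
  ring

lemma ES_supp (A B : ℤ) (N : ℕ) (hA : A ≤ 1) (hB : N ≤ B) (u : ℤ → ℂ)
    (hu : ∀ n : ℤ, n < 1 ∨ (N : ℤ) < n → u n = 0) (α : ℝ) :
    ES A B u α = ∑ n ∈ Icc (1 : ℤ) N, u n * ee (n * α) := by
  unfold ES
  symm
  apply sum_subset
  · intro n hn
    rw [mem_Icc] at hn ⊢
    constructor <;> linarith
  · intro n _ hn
    rw [mem_Icc] at hn
    rw [hu n (by by_contra hc; push Not at hc; exact hn ⟨hc.1, hc.2⟩), zero_mul]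

theorem ES_EE (P H N : ℕ) (u : ℤ → ℂ) (hu : ∀ n : ℤ, n < 1 ∨ (N : ℤ) < n → u n = 0) (α : ℝ) :
    ES (-H) (N + H) (EE P H N u) α = ES (-H) (N + H) u α * (Kh P H α : ℂ) := by
  rw [ES_supp (-H) (N + H) N (by linarith [Int.natCast_nonneg H]) (by linarith [Int.natCast_nonneg H]) u hu]
  unfold ES EE
  have e1 : ∀ n ∈ Icc (-(H : ℤ)) (N + H), (∑ m ∈ Icc (1 : ℤ) N, u m * kk P H (n - m)) * ee (n * α) =
      ∑ m ∈ Icc (1 : ℤ) N, u m * ee (m * α) * (kk P H (n - m) * ee (((n - m : ℤ) : ℝ) * α)) := by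
    intro n _
    rw [sum_mul]
    refine sum_congr rfl fun m _ => ?_
    have : ee (n * α) = ee (m * α) * ee (((n - m : ℤ) : ℝ) * α) := by
      rw [← ls_ee_add]
      congr 1
      push_cast
      ring
    rw [this]
    ring
  rw [sum_congr rfl e1, sum_comm, sum_mul]
  refine sum_congr rfl fun m hm => ?_
  rw [← mul_sum]
  congr 1
  unfold kk Kh
  push_cast
  have e2 : ∀ n ∈ Icc (-(H : ℤ)) (N + H), (1 / (H : ℂ) ^ 2) * (∑ r ∈ Fr P, ∑ i ∈ range H, ∑ j ∈ range H,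
      if (i : ℤ) - j = n - m then ee (-((((n - m : ℤ)) : ℝ) * xi r)) else 0) * ee (((n - m : ℤ) : ℝ) * α) =
      (1 / (H : ℂ) ^ 2) * ∑ r ∈ Fr P, ∑ i ∈ range H, ∑ j ∈ range H,
        if n = m + ((i : ℤ) - j) then ee ((((i : ℤ) - j : ℤ) : ℝ) * (α - xi r)) else 0 := by
    intro n _
    rw [mul_assoc, sum_mul]
    congr 1
    refine sum_congr rfl fun r _ => ?_
    rw [sum_mul]
    refine sum_congr rfl fun i _ => ?_
    rw [sum_mul]
    refine sum_congr rfl fun j _ => ?_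
    by_cases h : (i : ℤ) - j = n - m
    · rw [if_pos h, if_pos (by linarith), h, ← ls_ee_add]
      congr 1
      ring
    · rw [if_neg h, if_neg (fun e => h (by linarith)), zero_mul]
  push_cast at e2
  rw [sum_congr rfl e2, ← mul_sum]
  congr 1
  rw [sum_comm]
  refine sum_congr rfl fun r _ => ?_
  have e3 := lsD_sq H (α - xi r)
  push_cast at e3
  rw [e3, sum_comm]
  refine sum_congr rfl fun i hi => ?_
  rw [sum_comm]
  refine sum_congr rfl fun j hj => ?_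
  rw [sum_ite_eq', if_pos]
  rw [mem_range] at hi hj
  rw [mem_Icc] at hm ⊢
  constructor <;> omega

end Pool.Agent.W110.HV
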