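import Pool.Agent.W110.HV.Frac
import Pool.Agent.W110.HV.Kernel

/-!
Averages over the moduli `q ∈ (K, 2K]`: fractions with large reduced denominator, characters with
conductors in a range.
-/

open Finset

namespace Pool.Agent.W110.HV

open Pool.Agent.Helper112

lemma dvd_count (K D : ℕ) :
    ((((Ioc K (2 * K)).filter (fun q => D ∣ q)).card : ℕ) : ℝ) ≤ 2 * K / D := by
  have h1 : (Ioc K (2 * K)).filter (fun q => D ∣ q) ⊆ (Ioc 0 (2 * K)).filter (fun q => D ∣ q) := by
    apply filter_subset_filter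
    exact Ioc_subset_Ioc_left (Nat.zero_le _)
  have h2 := card_le_card h1
  rw [Nat.Ioc_filter_dvd_card_eq_div] at h2
  have h3 : ((2 * K / D : ℕ) : ℝ) ≤ ((2 * K : ℕ) : ℝ) / D := Nat.cast_div_le
  push_cast at h3
  exact le_trans (by exact_mod_cast h2) h3

/-- the mean square over the reduced fractions with denominator `D` -/
noncomputable def AD (N : ℕ) (g : ℕ → ℂ) (D : ℕ) : ℝ :=
  ∑ a ∈ (range D).filter (fun a => a.Coprime D), ‖SN N g ((a : ℝ) / D)‖ ^ 2

lemma AD_nonneg (N : ℕ) (g : ℕ → ℂ) (D : ℕ) : 0 ≤ AD N g D := sum_nonneg fun _ _ => by positivity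

lemma AD_sum (N : ℕ) (g : ℕ → ℂ) (j : ℕ) :
    ∑ D ∈ Icc 1 j, AD N g D ≤ 6 * (N + (j : ℝ) ^ 2) * ∑ n ∈ Icc 1 N, ‖g n‖ ^ 2 := by
  refine le_trans (le_of_eq ?_) (additive_large_sieve N j g)
  unfold AD SN
  refine sum_congr rfl fun D _ => sum_congr rfl fun a _ => ?_
  congr 2
  refine sum_congr rfl fun n _ => ?_
  rw [mul_div_assoc]

lemma AD_weighted (N : ℕ) (g : ℕ → ℂ) (F0 F1 : ℕ) (h0 : 1 ≤ F0) :
    ∑ D ∈ Icc F0 F1, AD N g D / D ≤ 12 * (N / F0 + F1) * ∑ n ∈ Icc 1 N, ‖g n‖ ^ 2 :=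
  abel_bound (AD N g) (AD_nonneg N g) F0 F1 h0 N _ (by positivity) (by positivity) (AD_sum N g)

/-- swapping a sum over `q ∈ (K,2K]` and the divisors of `q` -/
lemma swap_div (K F0 F1 : ℕ) (R : ℕ → ℝ) (hR : ∀ f, 0 ≤ R f) (p : ℕ → Prop)
    [DecidablePred p] (hp : ∀ f, p f → F0 ≤ f) (hp1 : ∀ f, f ≤ 2 * K → p f → f ≤ F1) :
    ∑ q ∈ Ioc K (2 * K), ∑ D ∈ q.divisors.filter p, R D ≤ 2 * K * ∑ D ∈ Icc F0 F1, R D / D := by
  have h1 : ∀ q ∈ Ioc K (2 * K), ∑ D ∈ q.divisors.filter p, R D ≤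
      ∑ D ∈ Icc F0 F1, if D ∣ q then R D else 0 := by
    intro q hq
    rw [mem_Ioc] at hq
    rw [← sum_filter]
    apply sum_le_sum_of_subset_of_nonneg
    · intro D hD
      rw [mem_filter, Nat.mem_divisors] at hD
      rw [mem_filter, mem_Icc]
      have hDq : D ≤ q := Nat.le_of_dvd (by omega) hD.1.1
      exact ⟨⟨hp D hD.2, hp1 D (by omega) hD.2⟩, hD.1.1⟩
    · intro D _ _
      exact hR D
  refine (sum_le_sum h1).trans ?_
  rw [sum_comm, mul_sum]
  apply sum_le_sum
  intro D hD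
  rw [mem_Icc] at hD
  rw [← sum_filter, sum_const, nsmul_eq_mul]
  have := dvd_count K D
  calc ((((Ioc K (2 * K)).filter (fun q => D ∣ q)).card : ℕ) : ℝ) * R D ≤ 2 * K / D * R D :=
        mul_le_mul_of_nonneg_right this (hR D)
    _ = _ := by ring

/-- the average over `q` of the mean square over the fractions `b/q` with reduced denominator `> y` -/
theorem avg_fracs (N : ℕ) (g : ℕ → ℂ) (K y : ℕ) (hK : 1 ≤ K) :
    ∑ q ∈ Ioc K (2 * K), (1 / (q : ℝ)) * ∑ b ∈ (range q).filter (fun b => y < q / Nat.gcd b q),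
      ‖SN N g ((b : ℝ) / q)‖ ^ 2 ≤
      24 * (N / (y + 1) + 2 * K) * ∑ n ∈ Icc 1 N, ‖g n‖ ^ 2 := by
  have hKr : (0 : ℝ) < K := by exact_mod_cast hK
  have h1 : ∀ q ∈ Ioc K (2 * K), (1 / (q : ℝ)) * ∑ b ∈ (range q).filter (fun b => y < q / Nat.gcd b q),
      ‖SN N g ((b : ℝ) / q)‖ ^ 2 ≤ (1 / (K : ℝ)) * ∑ D ∈ q.divisors.filter (fun D => y < D), AD N g D := by
    intro q hq
    rw [mem_Ioc] at hq
    have hf := frac_sum q (by omega) (fun D x => if y < D then ‖SN N g x‖ ^ 2 else 0)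
    rw [← sum_filter] at hf
    rw [hf]
    have : ∑ D ∈ q.divisors, ∑ a ∈ (range D).filter (fun a => a.Coprime D),
        (if y < D then ‖SN N g ((a : ℝ) / D)‖ ^ 2 else 0) =
        ∑ D ∈ q.divisors.filter (fun D => y < D), AD N g D := by
      rw [sum_filter]
      refine sum_congr rfl fun D _ => ?_
      split_ifs
      · rfl
      · simp
    rw [this]
    apply mul_le_mul_of_nonneg_right _ (sum_nonneg fun D _ => AD_nonneg N g D)
    apply one_div_le_one_div_of_le hKr
    exact_mod_cast hq.1.le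
  refine (sum_le_sum h1).trans ?_
  rw [← mul_sum]
  have h2 := swap_div K (y + 1) (2 * K) (AD N g) (AD_nonneg N g) (fun D => y < D)
    (fun f hf => hf) (fun f hf _ => hf)
  have h3 := AD_weighted N g (y + 1) (2 * K) (by omega)
  push_cast at h3
  calc (1 / (K : ℝ)) * ∑ q ∈ Ioc K (2 * K), ∑ D ∈ q.divisors.filter (fun D => y < D), AD N g D
      ≤ (1 / (K : ℝ)) * (2 * K * ∑ D ∈ Icc (y + 1) (2 * K), AD N g D / D) :=
        mul_le_mul_of_nonneg_left h2 (by positivity)
    _ = 2 * ∑ D ∈ Icc (y + 1) (2 * K), AD N g D / D := by field_simp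
    _ ≤ 2 * (12 * (N / (y + 1) + 2 * K) * ∑ n ∈ Icc 1 N, ‖g n‖ ^ 2) := by
        apply mul_le_mul_of_nonneg_left h3 (by norm_num)
    _ = _ := by ring

/-! ### translation between intervals of integers and natural numbers -/

lemma ES_shift (H N : ℕ) (f : ℤ → ℂ) (α : ℝ) :
    ‖ES (-H) (N + H) f α‖ = ‖SN (N + 2 * H + 1) (fun n => f ((n : ℤ) - H - 1)) α‖ := by
  have h : SN (N + 2 * H + 1) (fun n => f ((n : ℤ) - H - 1)) α = ee (((H + 1 : ℕ) : ℝ) * α) *
      ES (-H) (N + H) f α := by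
    unfold SN ES
    rw [mul_sum]
    apply sum_bij' (fun (n : ℕ) _ => (n : ℤ) - H - 1) (fun (n : ℤ) _ => (n + H + 1).toNat)
    · intro n hn
      rw [mem_Icc] at hn ⊢
      omega
    · intro n hn
      rw [mem_Icc] at hn ⊢
      omega
    · intro n hn
      omega
    · intro n hn
      rw [mem_Icc] at hn
      omega
    · intro n _
      have : ee ((n : ℝ) * α) = ee (((H + 1 : ℕ) : ℝ) * α) * ee ((((n : ℤ) - H - 1 : ℤ) : ℝ) * α) := by
        rw [← ls_ee_add]
        congr 1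
        push_cast
        ring
      rw [this]
      ring
  rw [h, norm_mul, ls_norm_ee, one_mul]

lemma norm_shift (H N : ℕ) (f : ℤ → ℂ) :
    ∑ n ∈ Icc 1 (N + 2 * H + 1), ‖f ((n : ℤ) - H - 1)‖ ^ 2 = ∑ n ∈ Icc (-(H : ℤ)) (N + H), ‖f n‖ ^ 2 := by
  apply sum_bij' (fun (n : ℕ) _ => (n : ℤ) - H - 1) (fun (n : ℤ) _ => (n + H + 1).toNat)
  · intro n hn
    rw [mem_Icc] at hn ⊢
    omega
  · intro n hn
    rw [mem_Icc] at hn ⊢
    omega
  · intro n hn
    omega
  · intro n hn
    rw [mem_Icc] at hn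
    omega
  · intro n _
    rfl

/-- extension by zero -/
noncomputable def zext (N : ℕ) (u : ℕ → ℂ) (n : ℤ) : ℂ := if 1 ≤ n ∧ n ≤ N then u n.toNat else 0

lemma zext_supp (N : ℕ) (u : ℕ → ℂ) : ∀ n : ℤ, n < 1 ∨ (N : ℤ) < n → zext N u n = 0 := by
  intro n hn
  unfold zext
  rw [if_neg]
  omega

lemma sum_zext (N : ℕ) (u : ℕ → ℂ) (F : ℤ → ℂ → ℂ) :
    ∑ n ∈ Icc (1 : ℤ) N, F n (zext N u n) = ∑ n ∈ Icc 1 N, F n (u n) := by
  symm
  apply sum_bij' (fun (n : ℕ) _ => (n : ℤ)) (fun (n : ℤ) _ => n.toNat)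
  · intro n hn
    rw [mem_Icc] at hn ⊢
    omega
  · intro n hn
    rw [mem_Icc] at hn ⊢
    omega
  · intro n hn
    omega
  · intro n hn
    rw [mem_Icc] at hn
    omega
  · intro n hn
    rw [mem_Icc] at hn
    unfold zext
    rw [if_pos (by omega)]
    simp

lemma ES_zext (H N : ℕ) (u : ℕ → ℂ) (α : ℝ) : ES (-H) (N + H) (zext N u) α = SN N u α := by
  rw [ES_supp (-H) (N + H) N (by linarith [Int.natCast_nonneg H]) (by linarith [Int.natCast_nonneg H])
    (zext N u) (zext_supp N u)]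
  exact sum_zext N u (fun n z => z * ee (n * α))

lemma norm_zext (N : ℕ) (u : ℕ → ℂ) :
    ∑ n ∈ Icc (1 : ℤ) N, ‖zext N u n‖ ^ 2 = ∑ n ∈ Icc 1 N, ‖u n‖ ^ 2 := by
  have := sum_zext N u (fun _ z => ((‖z‖ ^ 2 : ℝ) : ℂ))
  exact_mod_cast this

/-! ### characters by conductor -/

open Classical in
lemma step2' (m : ℕ) [NeZero m] (p : ℕ → Prop) (w : DirichletCharacter ℂ m → ℝ) (hw : ∀ χ, 0 ≤ w χ)
    (W : (f : ℕ) → DirichletCharacter ℂ f → ℝ)
    (hW : ∀ f (h : f ∣ m) (ψ : DirichletCharacter ℂ f),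
      w (DirichletCharacter.changeLevel h ψ) ≤ W f ψ) :
    ∑ χ ∈ (univ : Finset (DirichletCharacter ℂ m)).filter (fun χ => p χ.conductor), w χ ≤
      ∑ f ∈ m.divisors.filter p,
        ∑ ψ ∈ (univ : Finset (DirichletCharacter ℂ f)).filter (fun χ => χ.IsPrimitive), W f ψ := by
  have h1 : ∀ χ ∈ (univ : Finset (DirichletCharacter ℂ m)).filter (fun χ => p χ.conductor),
      χ.conductor ∈ m.divisors.filter p := by
    intro χ hχ
    rw [mem_filter] at hχ ⊢
    exact ⟨Nat.mem_divisors.mpr ⟨χ.conductor_dvd_level, NeZero.ne m⟩, hχ.2⟩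
  rw [← sum_fiberwise_of_maps_to h1]
  apply sum_le_sum
  intro f hf
  rw [mem_filter, Nat.mem_divisors] at hf
  have hfm := hf.1.1
  have h2 : (((univ : Finset (DirichletCharacter ℂ m)).filter (fun χ => p χ.conductor)).filter
      (fun χ => χ.conductor = f)) ⊆
      ((univ : Finset (DirichletCharacter ℂ f)).filter (fun χ => χ.IsPrimitive)).image
        (DirichletCharacter.changeLevel hfm) := by
    intro χ hχ
    rw [mem_filter] at hχ
    obtain ⟨_, hc⟩ := hχ
    subst hc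
    rw [mem_image]
    exact ⟨χ.primitiveCharacter, by
      rw [mem_filter]; exact ⟨mem_univ _, χ.primitiveCharacter_isPrimitive⟩,
      χ.changeLevel_primitiveCharacter⟩
  calc _ ≤ ∑ χ ∈ ((univ : Finset (DirichletCharacter ℂ f)).filter (fun χ => χ.IsPrimitive)).image
        (DirichletCharacter.changeLevel hfm), w χ :=
        sum_le_sum_of_subset_of_nonneg h2 fun χ _ _ => hw χ
    _ = ∑ ψ ∈ (univ : Finset (DirichletCharacter ℂ f)).filter (fun χ => χ.IsPrimitive),
        w (DirichletCharacter.changeLevel hfm ψ) := by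
        rw [sum_image]
        intro x _ y _ hxy
        exact DirichletCharacter.changeLevel_injective hfm hxy
    _ ≤ _ := sum_le_sum fun ψ _ => hW f hfm ψ

open Classical in
/-- primitive mean square -/
noncomputable def PM (N : ℕ) (u : ℕ → ℂ) (f : ℕ) : ℝ :=
  ∑ ψ ∈ (univ : Finset (DirichletCharacter ℂ f)).filter (fun χ => χ.IsPrimitive), ‖CS N u ψ‖ ^ 2

lemma PM_nonneg (N : ℕ) (u : ℕ → ℂ) (f : ℕ) : 0 ≤ PM N u f := sum_nonneg fun _ _ => by positivity

lemma PM_sum (N : ℕ) (u : ℕ → ℂ) (j : ℕ) :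
    ∑ f ∈ Icc 1 j, PM N u f ≤ 6 * (N + (j : ℝ) ^ 2) * ∑ n ∈ Icc 1 N, ‖u n‖ ^ 2 := by
  refine le_trans ?_ (mult_large_sieve N j u)
  apply sum_le_sum
  intro f hf
  rw [mem_Icc] at hf
  have h1 : (1 : ℝ) ≤ (f : ℝ) / (Nat.totient f : ℝ) := by
    have h2 : 0 < Nat.totient f := Nat.totient_pos.2 (by omega)
    rw [le_div_iff₀ (by exact_mod_cast h2), one_mul]
    exact_mod_cast Nat.totient_le f
  have h3 := PM_nonneg N u f
  unfold PM CS at *
  nlinarith

lemma totient_ge (q : ℕ) (hq : 0 < q) (D : ℝ) (hD : (q.divisors.card : ℝ) ≤ D) :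
    (q : ℝ) ≤ D * Nat.totient q := by
  have h1 : (q : ℝ) = ∑ d ∈ q.divisors, (Nat.totient d : ℝ) := by
    have := Nat.sum_totient q
    exact_mod_cast this.symm
  rw [h1]
  calc ∑ d ∈ q.divisors, (Nat.totient d : ℝ) ≤ ∑ d ∈ q.divisors, (Nat.totient q : ℝ) := by
        apply sum_le_sum
        intro d hd
        rw [Nat.mem_divisors] at hd
        exact_mod_cast Nat.le_of_dvd (Nat.totient_pos.2 hq) (Nat.totient_dvd_of_dvd hd.1)
    _ = q.divisors.card * (Nat.totient q : ℝ) := by rw [sum_const, nsmul_eq_mul]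
    _ ≤ _ := mul_le_mul_of_nonneg_right hD (by positivity)

open Classical in
theorem small_cond (N : ℕ) (u : ℕ → ℂ) (K y R : ℕ) (W D : ℝ) (hK : 1 ≤ K) (hD0 : 0 ≤ D)
    (hD : ∀ q ∈ Ioc K (2 * K), (q.divisors.card : ℝ) ≤ D)
    (hW : ∀ q ∈ Ioc K (2 * K), ∑ n ∈ (Icc 1 N).filter (fun n => ¬ n.Coprime q), ‖u n‖ ≤ W) :
    ∑ q ∈ Ioc K (2 * K), (1 / (Nat.totient q : ℝ)) *
      ∑ χ ∈ (univ : Finset (DirichletCharacter ℂ q)).filter
        (fun χ => y < χ.conductor ∧ χ.conductor ≤ R), ‖CS N u χ‖ ^ 2 ≤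
      D * (48 * (N / (y + 1) + R) * ∑ n ∈ Icc 1 N, ‖u n‖ ^ 2 + 4 * W ^ 2 * R) := by
  have hKr : (0 : ℝ) < K := by exact_mod_cast hK
  set p : ℕ → Prop := fun f => y < f ∧ f ≤ R with hp
  have h1 : ∀ q ∈ Ioc K (2 * K), (1 / (Nat.totient q : ℝ)) *
      ∑ χ ∈ (univ : Finset (DirichletCharacter ℂ q)).filter
        (fun χ => y < χ.conductor ∧ χ.conductor ≤ R), ‖CS N u χ‖ ^ 2 ≤
      (D / K) * ∑ f ∈ q.divisors.filter p, (2 * PM N u f + 2 * W ^ 2 * f) := by
    intro q hq
    have hq' := hq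
    rw [mem_Ioc] at hq'
    have hq0 : 0 < q := by omega
    have : NeZero q := ⟨by omega⟩
    have hφ : (0 : ℝ) < Nat.totient q := by exact_mod_cast Nat.totient_pos.2 hq0
    have h2 : ∑ χ ∈ (univ : Finset (DirichletCharacter ℂ q)).filter
        (fun χ => y < χ.conductor ∧ χ.conductor ≤ R), ‖CS N u χ‖ ^ 2 ≤
        ∑ f ∈ q.divisors.filter p, (2 * PM N u f + 2 * W ^ 2 * f) := by
      have h3 := step2' q p (fun χ => ‖CS N u χ‖ ^ 2) (fun χ => by positivity)
        (fun f ψ => 2 * ‖CS N u ψ‖ ^ 2 + 2 * W ^ 2) (by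
          intro f hf ψ
          -- restrict to integers coprime to `q`
          set v : ℕ → ℂ := fun n => if n.Coprime q then u n else 0 with hv
          have e1 : CS N u (DirichletCharacter.changeLevel hf ψ) =
              CS N v (DirichletCharacter.changeLevel hf ψ) := by
            unfold CS
            refine sum_congr rfl fun n _ => ?_
            rw [hv]
            simp only
            split_ifs with hc
            · rfl
            · rw [MulChar.map_nonunit _ (fun hu => hc ((ZMod.isUnit_iff_coprime n _).mp hu))]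
              ring
          rw [e1, CS_changeLevel N v hf (fun n hn => by rw [hv]; simp [hn])]
          have e2 : CS N v ψ = CS N u ψ - ∑ n ∈ (Icc 1 N).filter (fun n => ¬ n.Coprime q), u n * ψ (n : ZMod f) := by
            unfold CS
            rw [eq_sub_iff_add_eq, ← sum_filter_add_sum_filter_not (Icc 1 N) (fun n => n.Coprime q)
              (fun n => u n * ψ (n : ZMod f))]
            congr 1
            rw [sum_filter]
            refine sum_congr rfl fun n _ => ?_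
            rw [hv]
            simp only
            split_ifs <;> simp
          have e3 : ‖∑ n ∈ (Icc 1 N).filter (fun n => ¬ n.Coprime q), u n * ψ (n : ZMod f)‖ ≤ W := by
            refine (norm_sum_le _ _).trans (le_trans ?_ (hW q hq))
            apply sum_le_sum
            intro n _
            rw [norm_mul]
            have := ψ.norm_le_one (n : ZMod f)
            have h4 := norm_nonneg (u n)
            nlinarith
          rw [e2]
          have e4 := norm_sub_le (CS N u ψ)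
            (∑ n ∈ (Icc 1 N).filter (fun n => ¬ n.Coprime q), u n * ψ (n : ZMod f))
          set a := ‖CS N u ψ‖ with ha
          have ha0 : 0 ≤ a := norm_nonneg _
          have e5 : ‖CS N u ψ - ∑ n ∈ (Icc 1 N).filter (fun n => ¬ n.Coprime q), u n * ψ (n : ZMod f)‖ ≤ a + W := by
            linarith
          calc _ ≤ (a + W) ^ 2 := pow_le_pow_left₀ (norm_nonneg _) e5 2
            _ ≤ _ := by nlinarith [sq_nonneg (a - W)])
      have h3' : ∑ χ ∈ (univ : Finset (DirichletCharacter ℂ q)).filter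
          (fun χ => y < χ.conductor ∧ χ.conductor ≤ R), ‖CS N u χ‖ ^ 2 ≤
          ∑ f ∈ q.divisors.filter p,
            ∑ ψ ∈ (univ : Finset (DirichletCharacter ℂ f)).filter (fun χ => χ.IsPrimitive),
              (2 * ‖CS N u ψ‖ ^ 2 + 2 * W ^ 2) := by
        convert h3
      refine h3'.trans (sum_le_sum ?_)
      intro f hf
      rw [mem_filter, Nat.mem_divisors] at hf
      have hf0 : 0 < f := Nat.pos_of_dvd_of_pos hf.1.1 hq0
      have : NeZero f := ⟨by omega⟩
      rw [sum_add_distrib, ← mul_sum, sum_const, nsmul_eq_mul]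
      have h5 : ((((univ : Finset (DirichletCharacter ℂ f)).filter (fun χ => χ.IsPrimitive)).card : ℕ) : ℝ) ≤ f := by
        have h6 : ((univ : Finset (DirichletCharacter ℂ f)).filter (fun χ => χ.IsPrimitive)).card ≤
            Fintype.card (DirichletCharacter ℂ f) := card_filter_le _ _
        have h7 : Fintype.card (DirichletCharacter ℂ f) = Nat.totient f := by
          rw [← Nat.card_eq_fintype_card]
          exact DirichletCharacter.card_eq_totient_of_hasEnoughRootsOfUnity ℂ f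
        have h8 : ((univ : Finset (DirichletCharacter ℂ f)).filter (fun χ => χ.IsPrimitive)).card ≤ f := by
          have := Nat.totient_le f
          omega
        exact_mod_cast h8
      have h9 : 0 ≤ 2 * W ^ 2 := by positivity
      have h10 := mul_le_mul_of_nonneg_right h5 h9
      unfold PM
      linarith
    have h11 : 1 / (Nat.totient q : ℝ) ≤ D / K := by
      rw [div_le_div_iff₀ hφ hKr, one_mul]
      have := totient_ge q hq0 D (hD q hq)
      have h12 : (K : ℝ) ≤ q := by exact_mod_cast hq'.1.le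
      linarith
    have h13 : 0 ≤ ∑ f ∈ q.divisors.filter p, (2 * PM N u f + 2 * W ^ 2 * f) := by
      apply sum_nonneg
      intro f _
      have := PM_nonneg N u f
      positivity
    calc _ ≤ (1 / (Nat.totient q : ℝ)) * ∑ f ∈ q.divisors.filter p, (2 * PM N u f + 2 * W ^ 2 * f) :=
          mul_le_mul_of_nonneg_left h2 (by positivity)
      _ ≤ _ := mul_le_mul_of_nonneg_right h11 h13
  refine (sum_le_sum h1).trans ?_
  rw [← mul_sum]
  have h2 := swap_div K (y + 1) R (fun f => 2 * PM N u f + 2 * W ^ 2 * f)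
    (fun f => by have := PM_nonneg N u f; positivity) p (fun f hf => hf.1) (fun f _ hf => hf.2)
  have h3 := abel_bound (PM N u) (PM_nonneg N u) (y + 1) R (by omega) N
    (∑ n ∈ Icc 1 N, ‖u n‖ ^ 2) (by positivity) (by positivity) (PM_sum N u)
  have h4 : ∑ f ∈ Icc (y + 1) R, (2 * PM N u f + 2 * W ^ 2 * f) / (f : ℝ) ≤
      2 * ∑ f ∈ Icc (y + 1) R, PM N u f / f + 2 * W ^ 2 * R := by
    have h5 : ∀ f ∈ Icc (y + 1) R, (2 * PM N u f + 2 * W ^ 2 * f) / (f : ℝ) =
        2 * (PM N u f / f) + 2 * W ^ 2 := by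
      intro f hf
      rw [mem_Icc] at hf
      have : (f : ℝ) ≠ 0 := by
        have : 0 < f := by omega
        positivity
      field_simp
    rw [sum_congr rfl h5, sum_add_distrib, ← mul_sum, sum_const, nsmul_eq_mul, Nat.card_Icc]
    have h6 : ((R + 1 - (y + 1) : ℕ) : ℝ) ≤ R := by
      have : R + 1 - (y + 1) ≤ R := by omega
      exact_mod_cast this
    have h7 : 0 ≤ 2 * W ^ 2 := by positivity
    have := mul_le_mul_of_nonneg_right h6 h7
    linarith
  push_cast at h3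
  calc D / K * ∑ q ∈ Ioc K (2 * K), ∑ f ∈ q.divisors.filter p, (2 * PM N u f + 2 * W ^ 2 * f)
      ≤ D / K * (2 * K * ∑ f ∈ Icc (y + 1) R, (2 * PM N u f + 2 * W ^ 2 * f) / (f : ℝ)) :=
        mul_le_mul_of_nonneg_left h2 (by positivity)
    _ = D * (2 * ∑ f ∈ Icc (y + 1) R, (2 * PM N u f + 2 * W ^ 2 * f) / (f : ℝ)) := by
        field_simp
    _ ≤ _ := by
        apply mul_le_mul_of_nonneg_left _ hD0
        linarith

end Pool.Agent.W110.HV
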