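import Pool.Agent.W110.HV.Basic

/-!
Mean squares of character sums modulo `q` in terms of exponential sums at the fractions `b/q`;
the characters whose conductor divides a given divisor of `q`.
-/

open Finset

namespace Pool.Agent.W110.HV

open Pool.Agent.Helper112

/-- exponential sum of a function on the positive integers up to `N` -/
noncomputable def SN (N : ℕ) (g : ℕ → ℂ) (α : ℝ) : ℂ := ∑ n ∈ Icc 1 N, g n * ee (n * α)

/-- character sum -/
noncomputable def CS {q : ℕ} (N : ℕ) (g : ℕ → ℂ) (χ : DirichletCharacter ℂ q) : ℂ :=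
  ∑ n ∈ Icc 1 N, g n * χ (n : ZMod q)

/-- the mean square of the exponential sums at the fractions `b/q` -/
theorem all_chars (q : ℕ) [NeZero q] (N : ℕ) (g : ℕ → ℂ) (hg : ∀ n, ¬ n.Coprime q → g n = 0) :
    (q : ℝ) * ∑ χ : DirichletCharacter ℂ q, ‖CS N g χ‖ ^ 2 =
      Nat.totient q * ∑ b ∈ range q, ‖SN N g ((b : ℝ) / q)‖ ^ 2 := by
  classical
  set G : ZMod q → ℂ := fun a => ∑ n ∈ (Icc 1 N).filter (fun n => ((n : ℕ) : ZMod q) = a), g n with hG
  -- characters
  have h1 : ∀ F : ZMod q → ℂ, ∑ a : ZMod q, F a * G a = ∑ n ∈ Icc 1 N, F (n : ZMod q) * g n := by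
    intro F
    rw [hG]
    simp_rw [mul_sum]
    rw [← sum_fiberwise (Icc 1 N) (fun n => ((n : ℕ) : ZMod q)) (fun n => F (n : ZMod q) * g n)]
    refine sum_congr rfl fun a _ => sum_congr rfl fun n hn => ?_
    rw [mem_filter] at hn
    rw [hn.2]
  have h2 : ∑ χ : DirichletCharacter ℂ q, ‖CS N g χ‖ ^ 2 =
      ∑ χ : DirichletCharacter ℂ q, ‖∑ a : ZMod q, χ⁻¹ a * G a‖ ^ 2 := by
    rw [← Equiv.sum_comp (Equiv.inv (DirichletCharacter ℂ q))]
    refine sum_congr rfl fun χ _ => ?_
    rw [h1]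
    unfold CS
    simp only [Equiv.inv_apply]
    congr 2
    refine sum_congr rfl fun n _ => ?_
    rw [mul_comm]
  rw [h2, MLS.sum_all]
  have h3 : ∑ a : (ZMod q)ˣ, ‖G a‖ ^ 2 = ∑ a : ZMod q, ‖G a‖ ^ 2 := by
    rw [← sum_filter_add_sum_filter_not (univ : Finset (ZMod q)) (fun a => IsUnit a)]
    have h0 : ∑ a ∈ univ.filter (fun a : ZMod q => ¬ IsUnit a), ‖G a‖ ^ 2 = 0 := by
      apply sum_eq_zero
      intro a ha
      rw [mem_filter] at ha
      have : G a = 0 := by
        rw [hG]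
        apply sum_eq_zero
        intro n hn
        rw [mem_filter] at hn
        apply hg
        intro hc
        apply ha.2
        rw [← hn.2]
        exact (ZMod.isUnit_iff_coprime n q).mpr hc
      rw [this]
      simp
    rw [h0, add_zero]
    apply sum_bij (fun (a : (ZMod q)ˣ) _ => (a : ZMod q))
    · intro a _; simp
    · intro a _ b _ hab; exact Units.ext hab
    · intro b hb
      rw [mem_filter] at hb
      exact ⟨hb.2.unit, mem_univ _, rfl⟩
    · intro a _; rfl
  have h4 := MLS.parseval q G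
  have h5 : ∀ b : ZMod q, ∑ a : ZMod q, G a * ZMod.stdAddChar (b * a) = MLS.T q N g b := by
    intro b
    have := h1 (fun a => ZMod.stdAddChar (b * a))
    simp_rw [mul_comm (G _)]
    rw [this]
    unfold MLS.T
    refine sum_congr rfl fun n _ => ?_
    rw [mul_comm]
  simp_rw [h5] at h4
  have h6 : ∑ b ∈ range q, ‖SN N g ((b : ℝ) / q)‖ ^ 2 = ∑ b : ZMod q, ‖MLS.T q N g b‖ ^ 2 := by
    symm
    apply sum_bij (fun (a : ZMod q) _ => a.val)
    · intro a _
      rw [mem_range]
      exact ZMod.val_lt _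
    · intro a _ b _ hab
      exact ZMod.val_injective q hab
    · intro b hb
      rw [mem_range] at hb
      exact ⟨(b : ZMod q), mem_univ _, by rw [ZMod.val_natCast, Nat.mod_eq_of_lt hb]⟩
    · intro a _
      have := MLS.T_eq q N g a.val
      rw [ZMod.natCast_zmod_val] at this
      rw [this]
      unfold SN
      congr 2
      refine sum_congr rfl fun n _ => ?_
      rw [mul_div_assoc]
  rw [h6, h4, h3]
  ring

lemma CS_changeLevel (N : ℕ) (g : ℕ → ℂ) {m q : ℕ} (h : m ∣ q) (hg : ∀ n, ¬ n.Coprime q → g n = 0)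
    (ψ : DirichletCharacter ℂ m) :
    CS N g (DirichletCharacter.changeLevel h ψ) = CS N g ψ := by
  unfold CS
  apply sum_congr rfl
  intro b _
  by_cases hb : b.Coprime q
  · have h1 := DirichletCharacter.changeLevel_eq_cast_of_dvd' ψ h (a := (b : ℤ))
      (by exact_mod_cast Nat.isCoprime_iff_coprime.mpr hb)
    push_cast at h1
    rw [h1]
  · rw [hg b hb]
    simp

open Classical in
/-- the characters modulo `q` whose conductor divides `m` -/
theorem low_chars (q m : ℕ) [NeZero q] [NeZero m] (h : m ∣ q) (N : ℕ) (g : ℕ → ℂ)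
    (hg : ∀ n, ¬ n.Coprime q → g n = 0) :
    ∑ χ ∈ (univ : Finset (DirichletCharacter ℂ q)).filter (fun χ => χ.conductor ∣ m), ‖CS N g χ‖ ^ 2 =
      ∑ ψ : DirichletCharacter ℂ m, ‖CS N g ψ‖ ^ 2 := by
  symm
  apply sum_bij (fun (ψ : DirichletCharacter ℂ m) _ => DirichletCharacter.changeLevel h ψ)
  · intro ψ _
    rw [mem_filter]
    refine ⟨mem_univ _, ?_⟩
    rw [DirichletCharacter.conductor_changeLevel]
    exact ψ.conductor_dvd_level
  · intro a _ b _ hab
    exact DirichletCharacter.changeLevel_injective h hab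
  · intro χ hχ
    rw [mem_filter] at hχ
    have := (DirichletCharacter.mem_conductorSet_iff_conductor_dvd χ h).2 hχ.2
    obtain ⟨_, ψ, hψ⟩ := this
    exact ⟨ψ, mem_univ _, hψ.symm⟩
  · intro ψ _
    rw [CS_changeLevel N g h hg]

open Classical in
/-- the characters modulo `q` whose conductor does not divide `m` -/
theorem high_chars (q m : ℕ) [NeZero q] [NeZero m] (h : m ∣ q) (N : ℕ) (g : ℕ → ℂ)
    (hg : ∀ n, ¬ n.Coprime q → g n = 0) :
    ∑ χ ∈ (univ : Finset (DirichletCharacter ℂ q)).filter (fun χ => ¬ χ.conductor ∣ m),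
      ‖CS N g χ‖ ^ 2 =
      Nat.totient q / q * ∑ b ∈ range q, ‖SN N g ((b : ℝ) / q)‖ ^ 2 -
        Nat.totient m / m * ∑ b ∈ range m, ‖SN N g ((b : ℝ) / m)‖ ^ 2 := by
  have h1 := sum_filter_add_sum_filter_not (univ : Finset (DirichletCharacter ℂ q))
    (fun χ => χ.conductor ∣ m) (fun χ => ‖CS N g χ‖ ^ 2)
  rw [low_chars q m h N g hg] at h1
  have h2 := all_chars q N g hg
  have h3 := all_chars m N g (fun n hn => hg n (fun hc => hn (Nat.Coprime.coprime_dvd_right h hc)))
  have hq : (q : ℝ) ≠ 0 := by exact_mod_cast NeZero.ne q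
  have hm : (m : ℝ) ≠ 0 := by exact_mod_cast NeZero.ne m
  have h4 : ∑ χ : DirichletCharacter ℂ q, ‖CS N g χ‖ ^ 2 =
      Nat.totient q / q * ∑ b ∈ range q, ‖SN N g ((b : ℝ) / q)‖ ^ 2 := by
    field_simp
    linarith
  have h5 : ∑ χ : DirichletCharacter ℂ m, ‖CS N g χ‖ ^ 2 =
      Nat.totient m / m * ∑ b ∈ range m, ‖SN N g ((b : ℝ) / m)‖ ^ 2 := by
    field_simp
    linarith
  rw [h4, h5] at h1
  linarith

end Pool.Agent.W110.HV
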