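import Pool.Agent.W110.HV.Rama2

/-!
The mean square of the smooth major arc part of a sequence without small prime factors.
-/

open Finset

namespace Pool.Agent.W110.HV

open Pool.Agent.Helper112

theorem EE_bound : ∃ C : ℝ, 0 < C ∧ ∀ (P Z H N : ℕ), 2 ≤ P → 2 ≤ Z → (P * Z) ^ 2 ≤ H →
    ∀ u : ℤ → ℂ, (∀ n : ℤ, n < 1 ∨ (N : ℤ) < n → u n = 0) →
    (∀ n : ℤ, u n ≠ 0 → ∀ s : ℕ, 1 ≤ s → s ≤ P * Z → IsCoprime n (s : ℤ)) →
    2 * (P : ℝ) ^ 6 ≤ (H : ℝ) ^ 2 →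
    ∑ n ∈ Icc (-(H : ℤ)) (N + H), ‖EE P H N u n‖ ^ 2 ≤
      C * (Real.log P / Real.log Z) * ∑ n ∈ Icc (1 : ℤ) N, ‖u n‖ ^ 2 := by
  obtain ⟨C, hC, h⟩ := ramare
  refine ⟨4 * C, by positivity, fun P Z H N hP hZ hPZ u hu huc hPH => ?_⟩
  have hPr : (2 : ℝ) ≤ P := by exact_mod_cast hP
  have hZr : (2 : ℝ) ≤ Z := by exact_mod_cast hZ
  have hlP : 0 < Real.log P := Real.log_pos (by linarith)
  have hlZ : 0 < Real.log Z := Real.log_pos (by linarith)
  have hH1 : 1 ≤ H := by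
    refine le_trans ?_ hPZ
    have : 1 ≤ P * Z := Nat.mul_pos (by omega) (by omega)
    exact Nat.one_le_pow _ _ this
  have hH0 : (0 : ℝ) < H := by exact_mod_cast hH1
  have hR : (((P * Z : ℕ) : ℝ)) ^ 2 ≤ H := by exact_mod_cast hPZ
  have h1 := EE_norm P H N (by omega) hH1 hPH u hu
  refine h1.trans ?_
  have h2 : ∑ x ∈ Icc (-(H : ℤ)) (N + H), ∑ r ∈ Fr P, ‖WW H u (xi r) x‖ ^ 2 ≤
      ∑ x ∈ Icc (-(H : ℤ)) (N + H), (C * Real.log P / Real.log Z * (2 * H)) *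
        ∑ i ∈ range H, ‖u (x + i)‖ ^ 2 := by
    apply sum_le_sum
    intro x _
    have h3 := h P Z (P * Z) H hP (by omega) le_rfl u x huc
    simp_rw [norm_VV] at h3
    set A := ∑ r ∈ Fr P, ‖WW H u (xi r) x‖ ^ 2 with hA
    set U := ∑ i ∈ range H, ‖u (x + i)‖ ^ 2 with hU
    have hU0 : 0 ≤ U := by positivity
    have h4 : Real.log Z * A ≤ C * Real.log P * (2 * H) * U := by
      refine h3.trans ?_
      gcongr
      linarith
    calc A = (Real.log Z * A) / Real.log Z := by field_simp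
      _ ≤ (C * Real.log P * (2 * H) * U) / Real.log Z := div_le_div_of_nonneg_right h4 hlZ.le
      _ = _ := by ring
  have h5 := sum_windows H N u hu
  calc (2 / (H : ℝ) ^ 2) * ∑ x ∈ Icc (-(H : ℤ)) (N + H), ∑ r ∈ Fr P, ‖WW H u (xi r) x‖ ^ 2
      ≤ (2 / (H : ℝ) ^ 2) * ((C * Real.log P / Real.log Z * (2 * H)) *
          (H * ∑ n ∈ Icc (1 : ℤ) N, ‖u n‖ ^ 2)) := by
        apply mul_le_mul_of_nonneg_left _ (by positivity)
        refine h2.trans ?_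
        rw [← mul_sum]
        exact mul_le_mul_of_nonneg_left h5 (by positivity)
    _ = _ := by
        field_simp
        ring

end Pool.Agent.W110.HV
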