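import Pool.Agent.W110.HV.Sup
import Pool.Agent.W110.HV.EBound

/-!
The mean square for one good modulus.
-/

open Finset

namespace Pool.Agent.W110.HV

open Pool.Agent.Helper112

lemma young_aux {ι : Type*} (S : Finset ι) (x y : ι → ℂ) (t : ℝ) (ht : 0 < t) :
    ∑ i ∈ S, ‖x i‖ ^ 2 ≤ (1 + t) * ∑ i ∈ S, ‖y i‖ ^ 2 + (1 + 1 / t) * ∑ i ∈ S, ‖x i - y i‖ ^ 2 := by
  rw [mul_sum, mul_sum, ← sum_add_distrib]
  apply sum_le_sum
  intro i _
  have h1 : ‖x i‖ ≤ ‖y i‖ + ‖x i - y i‖ := by
    have := norm_add_le (y i) (x i - y i)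
    simpa using this
  set a := ‖y i‖ with ha
  set b := ‖x i - y i‖ with hb
  have ha0 : 0 ≤ a := norm_nonneg _
  have hb0 : 0 ≤ b := norm_nonneg _
  calc ‖x i‖ ^ 2 ≤ (a + b) ^ 2 := pow_le_pow_left₀ (norm_nonneg _) h1 2
    _ ≤ (1 + t) * a ^ 2 + (1 + 1 / t) * b ^ 2 := by
        have h2 : 0 ≤ (t * a - b) ^ 2 / t := by positivity
        have h3 : (t * a - b) ^ 2 / t = t * a ^ 2 - 2 * a * b + 1 / t * b ^ 2 := by
          field_simp
          ring
        nlinarith

/-- mean squares of functions which are close in mean square are close -/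
lemma sum_close {ι : Type*} (S : Finset ι) (x y : ι → ℂ) (c t B M : ℝ) (hc : 0 ≤ c) (ht : 0 < t)
    (ht1 : t ≤ 1) (hB : 0 ≤ B) (hM : 0 ≤ M) (hy : c * ∑ i ∈ S, ‖y i‖ ^ 2 ≤ M * B)
    (he : c * ∑ i ∈ S, ‖x i - y i‖ ^ 2 ≤ t ^ 2 * B) :
    |c * ∑ i ∈ S, ‖x i‖ ^ 2 - c * ∑ i ∈ S, ‖y i‖ ^ 2| ≤ (2 * M + 4) * t * B := by
  have h1 := mul_le_mul_of_nonneg_left (young_aux S x y t ht) hc
  have h2 := mul_le_mul_of_nonneg_left (young_aux S y x t ht) hc
  have h3 : ∑ i ∈ S, ‖y i - x i‖ ^ 2 = ∑ i ∈ S, ‖x i - y i‖ ^ 2 :=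
    sum_congr rfl fun i _ => by rw [norm_sub_rev]
  rw [h3] at h2
  set X := c * ∑ i ∈ S, ‖x i‖ ^ 2 with hX
  set Y := c * ∑ i ∈ S, ‖y i‖ ^ 2 with hY
  set e := c * ∑ i ∈ S, ‖x i - y i‖ ^ 2 with hed
  have hX' : X ≤ (1 + t) * Y + (1 + 1 / t) * e := by
    refine h1.trans (le_of_eq ?_)
    rw [hY, hed]
    ring
  have hY' : Y ≤ (1 + t) * X + (1 + 1 / t) * e := by
    refine h2.trans (le_of_eq ?_)
    rw [hX, hed]
    ring
  have he2 : (1 + 1 / t) * e ≤ 2 * t * B := by
    calc (1 + 1 / t) * e ≤ (1 + 1 / t) * (t ^ 2 * B) := mul_le_mul_of_nonneg_left he (by positivity)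
      _ = (t ^ 2 + t) * B := by field_simp
      _ ≤ _ := by
          apply mul_le_mul_of_nonneg_right _ hB
          nlinarith
  have hX0 : 0 ≤ X := by positivity
  have hY0 : 0 ≤ Y := by positivity
  have htB : 0 ≤ t * B := by positivity
  have htY : t * Y ≤ t * (M * B) := mul_le_mul_of_nonneg_left hy ht.le
  have h4 : X ≤ (2 * M + 2) * B := by
    have : t * (M * B) ≤ 1 * (M * B) := mul_le_mul_of_nonneg_right ht1 (by positivity)
    have h5 : 2 * t * B ≤ 2 * 1 * B := by
      apply mul_le_mul_of_nonneg_right _ hB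
      linarith
    nlinarith
  have htX : t * X ≤ t * ((2 * M + 2) * B) := mul_le_mul_of_nonneg_left h4 ht.le
  have hMtB : 0 ≤ M * (t * B) := by positivity
  rw [abs_le]
  constructor
  · nlinarith
  · nlinarith

/-- mean square over the fractions `b/q` with `l ∤ b` -/
noncomputable def TT (q l : ℕ) (F : ℝ → ℂ) : ℝ :=
  (1 / (q : ℝ)) * ∑ b ∈ (range q).filter (fun b => ¬ l ∣ b), ‖F ((b : ℝ) / q)‖ ^ 2

lemma TT_eq (m l : ℕ) (hm : 0 < m) (hl : 0 < l) (F : ℝ → ℂ) :
    (1 / ((m * l : ℕ) : ℝ)) * ∑ b ∈ range (m * l), ‖F ((b : ℝ) / ((m * l : ℕ) : ℝ))‖ ^ 2 =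
      TT (m * l) l F + (1 / ((m * l : ℕ) : ℝ)) * ∑ c ∈ range m, ‖F ((c : ℝ) / m)‖ ^ 2 := by
  unfold TT
  rw [← mul_add]
  congr 1
  rw [← sum_filter_add_sum_filter_not (range (m * l)) (fun b => ¬ l ∣ b)]
  congr 1
  symm
  apply sum_bij (fun c _ => l * c)
  · intro c hc
    rw [mem_range] at hc
    rw [mem_filter, mem_range]
    refine ⟨?_, by simp⟩
    rw [mul_comm m l]
    exact Nat.mul_lt_mul_of_pos_left hc hl
  · intro a _ b _ hab
    exact Nat.eq_of_mul_eq_mul_left hl hab
  · intro b hb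
    rw [mem_filter, mem_range, not_not] at hb
    obtain ⟨hb1, c, rfl⟩ := hb
    refine ⟨c, ?_, rfl⟩
    rw [mem_range]
    rw [mul_comm m l] at hb1
    exact Nat.lt_of_mul_lt_mul_left hb1
  · intro c _
    have hlr : (l : ℝ) ≠ 0 := by positivity
    have hmr : (m : ℝ) ≠ 0 := by positivity
    congr 3
    push_cast
    field_simp

lemma low_le (m N : ℕ) (hm : 0 < m) (g : ℕ → ℂ) :
    ∑ c ∈ range m, ‖SN N g ((c : ℝ) / m)‖ ^ 2 ≤ 6 * (N + (m : ℝ) ^ 2) * ∑ n ∈ Icc 1 N, ‖g n‖ ^ 2 := by
  have h := frac_sum m hm (fun _ x => ‖SN N g x‖ ^ 2)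
  rw [h]
  refine le_trans ?_ (AD_sum N g m)
  calc ∑ D ∈ m.divisors, ∑ a ∈ (range D).filter (fun a => a.Coprime D), ‖SN N g ((a : ℝ) / D)‖ ^ 2
      = ∑ D ∈ m.divisors, AD N g D := rfl
    _ ≤ _ := by
        apply sum_le_sum_of_subset_of_nonneg
        · intro D hD
          rw [Nat.mem_divisors] at hD
          rw [mem_Icc]
          exact ⟨Nat.pos_of_dvd_of_pos hD.1 hm, Nat.le_of_dvd hm hD.1⟩
        · intro D _ _
          exact AD_nonneg N g D

open Classical in
theorem core (N P H y R q : ℕ) (B t D : ℝ) (ht : 0 < t) (ht1 : t ≤ 1) (hB : 0 ≤ B)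
    (hq : 0 < q) (hN : 1 ≤ N) (hD : (q.divisors.card : ℝ) ≤ D)
    (hU : |∑ n ∈ Icc 1 N, ‖uu N n‖ ^ 2 - B| ≤ t * B)
    (hE : ∑ n ∈ Icc (-(H : ℤ)) (N + H), ‖EE P H N (zext N (uu N)) n‖ ^ 2 ≤ t ^ 2 * B)
    (hoff : ‖off q (-H) (N + H) (fun n => zext N (uu N) n - EE P H N (zext N (uu N)) n)
      (fun n => zext N (uu N) n - EE P H N (zext N (uu N)) n)‖ ≤ t * B)
    (hlow : (1 / (q : ℝ)) * ∑ c ∈ range (sm y q), ‖ES (-H) (N + H)
      (fun n => zext N (uu N) n - EE P H N (zext N (uu N)) n) ((c : ℝ) / (sm y q : ℕ))‖ ^ 2 ≤ t * B)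
    (hTE : (1 / (q : ℝ)) * ∑ b ∈ (range q).filter (fun b => y < q / Nat.gcd b q),
      ‖ES (-H) (N + H) (EE P H N (zext N (uu N))) ((b : ℝ) / q)‖ ^ 2 ≤ t ^ 2 * B)
    (hW : (D * Real.log N) ^ 2 ≤ t ^ 2 * B)
    (hlg : D / (y + 1) * (6 * (N + (sm y q : ℝ) ^ 2) * ∑ n ∈ Icc 1 N, ‖uu N n‖ ^ 2) ≤
      t * B * Nat.totient q)
    (hR : sm y q ≤ R)
    (hsc : (1 / (Nat.totient q : ℝ)) * ∑ χ ∈ (univ : Finset (DirichletCharacter ℂ q)).filter
        (fun χ => y < χ.conductor ∧ χ.conductor ≤ R), ‖CS N (uu N) χ‖ ^ 2 ≤ t * B)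
    (hv : (∑ n ∈ Icc 1 N, (ArithmeticFunction.vonMangoldt n - uR N n)) ^ 2 ≤ t ^ 2 * B) :
    |∑ χ ∈ (univ : Finset (DirichletCharacter ℂ q)).filter (fun χ => R < χ.conductor),
      ‖∑ n ∈ Icc 1 N, ((ArithmeticFunction.vonMangoldt n : ℝ) : ℂ) * χ (n : ZMod q)‖ ^ 2 -
        Nat.totient q * B| ≤ 500 * t * (Nat.totient q * B) := by
  have hNZ : NeZero q := ⟨by omega⟩
  have hqr : (0 : ℝ) < q := by exact_mod_cast hq
  have hφn : 0 < Nat.totient q := Nat.totient_pos.2 hq
  have hφ : (0 : ℝ) < Nat.totient q := by exact_mod_cast hφn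
  have htB : 0 ≤ t * B := by positivity
  have htB1 : t * B ≤ B := by nlinarith
  set u : ℤ → ℂ := zext N (uu N) with hu
  set E : ℤ → ℂ := EE P H N u with hEd
  set f : ℤ → ℂ := fun n => u n - E n with hf
  set m : ℕ := sm y q with hm
  set l : ℕ := rg y q with hl
  have hml : m * l = q := sm_mul_rg y q (by omega)
  have hm0 : 0 < m := sm_pos y q
  have hl0 : 0 < l := rg_pos y q
  have hmq : m ∣ q := sm_dvd y q (by omega)
  have hNZm : NeZero m := ⟨by omega⟩
  set U := ∑ n ∈ Icc 1 N, ‖uu N n‖ ^ 2 with hUd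
  have hU2 : U ≤ 2 * B := by
    have := (abs_le.1 hU).2
    linarith
  -- step 1: the norm of `f`
  have hnu : ∑ n ∈ Icc (-(H : ℤ)) (N + H), ‖u n‖ ^ 2 = U := by
    rw [hUd, ← norm_zext]
    symm
    apply sum_subset
    · intro n hn
      rw [mem_Icc] at hn ⊢
      omega
    · intro n _ hn
      rw [mem_Icc] at hn
      rw [zext_supp N (uu N) n (by omega)]
      simp
  have s1 : |∑ n ∈ Icc (-(H : ℤ)) (N + H), ‖f n‖ ^ 2 - U| ≤ 8 * t * B := by
    have := sum_close (Icc (-(H : ℤ)) (N + H)) f u 1 t B 2 (by norm_num) ht ht1 hB (by norm_num)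
      (by rw [one_mul, hnu]; exact hU2) (by
        rw [one_mul]
        refine le_trans (le_of_eq ?_) hE
        refine sum_congr rfl fun n _ => ?_
        rw [hf]
        simp only
        rw [sub_sub_cancel_left, norm_neg])
    rw [one_mul, one_mul, hnu] at this
    refine this.trans (le_of_eq ?_)
    ring
  -- step 2: the mean square of `f` over the fractions
  have hpo := pars_off q hq (-H) (N + H) f f
  have hre : ∑ b ∈ range q, ‖ES (-H) (N + H) f ((b : ℝ) / q)‖ ^ 2 =
      q * (∑ n ∈ Icc (-(H : ℤ)) (N + H), ‖f n‖ ^ 2 + (off q (-H) (N + H) f f).re) := by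
    have h1 := congrArg Complex.re hpo
    simp_rw [mul_conj_norm] at h1
    rw [← Complex.ofReal_sum, ← Complex.ofReal_sum, Complex.ofReal_re, ← Complex.ofReal_natCast,
      Complex.re_ofReal_mul, Complex.add_re, Complex.ofReal_re] at h1
    exact h1
  have hTTe : ∀ F : ℝ → ℂ, (1 / (q : ℝ)) * ∑ b ∈ range q, ‖F ((b : ℝ) / q)‖ ^ 2 =
      TT q l F + (1 / (q : ℝ)) * ∑ c ∈ range m, ‖F ((c : ℝ) / m)‖ ^ 2 := by
    intro F
    have := TT_eq m l hm0 hl0 F
    rwa [hml] at this
  have s2 : |TT q l (ES (-H) (N + H) f) - ∑ n ∈ Icc (-(H : ℤ)) (N + H), ‖f n‖ ^ 2| ≤ 2 * t * B := by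
    have h1 := hTTe (ES (-H) (N + H) f)
    rw [hre] at h1
    have h2 : (1 / (q : ℝ)) * (q * (∑ n ∈ Icc (-(H : ℤ)) (N + H), ‖f n‖ ^ 2 + (off q (-H) (N + H) f f).re)) =
        ∑ n ∈ Icc (-(H : ℤ)) (N + H), ‖f n‖ ^ 2 + (off q (-H) (N + H) f f).re := by
      field_simp
    rw [h2] at h1
    have h3 : |(off q (-H) (N + H) f f).re| ≤ t * B := (Complex.abs_re_le_norm _).trans hoff
    have h4 : 0 ≤ (1 / (q : ℝ)) * ∑ c ∈ range m, ‖ES (-H) (N + H) f ((c : ℝ) / m)‖ ^ 2 := by positivity
    rw [abs_le] at h3 ⊢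
    constructor <;> linarith [hlow]
  have hf1 := abs_le.1 s1
  have hTTf : TT q l (ES (-H) (N + H) f) ≤ 12 * B := by
    have := (abs_le.1 s2).2
    linarith
  -- step 3: the mean square of `u`
  have hES : ∀ α, ES (-H) (N + H) u α - ES (-H) (N + H) f α = ES (-H) (N + H) E α := by
    intro α
    unfold ES
    rw [← sum_sub_distrib]
    refine sum_congr rfl fun n _ => ?_
    rw [hf]
    simp only
    ring
  have hTE' : (1 / (q : ℝ)) * ∑ b ∈ (range q).filter (fun b => ¬ l ∣ b),
      ‖ES (-H) (N + H) E ((b : ℝ) / q)‖ ^ 2 ≤ t ^ 2 * B := by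
    refine le_trans ?_ hTE
    apply mul_le_mul_of_nonneg_left _ (by positivity)
    apply sum_le_sum_of_subset_of_nonneg
    · intro b hb
      rw [mem_filter] at hb ⊢
      exact ⟨hb.1, den_gt (by omega) hb.2⟩
    · intro b _ _
      positivity
  have s3 : |TT q l (ES (-H) (N + H) u) - TT q l (ES (-H) (N + H) f)| ≤ 28 * t * B := by
    have := sum_close ((range q).filter (fun b => ¬ l ∣ b)) (fun b => ES (-H) (N + H) u ((b : ℝ) / q))
      (fun b => ES (-H) (N + H) f ((b : ℝ) / q)) (1 / (q : ℝ)) t B 12 (by positivity) ht ht1 hB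
      (by norm_num) hTTf (by
        refine le_trans (le_of_eq ?_) hTE'
        congr 1
        refine sum_congr rfl fun b _ => ?_
        rw [hES])
    unfold TT
    refine this.trans (le_of_eq ?_)
    ring
  have hSu : ∀ α, ES (-H) (N + H) u α = SN N (uu N) α := fun α => ES_zext H N (uu N) α
  have hTTu : TT q l (SN N (uu N)) ≤ 40 * B := by
    have h1 := (abs_le.1 s3).2
    have h2 : TT q l (ES (-H) (N + H) u) = TT q l (SN N (uu N)) := by
      unfold TT
      congr 1
      refine sum_congr rfl fun b _ => ?_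
      rw [hSu]
    rw [h2] at h1
    linarith
  have s3' : |TT q l (SN N (uu N)) - TT q l (ES (-H) (N + H) f)| ≤ 28 * t * B := by
    have h2 : TT q l (ES (-H) (N + H) u) = TT q l (SN N (uu N)) := by
      unfold TT
      congr 1
      refine sum_congr rfl fun b _ => ?_
      rw [hSu]
    rw [h2] at s3
    exact s3
  -- step 4: restrict to integers coprime to `q`
  set g : ℕ → ℂ := fun n => if n.Coprime q then uu N n else 0 with hg
  have hgc : ∀ n, ¬ n.Coprime q → g n = 0 := by
    intro n hn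
    rw [hg]
    simp [hn]
  have hgdiff : ∀ α, ‖SN N g α - SN N (uu N) α‖ ≤ D * Real.log N := by
    intro α
    have h1 : SN N g α - SN N (uu N) α =
        -∑ n ∈ (Icc 1 N).filter (fun n => ¬ n.Coprime q), uu N n * ee (n * α) := by
      unfold SN
      rw [← sum_sub_distrib, sum_filter, ← sum_neg_distrib]
      refine sum_congr rfl fun n _ => ?_
      rw [hg]
      simp only
      by_cases hc : n.Coprime q
      · rw [if_pos hc, if_neg (not_not.2 hc)]
        ring
      · rw [if_neg hc, if_pos hc]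
        ring
    rw [h1, norm_neg]
    refine (norm_sum_le _ _).trans ?_
    calc ∑ n ∈ (Icc 1 N).filter (fun n => ¬ n.Coprime q), ‖uu N n * ee (n * α)‖
        = ∑ n ∈ (Icc 1 N).filter (fun n => ¬ n.Coprime q), ‖uu N n‖ := by
          refine sum_congr rfl fun n _ => ?_
          rw [norm_mul, ls_norm_ee, mul_one]
      _ ≤ q.divisors.card * Real.log N := uu_not_coprime q N hq hN
      _ ≤ _ := mul_le_mul_of_nonneg_right hD (Real.log_natCast_nonneg N)
  have s4 : |TT q l (SN N g) - TT q l (SN N (uu N))| ≤ 84 * t * B := by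
    have := sum_close ((range q).filter (fun b => ¬ l ∣ b)) (fun b => SN N g ((b : ℝ) / q))
      (fun b => SN N (uu N) ((b : ℝ) / q)) (1 / (q : ℝ)) t B 40 (by positivity) ht ht1 hB
      (by norm_num) hTTu (by
        refine le_trans ?_ hW
        have hc : (((range q).filter (fun b => ¬ l ∣ b)).card : ℝ) ≤ q := by
          have := card_filter_le (range q) (fun b => ¬ l ∣ b)
          rw [card_range] at this
          exact_mod_cast this
        calc (1 / (q : ℝ)) * ∑ b ∈ (range q).filter (fun b => ¬ l ∣ b),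
              ‖SN N g ((b : ℝ) / q) - SN N (uu N) ((b : ℝ) / q)‖ ^ 2
            ≤ (1 / (q : ℝ)) * ∑ b ∈ (range q).filter (fun b => ¬ l ∣ b), (D * Real.log N) ^ 2 := by
              apply mul_le_mul_of_nonneg_left _ (by positivity)
              apply sum_le_sum
              intro b _
              exact pow_le_pow_left₀ (norm_nonneg _) (hgdiff _) 2
          _ = (1 / (q : ℝ)) * ((((range q).filter (fun b => ¬ l ∣ b)).card : ℝ) * (D * Real.log N) ^ 2) := by
              rw [sum_const, nsmul_eq_mul]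
          _ ≤ (1 / (q : ℝ)) * (q * (D * Real.log N) ^ 2) := by
              apply mul_le_mul_of_nonneg_left _ (by positivity)
              exact mul_le_mul_of_nonneg_right hc (by positivity)
          _ = _ := by field_simp)
    unfold TT
    refine this.trans (le_of_eq ?_)
    ring
  -- step 5: the characters whose conductor does not divide `m`
  have hh := high_chars q m hmq N g hgc
  have hCSg : ∀ χ : DirichletCharacter ℂ q, CS N g χ = CS N (uu N) χ := by
    intro χ
    unfold CS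
    refine sum_congr rfl fun n _ => ?_
    rw [hg]
    simp only
    split_ifs with hc
    · rfl
    · rw [MulChar.map_nonunit _ (fun hu => hc ((ZMod.isUnit_iff_coprime n _).mp hu))]
      ring
  simp_rw [hCSg] at hh
  set LG := ∑ b ∈ range m, ‖SN N g ((b : ℝ) / m)‖ ^ 2 with hLG
  have hLG0 : 0 ≤ LG := by positivity
  have hLGle : LG ≤ 6 * (N + (m : ℝ) ^ 2) * U := by
    refine (low_le m N hm0 g).trans ?_
    apply mul_le_mul_of_nonneg_left _ (by positivity)
    rw [hUd]
    apply sum_le_sum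
    intro n _
    rw [hg]
    simp only
    split_ifs
    · exact le_refl _
    · rw [norm_zero, zero_pow (by norm_num)]
      positivity
  have hrat := ratio_diff y q (by omega) D hD
  rw [← hm] at hrat
  have hmr : (0 : ℝ) < m := by exact_mod_cast hm0
  have hV : ∑ χ ∈ (univ : Finset (DirichletCharacter ℂ q)).filter (fun χ => ¬ χ.conductor ∣ m),
      ‖CS N (uu N) χ‖ ^ 2 = Nat.totient q * TT q l (SN N g) -
        ((Nat.totient m : ℝ) / m - (Nat.totient q : ℝ) / q) * LG := by
    rw [hh]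
    have h1 := hTTe (SN N g)
    have h2 : (Nat.totient q : ℝ) / q * ∑ b ∈ range q, ‖SN N g ((b : ℝ) / q)‖ ^ 2 =
        Nat.totient q * ((1 / (q : ℝ)) * ∑ b ∈ range q, ‖SN N g ((b : ℝ) / q)‖ ^ 2) := by ring
    rw [h2, h1]
    ring
  have herr0 : 0 ≤ ((Nat.totient m : ℝ) / m - (Nat.totient q : ℝ) / q) * LG := mul_nonneg hrat.1 hLG0
  have herr1 : ((Nat.totient m : ℝ) / m - (Nat.totient q : ℝ) / q) * LG ≤ t * B * Nat.totient q := by
    refine le_trans ?_ hlg
    exact mul_le_mul hrat.2 hLGle hLG0 (hrat.1.trans hrat.2)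
  -- step 6: the conductors
  have hsplit : ∑ χ ∈ (univ : Finset (DirichletCharacter ℂ q)).filter (fun χ => ¬ χ.conductor ∣ m),
      ‖CS N (uu N) χ‖ ^ 2 =
      ∑ χ ∈ (univ : Finset (DirichletCharacter ℂ q)).filter (fun χ => R < χ.conductor),
        ‖CS N (uu N) χ‖ ^ 2 +
      ∑ χ ∈ (univ : Finset (DirichletCharacter ℂ q)).filter
        (fun χ => ¬ χ.conductor ∣ m ∧ χ.conductor ≤ R), ‖CS N (uu N) χ‖ ^ 2 := by
    rw [← sum_filter_add_sum_filter_not ((univ : Finset (DirichletCharacter ℂ q)).filter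
      (fun χ => ¬ χ.conductor ∣ m)) (fun χ => R < χ.conductor)]
    congr 1
    · apply sum_congr _ (fun _ _ => rfl)
      ext χ
      simp only [mem_filter, mem_univ, true_and]
      constructor
      · exact fun h => h.2
      · intro h
        refine ⟨fun hd => ?_, h⟩
        have := Nat.le_of_dvd hm0 hd
        omega
    · apply sum_congr _ (fun _ _ => rfl)
      ext χ
      simp only [mem_filter, mem_univ, true_and, not_lt]
  have hsmall : ∑ χ ∈ (univ : Finset (DirichletCharacter ℂ q)).filter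
        (fun χ => ¬ χ.conductor ∣ m ∧ χ.conductor ≤ R), ‖CS N (uu N) χ‖ ^ 2 ≤ t * B * Nat.totient q := by
    have h1 : ∑ χ ∈ (univ : Finset (DirichletCharacter ℂ q)).filter
        (fun χ => ¬ χ.conductor ∣ m ∧ χ.conductor ≤ R), ‖CS N (uu N) χ‖ ^ 2 ≤
        ∑ χ ∈ (univ : Finset (DirichletCharacter ℂ q)).filter
        (fun χ => y < χ.conductor ∧ χ.conductor ≤ R), ‖CS N (uu N) χ‖ ^ 2 := by
      apply sum_le_sum_of_subset_of_nonneg
      · intro χ hχ
        simp only [mem_filter, mem_univ, true_and] at hχ ⊢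
        refine ⟨?_, hχ.2⟩
        by_contra hc
        push Not at hc
        exact hχ.1 (dvd_sm (by omega) χ.conductor_dvd_level hc)
      · intro χ _ _
        positivity
    refine h1.trans ?_
    have h2 := mul_le_mul_of_nonneg_left hsc hφ.le
    rw [← mul_assoc, mul_one_div_cancel hφ.ne', one_mul] at h2
    linarith
  have hsmall0 : 0 ≤ ∑ χ ∈ (univ : Finset (DirichletCharacter ℂ q)).filter
        (fun χ => ¬ χ.conductor ∣ m ∧ χ.conductor ≤ R), ‖CS N (uu N) χ‖ ^ 2 := by positivity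
  set VR := ∑ χ ∈ (univ : Finset (DirichletCharacter ℂ q)).filter (fun χ => R < χ.conductor),
        ‖CS N (uu N) χ‖ ^ 2 with hVR
  have s5 : |VR - Nat.totient q * TT q l (SN N g)| ≤ 2 * t * B * Nat.totient q := by
    rw [hV] at hsplit
    rw [abs_le]
    constructor <;> linarith
  -- collect
  have hc1 : |TT q l (SN N g) - B| ≤ 123 * t * B := by
    have h1 := abs_le.1 hU
    have h2 := abs_le.1 s1
    have h3 := abs_le.1 s2
    have h4 := abs_le.1 s3'
    have h5 := abs_le.1 s4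
    rw [abs_le]
    constructor <;> linarith [h1.1, h1.2, h2.1, h2.2, h3.1, h3.2, h4.1, h4.2, h5.1, h5.2]
  have hc2 : |(1 / (Nat.totient q : ℝ)) * VR - B| ≤ 125 * t * B := by
    have h1 : (1 / (Nat.totient q : ℝ)) * VR - TT q l (SN N g) =
        (1 / (Nat.totient q : ℝ)) * (VR - Nat.totient q * TT q l (SN N g)) := by field_simp
    have h2 : |(1 / (Nat.totient q : ℝ)) * VR - TT q l (SN N g)| ≤ 2 * t * B := by
      rw [h1, abs_mul, abs_of_pos (by positivity)]
      calc (1 / (Nat.totient q : ℝ)) * |VR - Nat.totient q * TT q l (SN N g)|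
          ≤ (1 / (Nat.totient q : ℝ)) * (2 * t * B * Nat.totient q) :=
            mul_le_mul_of_nonneg_left s5 (by positivity)
        _ = _ := by field_simp
    have h3 := abs_le.1 h2
    have h4 := abs_le.1 hc1
    rw [abs_le]
    constructor <;> linarith [h3.1, h3.2, h4.1, h4.2]
  -- step 7: replace the primes by the von Mangoldt function
  set Lam : ℕ → ℂ := fun n => ((ArithmeticFunction.vonMangoldt n : ℝ) : ℂ) with hLam
  have hcard : Fintype.card (DirichletCharacter ℂ q) = Nat.totient q := by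
    rw [← Nat.card_eq_fintype_card]
    exact DirichletCharacter.card_eq_totient_of_hasEnoughRootsOfUnity ℂ q
  have s6 : |(1 / (Nat.totient q : ℝ)) * ∑ χ ∈ (univ : Finset (DirichletCharacter ℂ q)).filter
      (fun χ => R < χ.conductor), ‖CS N Lam χ‖ ^ 2 - (1 / (Nat.totient q : ℝ)) * VR| ≤ 256 * t * B := by
    have := sum_close ((univ : Finset (DirichletCharacter ℂ q)).filter (fun χ => R < χ.conductor))
      (fun χ => CS N Lam χ) (fun χ => CS N (uu N) χ) (1 / (Nat.totient q : ℝ)) t B 126 (by positivity)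
      ht ht1 hB (by norm_num) (by
        have := (abs_le.1 hc2).2
        linarith) (by
        refine le_trans ?_ hv
        set V := ∑ n ∈ Icc 1 N, (ArithmeticFunction.vonMangoldt n - uR N n) with hVd
        have hpt : ∀ χ : DirichletCharacter ℂ q, ‖CS N Lam χ - CS N (uu N) χ‖ ≤ V := by
          intro χ
          unfold CS
          rw [← sum_sub_distrib]
          refine (norm_sum_le _ _).trans ?_
          apply sum_le_sum
          intro n _
          rw [← sub_mul, norm_mul]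
          have h1 : ‖Lam n - uu N n‖ = ArithmeticFunction.vonMangoldt n - uR N n := by
            rw [hLam]
            unfold uu
            simp only
            rw [← Complex.ofReal_sub, Complex.norm_real, Real.norm_of_nonneg]
            linarith [uR_le N n]
          rw [h1]
          have h2 := χ.norm_le_one (n : ZMod q)
          have h3 := uR_le N n
          nlinarith [norm_nonneg (χ (n : ZMod q))]
        have hc : ((((univ : Finset (DirichletCharacter ℂ q)).filter (fun χ => R < χ.conductor)).card : ℕ) : ℝ) ≤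
            Nat.totient q := by
          rw [← hcard]
          exact_mod_cast card_filter_le _ _
        calc (1 / (Nat.totient q : ℝ)) * ∑ χ ∈ (univ : Finset (DirichletCharacter ℂ q)).filter
              (fun χ => R < χ.conductor), ‖CS N Lam χ - CS N (uu N) χ‖ ^ 2
            ≤ (1 / (Nat.totient q : ℝ)) * ∑ χ ∈ (univ : Finset (DirichletCharacter ℂ q)).filter
              (fun χ => R < χ.conductor), V ^ 2 := by
              apply mul_le_mul_of_nonneg_left _ (by positivity)
              apply sum_le_sum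
              intro χ _
              exact pow_le_pow_left₀ (norm_nonneg _) (hpt χ) 2
          _ = (1 / (Nat.totient q : ℝ)) * ((((univ : Finset (DirichletCharacter ℂ q)).filter
              (fun χ => R < χ.conductor)).card : ℝ) * V ^ 2) := by
              rw [sum_const, nsmul_eq_mul]
          _ ≤ (1 / (Nat.totient q : ℝ)) * (Nat.totient q * V ^ 2) := by
              apply mul_le_mul_of_nonneg_left _ (by positivity)
              exact mul_le_mul_of_nonneg_right hc (by positivity)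
          _ = _ := by field_simp)
    refine this.trans (le_of_eq ?_)
    ring
  set Z := ∑ χ ∈ (univ : Finset (DirichletCharacter ℂ q)).filter
      (fun χ => R < χ.conductor), ‖CS N Lam χ‖ ^ 2 with hZ
  have hfin : |(1 / (Nat.totient q : ℝ)) * Z - B| ≤ 381 * t * B := by
    have h3 := abs_le.1 s6
    have h4 := abs_le.1 hc2
    rw [abs_le]
    constructor <;> linarith [h3.1, h3.2, h4.1, h4.2]
  have hZe : Z - Nat.totient q * B = Nat.totient q * ((1 / (Nat.totient q : ℝ)) * Z - B) := by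
    field_simp
  have : |Z - Nat.totient q * B| ≤ 500 * t * (Nat.totient q * B) := by
    rw [hZe, abs_mul, abs_of_pos hφ]
    calc (Nat.totient q : ℝ) * |(1 / (Nat.totient q : ℝ)) * Z - B| ≤ Nat.totient q * (381 * t * B) :=
          mul_le_mul_of_nonneg_left hfin hφ.le
      _ ≤ _ := by
          have : 0 ≤ (Nat.totient q : ℝ) * (t * B) := by positivity
          nlinarith
  exact this

end Pool.Agent.W110.HV
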