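import Pool.Agent.W110.HV.Sup
import Pool.Agent.W110.HV.EBound

/-!
Choice of the parameters.
-/

open Finset

namespace Pool.Agent.W110.HV

open Pool.Agent.Helper112

/-- the major arc parameter -/
noncomputable def PP (η : ℝ) (N : ℕ) : ℕ := ⌊(N : ℝ) ^ η⌋₊

/-- the length of the kernel -/
noncomputable def HH (η : ℝ) (N : ℕ) : ℕ := ⌊(N : ℝ) ^ (1 - 2 * η)⌋₊

lemma floor_facts (x : ℝ) (hx : 4 ≤ x) : 2 ≤ ⌊x⌋₊ ∧ (⌊x⌋₊ : ℝ) ≤ x ∧ x / 2 ≤ (⌊x⌋₊ : ℝ) ∧ x < (⌊x⌋₊ : ℝ) + 1 := by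
  have h1 : (⌊x⌋₊ : ℝ) ≤ x := Nat.floor_le (by linarith)
  have h2 := Nat.lt_floor_add_one x
  refine ⟨?_, h1, by linarith, h2⟩
  rw [Nat.le_floor_iff (by linarith)]
  push_cast
  linarith

lemma half_log (η : ℝ) (N : ℕ) (hN : 1 ≤ N) (x : ℝ) (h4 : 4 ≤ (N : ℝ) ^ η)
    (hx : (N : ℝ) ^ η / 2 ≤ x) : η / 2 * Real.log N ≤ Real.log x := by
  have hN0 : (0 : ℝ) < N := by exact_mod_cast hN
  have h1 : Real.log ((N : ℝ) ^ η / 2) ≤ Real.log x := Real.log_le_log (by positivity) hx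
  have h2 : Real.log ((N : ℝ) ^ η / 2) = η * Real.log N - Real.log 2 := by
    rw [Real.log_div (by positivity) (by norm_num), Real.log_rpow hN0]
  have h3 : Real.log 4 ≤ η * Real.log N := by
    rw [← Real.log_rpow hN0]
    exact Real.log_le_log (by norm_num) h4
  have h4 : Real.log 4 = 2 * Real.log 2 := by
    rw [show (4 : ℝ) = 2 ^ 2 by norm_num, Real.log_pow]; push_cast; ring
  linarith

/-- facts about the parameters -/
theorem params (η : ℝ) (hη : 0 < η) (hη1 : η ≤ 1 / 20) : ∃ N0 : ℕ, ∀ N : ℕ, N0 ≤ N →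
    2 ≤ PP η N ∧ (PP η N : ℝ) ≤ (N : ℝ) ^ η ∧ η / 2 * Real.log N ≤ Real.log (PP η N) ∧
    Real.log (PP η N) ≤ η * Real.log N ∧
    1 ≤ HH η N ∧ HH η N ≤ N ∧ 2 * (PP η N : ℝ) ^ 6 ≤ (HH η N : ℝ) ^ 2 ∧
    12 * N * (PP η N : ℝ) ^ 6 / (HH η N : ℝ) ^ 2 ≤ 1 ∧
    ∃ Z : ℕ, 2 ≤ Z ∧ (PP η N * Z) ^ 2 ≤ HH η N ∧ Real.log (PP η N) / Real.log Z ≤ 8 * η := by
  obtain ⟨n1, h1⟩ := ev_const 4 η hη
  obtain ⟨n2, h2⟩ := ev_const 48 (1 / 4) (by norm_num)
  refine ⟨max (max n1 n2) 2, fun N hN => ?_⟩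
  have e1 := h1 N (le_trans (le_trans (le_max_left _ _) (le_max_left _ _)) hN)
  have e2 := h2 N (le_trans (le_trans (le_max_right _ _) (le_max_left _ _)) hN)
  have hN2 : 2 ≤ N := le_trans (le_max_right _ _) hN
  have hNr : (2 : ℝ) ≤ N := by exact_mod_cast hN2
  have hN1 : (1 : ℝ) ≤ N := by linarith
  have hN0 : (0 : ℝ) < N := by linarith
  have hL : 0 < Real.log N := Real.log_pos (by linarith)
  have hmono : ∀ a b : ℝ, a ≤ b → (N : ℝ) ^ a ≤ (N : ℝ) ^ b := fun a b h =>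
    Real.rpow_le_rpow_of_exponent_le hN1 h
  have hHx : 4 ≤ (N : ℝ) ^ (1 - 2 * η) := by
    have := hmono (1 / 4) (1 - 2 * η) (by linarith)
    linarith
  have hZx : 4 ≤ (N : ℝ) ^ (1 / 4 : ℝ) := by linarith
  obtain ⟨p1, p2, p3, _⟩ := floor_facts _ e1
  obtain ⟨q1, q2, q3, _⟩ := floor_facts _ hHx
  obtain ⟨z1, z2, z3, _⟩ := floor_facts _ hZx
  change 2 ≤ PP η N at p1
  change (PP η N : ℝ) ≤ _ at p2
  change _ ≤ (PP η N : ℝ) at p3
  change 2 ≤ HH η N at q1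
  change (HH η N : ℝ) ≤ _ at q2
  change _ ≤ (HH η N : ℝ) at q3
  set P := PP η N
  set H := HH η N
  set Z := ⌊(N : ℝ) ^ (1 / 4 : ℝ)⌋₊
  have hP0 : (0 : ℝ) < P := by exact_mod_cast (by omega : 0 < P)
  have hH0 : (0 : ℝ) < H := by exact_mod_cast (by omega : 0 < H)
  have hHN : H ≤ N := by
    have : (H : ℝ) ≤ N := q2.trans (by
      calc (N : ℝ) ^ (1 - 2 * η) ≤ (N : ℝ) ^ (1 : ℝ) := hmono _ _ (by linarith)
        _ = N := Real.rpow_one _)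
    exact_mod_cast this
  have hP6 : (P : ℝ) ^ 6 ≤ (N : ℝ) ^ (6 * η) := by
    calc (P : ℝ) ^ 6 ≤ ((N : ℝ) ^ η) ^ 6 := pow_le_pow_left₀ (by positivity) p2 6
      _ = _ := by
          rw [← Real.rpow_natCast, ← Real.rpow_mul hN0.le]
          congr 1
          push_cast
          ring
  have hH2 : (N : ℝ) ^ (2 - 4 * η) / 4 ≤ (H : ℝ) ^ 2 := by
    have : ((N : ℝ) ^ (1 - 2 * η) / 2) ^ 2 = (N : ℝ) ^ (2 - 4 * η) / 4 := by
      rw [div_pow, ← Real.rpow_natCast, ← Real.rpow_mul hN0.le]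
      norm_num
      congr 1
      ring
    rw [← this]
    exact pow_le_pow_left₀ (by positivity) q3 2
  have h12 : 12 * N * (P : ℝ) ^ 6 ≤ (H : ℝ) ^ 2 := by
    calc 12 * N * (P : ℝ) ^ 6 ≤ 12 * N * (N : ℝ) ^ (6 * η) := by gcongr
      _ = 48 * (N : ℝ) ^ (1 + 6 * η) / 4 := by
          rw [Real.rpow_add hN0, Real.rpow_one]
          ring
      _ ≤ (N : ℝ) ^ (1 / 4 : ℝ) * (N : ℝ) ^ (1 + 6 * η) / 4 := by gcongr
      _ = (N : ℝ) ^ (1 / 4 + (1 + 6 * η)) / 4 := by rw [Real.rpow_add hN0 (1 / 4) (1 + 6 * η)]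
      _ ≤ (N : ℝ) ^ (2 - 4 * η) / 4 := by
          have := hmono (1 / 4 + (1 + 6 * η)) (2 - 4 * η) (by linarith)
          linarith
      _ ≤ _ := hH2
  refine ⟨p1, p2, half_log η N (by omega) _ e1 p3, ?_, by omega, hHN, ?_, ?_, Z, z1, ?_, ?_⟩
  · rw [← Real.log_rpow hN0]
    exact Real.log_le_log hP0 p2
  · have : 2 * (P : ℝ) ^ 6 ≤ 12 * N * (P : ℝ) ^ 6 := by
      apply mul_le_mul_of_nonneg_right _ (by positivity)
      linarith
    linarith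
  · rw [div_le_one (by positivity)]
    exact h12
  · have : (((P * Z) ^ 2 : ℕ) : ℝ) ≤ (H : ℝ) := by
      push_cast
      calc ((P : ℝ) * Z) ^ 2 ≤ ((N : ℝ) ^ η * (N : ℝ) ^ (1 / 4 : ℝ)) ^ 2 := by gcongr
        _ = (N : ℝ) ^ (1 / 2 + 2 * η) := by
            rw [← Real.rpow_add hN0, ← Real.rpow_natCast, ← Real.rpow_mul hN0.le]
            congr 1
            push_cast
            ring
        _ = 2 * (N : ℝ) ^ (1 / 2 + 2 * η) / 2 := by ring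
        _ ≤ (N : ℝ) ^ (1 / 4 : ℝ) * (N : ℝ) ^ (1 / 2 + 2 * η) / 2 := by
            have : (2 : ℝ) ≤ (N : ℝ) ^ (1 / 4 : ℝ) := by linarith
            gcongr
        _ = (N : ℝ) ^ (1 / 4 + (1 / 2 + 2 * η)) / 2 := by rw [Real.rpow_add hN0 (1 / 4) (1 / 2 + 2 * η)]
        _ ≤ (N : ℝ) ^ (1 - 2 * η) / 2 := by
            have := hmono (1 / 4 + (1 / 2 + 2 * η)) (1 - 2 * η) (by linarith)
            linarith
        _ ≤ _ := q3
    exact_mod_cast this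
  · have h5 := half_log (1 / 4) N (by omega) (Z : ℝ) hZx z3
    have h6 : Real.log P ≤ η * Real.log N := by
      rw [← Real.log_rpow hN0]
      exact Real.log_le_log hP0 p2
    have hZl : 0 < Real.log Z := lt_of_lt_of_le (by positivity) h5
    rw [div_le_iff₀ hZl]
    calc Real.log P ≤ η * Real.log N := h6
      _ = 8 * η * (1 / 4 / 2 * Real.log N) := by ring
      _ ≤ _ := mul_le_mul_of_nonneg_left h5 (by positivity)

/-- the smooth major arc part has small mean square -/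
theorem E_small : ∃ C : ℝ, 0 < C ∧ ∀ η : ℝ, 0 < η → η ≤ 1 / 20 → ∃ N0 : ℕ, ∀ N : ℕ, N0 ≤ N →
    ∑ n ∈ Icc (-((HH η N : ℕ) : ℤ)) (N + (HH η N : ℕ)),
      ‖EE (PP η N) (HH η N) N (zext N (uu N)) n‖ ^ 2 ≤ C * η * ∑ n ∈ Icc 1 N, ‖uu N n‖ ^ 2 := by
  obtain ⟨C, hC, h⟩ := EE_bound
  refine ⟨8 * C, by positivity, fun η hη hη1 => ?_⟩
  obtain ⟨n1, h1⟩ := params η hη hη1
  refine ⟨n1, fun N hN => ?_⟩
  obtain ⟨a1, a2, a3, a4, a5, a6, a7, a8, Z, b1, b2, b3⟩ := h1 N hN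
  have h2 := h (PP η N) Z (HH η N) N a1 b1 b2 (zext N (uu N)) (zext_supp N (uu N)) (by
    intro n hn s hs1 hs2
    unfold zext at hn
    have hn1 : 1 ≤ n ∧ n ≤ N := by
      by_contra hc
      rw [if_neg hc] at hn
      exact hn rfl
    rw [if_pos hn1] at hn
    unfold uu uR at hn
    have hp : n.toNat.Prime ∧ N < n.toNat ^ 2 := by
      by_contra hc
      rw [if_neg hc] at hn
      simp at hn
    have hs3 : s < n.toNat := by
      by_contra hc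
      push Not at hc
      have h5 : n.toNat ^ 2 ≤ s ^ 2 := Nat.pow_le_pow_left hc 2
      have h6 : s ^ 2 ≤ (PP η N * Z) ^ 2 := Nat.pow_le_pow_left hs2 2
      omega
    have hc : Nat.Coprime n.toNat s := by
      rw [Nat.Prime.coprime_iff_not_dvd hp.1]
      intro hd
      have := Nat.le_of_dvd (by omega) hd
      omega
    have := Nat.isCoprime_iff_coprime.2 hc
    rwa [Int.toNat_of_nonneg (by omega)] at this) a7
  rw [norm_zext] at h2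
  refine h2.trans ?_
  apply mul_le_mul_of_nonneg_right _ (by positivity)
  calc C * (Real.log (PP η N) / Real.log Z) ≤ C * (8 * η) := mul_le_mul_of_nonneg_left b3 hC.le
    _ = _ := by ring

/-- the function with the smooth major arc part removed -/
noncomputable def ff (η : ℝ) (N : ℕ) (n : ℤ) : ℂ :=
  zext N (uu N) n - EE (PP η N) (HH η N) N (zext N (uu N)) n

lemma ES_ff (η : ℝ) (N : ℕ) (α : ℝ) : ES (-((HH η N : ℕ) : ℤ)) (N + (HH η N : ℕ)) (ff η N) α =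
    SN N (uu N) α * ((1 - Kh (PP η N) (HH η N) α : ℝ) : ℂ) := by
  have h1 := ES_EE (PP η N) (HH η N) N (zext N (uu N)) (zext_supp N (uu N)) α
  have h2 := ES_zext (HH η N) N (uu N) α
  have h3 : ES (-((HH η N : ℕ) : ℤ)) (N + (HH η N : ℕ)) (ff η N) α =
      ES (-((HH η N : ℕ) : ℤ)) (N + (HH η N : ℕ)) (zext N (uu N)) α -
      ES (-((HH η N : ℕ) : ℤ)) (N + (HH η N : ℕ)) (EE (PP η N) (HH η N) N (zext N (uu N))) α := by
    unfold ES ff
    rw [← sum_sub_distrib]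
    refine sum_congr rfl fun n _ => ?_
    ring
  rw [h3, h1, h2]
  push_cast
  ring

theorem ff_sup (η : ℝ) (hη : 0 < η) (hη1 : η ≤ 1 / 20) : ∃ N0 : ℕ, ∀ N : ℕ, N0 ≤ N → ∀ α : ℝ,
    ‖ES (-((HH η N : ℕ) : ℤ)) (N + (HH η N : ℕ)) (ff η N) α‖ ≤ (N : ℝ) ^ (1 - 2 / 5 * η) := by
  obtain ⟨N0, h⟩ := sup_bound η hη hη1
  refine ⟨N0, fun N hN α => ?_⟩
  rw [ES_ff, norm_mul, Complex.norm_real, Real.norm_eq_abs]
  exact h N hN α

/-- the low frequencies of `f` -/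
theorem ff_low (η : ℝ) (hη : 0 < η) (hη1 : η ≤ 1 / 20) : ∃ N0 : ℕ, ∀ N : ℕ, N0 ≤ N → ∀ m : ℕ,
    0 < m → m ≤ PP η N → ∀ c ∈ range m,
    ‖ES (-((HH η N : ℕ) : ℤ)) (N + (HH η N : ℕ)) (ff η N) ((c : ℝ) / m)‖ ≤ 1 := by
  obtain ⟨n1, h1⟩ := params η hη hη1
  refine ⟨n1, fun N hN m hm0 hm c hc => ?_⟩
  obtain ⟨a1, a2, a3, a4, a5, a6, a7, a8, Z, b1, b2, b3⟩ := h1 N hN
  rw [mem_range] at hc
  rw [ES_ff, norm_mul, Complex.norm_real, Real.norm_eq_abs]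
  have hKle := Kh_le (PP η N) (HH η N) (by omega) a5 ((c : ℝ) / m)
  have hg : 0 < Nat.gcd c m := Nat.gcd_pos_of_pos_right _ hm0
  set r : Σ _ : ℕ, ℕ := ⟨m / Nat.gcd c m, c / Nat.gcd c m⟩ with hr
  have hrm : r ∈ Fr (PP η N) := by
    unfold Fr
    rw [mem_sigma, mem_Icc, mem_filter, mem_range]
    refine ⟨⟨Nat.div_pos (Nat.gcd_le_right _ hm0) hg, (Nat.div_le_self _ _).trans hm⟩, ?_,
      Nat.coprime_div_gcd_div_gcd hg⟩
    exact Nat.div_lt_div_of_lt_of_dvd (Nat.gcd_dvd_right c m) hc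
  have hxi : xi r = (c : ℝ) / m := by
    unfold xi
    rw [hr]
    simp only
    rw [Nat.cast_div (Nat.gcd_dvd_left c m) (by positivity),
      Nat.cast_div (Nat.gcd_dvd_right c m) (by positivity)]
    have hgr : ((Nat.gcd c m : ℕ) : ℝ) ≠ 0 := by positivity
    rw [div_div_div_cancel_right₀ hgr]
  have hge := Kh_ge (PP η N) (HH η N) a5 ((c : ℝ) / m) r hrm
  have hd0 : dst ((c : ℝ) / m - xi r) = 0 := by
    rw [hxi, sub_self]
    unfold dst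
    simp
  rw [hd0, mul_zero, mul_zero, sub_zero] at hge
  have habs : |1 - Kh (PP η N) (HH η N) ((c : ℝ) / m)| ≤ 2 * (PP η N : ℝ) ^ 6 / (HH η N : ℝ) ^ 2 := by
    rw [abs_le]
    constructor
    · linarith
    · have : 0 ≤ 2 * (PP η N : ℝ) ^ 6 / (HH η N : ℝ) ^ 2 := by positivity
      linarith
  calc ‖SN N (uu N) ((c : ℝ) / m)‖ * |1 - Kh (PP η N) (HH η N) ((c : ℝ) / m)|
      ≤ (6 * N) * (2 * (PP η N : ℝ) ^ 6 / (HH η N : ℝ) ^ 2) :=
        mul_le_mul (SN_le N _) habs (abs_nonneg _) (by positivity)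
    _ = 12 * N * (PP η N : ℝ) ^ 6 / (HH η N : ℝ) ^ 2 := by ring
    _ ≤ 1 := a8

lemma markov (S : Finset ℕ) (F : ℕ → ℝ) (hF : ∀ q ∈ S, 0 ≤ F q) (l s k : ℝ) (hs : ∑ q ∈ S, F q ≤ s)
    (hl : 0 < l) (hk : s ≤ k * l) : (((S.filter (fun q => l < F q)).card : ℕ) : ℝ) ≤ k := by
  have h1 : (((S.filter (fun q => l < F q)).card : ℕ) : ℝ) * l ≤ k * l := by
    calc (((S.filter (fun q => l < F q)).card : ℕ) : ℝ) * l = ∑ q ∈ S.filter (fun q => l < F q), l := by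
          rw [sum_const, nsmul_eq_mul]
      _ ≤ ∑ q ∈ S.filter (fun q => l < F q), F q := by
          apply sum_le_sum
          intro q hq
          rw [mem_filter] at hq
          exact hq.2.le
      _ ≤ ∑ q ∈ S, F q := sum_le_sum_of_subset_of_nonneg (filter_subset _ _) fun q hq _ => hF q hq
      _ ≤ _ := hs.trans hk
  exact le_of_mul_le_mul_right h1 hl

/-- divisor bound in the range needed -/
theorem div_N (δ : ℝ) (hδ : 0 < δ) : ∃ N0 : ℕ, ∀ N : ℕ, N0 ≤ N → ∀ n : ℕ, 1 ≤ n → n ≤ 3 * N →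
    (n.divisors.card : ℝ) ≤ (N : ℝ) ^ δ := by
  obtain ⟨C, hC, h⟩ := divisor_bound (δ / 2) (by positivity)
  obtain ⟨n1, h1⟩ := ev_const (C * (3 : ℝ) ^ (δ / 2)) (δ / 2) (by positivity)
  refine ⟨max n1 1, fun N hN n hn hnN => ?_⟩
  have hN1 : 1 ≤ N := le_trans (le_max_right _ _) hN
  have hN0 : (0 : ℝ) < N := by exact_mod_cast hN1
  have e1 := h1 N (le_trans (le_max_left _ _) hN)
  calc (n.divisors.card : ℝ) ≤ C * (n : ℝ) ^ (δ / 2) := h n hn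
    _ ≤ C * (3 * (N : ℝ)) ^ (δ / 2) := by
        apply mul_le_mul_of_nonneg_left _ hC.le
        apply Real.rpow_le_rpow (by positivity) _ (by positivity)
        exact_mod_cast hnN
    _ = C * (3 : ℝ) ^ (δ / 2) * (N : ℝ) ^ (δ / 2) := by
        rw [Real.mul_rpow (by norm_num) hN0.le]
        ring
    _ ≤ (N : ℝ) ^ (δ / 2) * (N : ℝ) ^ (δ / 2) := mul_le_mul_of_nonneg_right e1 (by positivity)
    _ = _ := by
        rw [← Real.rpow_add hN0]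
        congr 1
        ring

end Pool.Agent.W110.HV
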