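import Pool.Agent.W110.HV.Core
import Pool.Agent.W110.HV.Prep

/-!
The mean square of the sums `∑ Λ(n) χ(n)` over the characters of large conductor, for almost all
moduli.
-/

open Finset

namespace Pool.Agent.W110.HV

open Pool.Agent.Helper112

lemma ev_log (C : ℝ) : ∃ n1 : ℕ, ∀ N : ℕ, n1 ≤ N → C ≤ Real.log N := by
  have := Real.tendsto_log_atTop.comp tendsto_natCast_atTop_atTop
  have h3 := this.eventually (Filter.eventually_ge_atTop C)
  obtain ⟨n1, hn1⟩ := Filter.eventually_atTop.1 h3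
  exact ⟨n1, hn1⟩

open Classical in
theorem main (ε η : ℝ) (hε : 0 < ε) (hη : 0 < η) :
    ∃ δ : ℝ, 0 < δ ∧ ∃ N0 : ℕ, ∀ N : ℕ, N0 ≤ N → ∀ K : ℕ, (N : ℝ) ^ (1 - δ) ≤ K → K ≤ N →
    ∀ R : ℕ, (N : ℝ) ^ η ≤ R → (R : ℝ) ≤ (N : ℝ) ^ (1 - η) →
    ((((Ioc K (2 * K)).filter (fun q => ε * (Nat.totient q * (N * Real.log N)) <
      |∑ χ ∈ (univ : Finset (DirichletCharacter ℂ q)).filter (fun χ => R < χ.conductor),
        ‖∑ n ∈ Icc 1 N, ((ArithmeticFunction.vonMangoldt n : ℝ) : ℂ) * χ (n : ZMod q)‖ ^ 2 -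
          Nat.totient q * (N * Real.log N)|)).card : ℕ) : ℝ) ≤ ε * K := by
  wlog hε1 : ε ≤ 1 generalizing ε with hw
  · push Not at hε1
    obtain ⟨δ, hδ, N0, h⟩ := hw 1 one_pos le_rfl
    refine ⟨δ, hδ, N0, fun N hN K hK hKN R hR1 hR2 => ?_⟩
    have h2 := h N hN K hK hKN R hR1 hR2
    have hK0 : (0 : ℝ) ≤ K := by positivity
    refine le_trans ?_ (h2.trans (by nlinarith))
    have : ∀ A B : Finset ℕ, A ⊆ B → (A.card : ℝ) ≤ B.card := fun A B h => by
      exact_mod_cast card_le_card h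
    apply this
    intro q hq
    rw [mem_filter] at hq ⊢
    refine ⟨hq.1, lt_of_le_of_lt ?_ hq.2⟩
    have := Real.log_natCast_nonneg N
    exact mul_le_mul_of_nonneg_right hε1.le (by positivity)
  obtain ⟨C2, hC2, hE0⟩ := E_small
  obtain ⟨C1, hC1, hsm⟩ := sm_count
  obtain ⟨Cv, hCv, hvd⟩ := vdiff
  set t : ℝ := ε / 500 with ht
  have ht0 : 0 < t := by positivity
  have ht1 : t ≤ 1 := by rw [ht]; linarith
  set η1 : ℝ := min (min η (1 / 20)) (ε * t ^ 2 / (576 * C2)) with hη1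
  have hη10 : 0 < η1 := by
    rw [hη1]
    apply lt_min (lt_min hη (by norm_num)) (by positivity)
  have hη1η : η1 ≤ η := (min_le_left _ _).trans (min_le_left _ _)
  have hη120 : η1 ≤ 1 / 20 := (min_le_left _ _).trans (min_le_right _ _)
  have hη1C : η1 ≤ ε * t ^ 2 / (576 * C2) := min_le_right _ _
  set η2 : ℝ := min η1 (ε * η1 / (8 * C1)) with hη2
  have hη20 : 0 < η2 := by
    rw [hη2]
    apply lt_min hη10 (by positivity)
  have hη21 : η2 ≤ η1 := min_le_left _ _
  have hη2C : η2 ≤ ε * η1 / (8 * C1) := min_le_right _ _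
  set δ : ℝ := η2 / 8 with hδ
  have hδ0 : 0 < δ := by positivity
  have h8δ : η2 = 8 * δ := by rw [hδ]; ring
  obtain ⟨m1, h1⟩ := params η1 hη10 hη120
  obtain ⟨m2, h2⟩ := hE0 η1 hη10 hη120
  obtain ⟨m3, h3⟩ := ff_sup η1 hη10 hη120
  obtain ⟨m4, h4⟩ := ff_low η1 hη10 hη120
  obtain ⟨m5, h5⟩ := div_N δ hδ0
  obtain ⟨m6, h6⟩ := norm_asymp t ht0
  obtain ⟨m7, h7⟩ := ev_const 4 η2 hη20
  obtain ⟨m8, h8⟩ := ev_const (max (max (24 / t) (784 / (ε * t))) (max (240 / (ε * t ^ 2)) 4)) (3 * δ) (by positivity)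
  obtain ⟨m9, h9⟩ := ev_log (max (Cv ^ 2 / t ^ 2) (max (1 / t) 1))
  obtain ⟨m10, h10⟩ := ev_pow (1 / t ^ 2) 1 (1 / 2) (by norm_num)
  refine ⟨δ, hδ0, max (max (max (max m1 m2) (max m3 m4)) (max (max m5 m6) (max m7 m8))) (max (max m9 m10) 2),
    fun N hN K hK hKN R hR1 hR2 => ?_⟩
  simp only [max_le_iff] at hN
  obtain ⟨⟨⟨⟨g1, g2⟩, g3, g4⟩, ⟨g5, g6⟩, g7, g8⟩, ⟨g9, g10⟩, g11⟩ := hN
  have hNr : (2 : ℝ) ≤ N := by exact_mod_cast g11
  have hN1 : (1 : ℝ) ≤ N := by linarith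
  have hN0 : (0 : ℝ) < N := by linarith
  obtain ⟨a1, a2, a3, a4, a5, a6, -, -, -⟩ := h1 N g1
  have e2 := h2 N g2
  have e3 := h3 N g3
  have e4 := h4 N g4
  have e5 := h5 N g5
  have e6 := h6 N g6
  have e7 := h7 N g7
  have e8 := h8 N g8
  have e9 := h9 N g9
  have e10 := h10 N g10
  clear h1 h2 h3 h4 h5 h6 h7 h8 h9 h10 hE0
  simp only [max_le_iff] at e8 e9
  obtain ⟨⟨c1, c2⟩, c3, c4⟩ := e8
  obtain ⟨l1, l2, l3⟩ := e9
  obtain ⟨y1, y2, y3, y4⟩ := floor_facts _ e7
  change 2 ≤ PP η2 N at y1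
  change (PP η2 N : ℝ) ≤ _ at y2
  change _ ≤ (PP η2 N : ℝ) at y3
  change _ < (PP η2 N : ℝ) + 1 at y4
  set L : ℝ := Real.log N with hL
  set P : ℕ := PP η1 N with hP
  set H : ℕ := HH η1 N with hH
  set y : ℕ := PP η2 N with hy
  set B : ℝ := N * L with hB
  have hL0 : 0 < L := by linarith
  have hBN : (N : ℝ) ≤ B := by rw [hB]; nlinarith
  have hB0 : 0 < B := by linarith
  have hmono : ∀ a b : ℝ, a ≤ b → (N : ℝ) ^ a ≤ (N : ℝ) ^ b := fun a b h =>
    Real.rpow_le_rpow_of_exponent_le hN1 h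
  have hadd : ∀ a b : ℝ, (N : ℝ) ^ a * (N : ℝ) ^ b = (N : ℝ) ^ (a + b) := fun a b =>
    (Real.rpow_add hN0 a b).symm
  have hNone : (N : ℝ) ^ (1 : ℝ) = N := Real.rpow_one _
  set D : ℝ := (N : ℝ) ^ δ with hD
  have hD0 : 0 < D := by positivity
  have hK0 : (0 : ℝ) < K := lt_of_lt_of_le (by positivity) hK
  have hKn : 1 ≤ K := by exact_mod_cast hK0
  have hHr : (H : ℝ) ≤ N := by exact_mod_cast a6
  set U : ℝ := ∑ n ∈ Icc 1 N, ‖uu N n‖ ^ 2 with hU
  have hU0 : 0 ≤ U := by positivity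
  have hU2 : U ≤ 2 * B := by
    have := (abs_le.1 e6).2
    nlinarith
  -- `E`
  set E : ℤ → ℂ := EE P H N (zext N (uu N)) with hE
  have hEn : ∑ n ∈ Icc (-(H : ℤ)) (N + H), ‖E n‖ ^ 2 ≤ 2 * C2 * η1 * B := by
    refine e2.trans ?_
    have := mul_le_mul_of_nonneg_left hU2 (show 0 ≤ C2 * η1 by positivity)
    linarith
  have hC2η : 576 * C2 * η1 ≤ ε * t ^ 2 := by
    rw [le_div_iff₀ (by positivity)] at hη1C
    linarith
  have hEt : ∑ n ∈ Icc (-(H : ℤ)) (N + H), ‖E n‖ ^ 2 ≤ t ^ 2 * B := by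
    refine hEn.trans (mul_le_mul_of_nonneg_right ?_ hB0.le)
    have : ε * t ^ 2 ≤ 1 * t ^ 2 := mul_le_mul_of_nonneg_right hε1 (by positivity)
    nlinarith
  -- the exceptional sets
  set S := Ioc K (2 * K) with hS
  have hq : ∀ q ∈ S, 1 ≤ q ∧ q ≤ 3 * N ∧ (K : ℝ) ≤ q := by
    intro q hq
    rw [hS, mem_Ioc] at hq
    refine ⟨by omega, by omega, by exact_mod_cast hq.1.le⟩
  have hDq : ∀ q ∈ S, (q.divisors.card : ℝ) ≤ D := fun q hqS => e5 q (hq q hqS).1 (hq q hqS).2.1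
  -- (B1)
  set F1 : ℕ → Prop := fun q => P < sm y q with hF1
  have hB1 : (((S.filter F1).card : ℕ) : ℝ) ≤ ε / 4 * K := by
    have h1 := hsm K y P y1 a1
    have hlogP : 0 < Real.log P := lt_of_lt_of_le (by positivity) a3
    have hlogy : Real.log y ≤ η2 * L := by
      rw [hL, ← Real.log_rpow hN0]
      apply Real.log_le_log _ y2
      exact_mod_cast (by omega : 0 < y)
    have h2 : C1 * Real.log y * K ≤ (ε / 4 * K) * Real.log P := by
      calc C1 * Real.log y * K ≤ C1 * (η2 * L) * K := by gcongr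
        _ ≤ C1 * ((ε * η1 / (8 * C1)) * L) * K := by gcongr
        _ = (ε / 4 * K) * (η1 / 2 * L) := by
            field_simp
            ring
        _ ≤ _ := mul_le_mul_of_nonneg_left a3 (by positivity)
    exact le_of_mul_le_mul_right (h1.trans h2) hlogP
  -- (B2)
  set OF : ℕ → ℝ := fun q => ‖off q (-(H : ℤ)) (N + H) (ff η1 N) (ff η1 N)‖ ^ 2 with hOF
  have hfn : ∑ n ∈ Icc (-(H : ℤ)) (N + H), ‖ff η1 N n‖ ^ 2 ≤ 10 * B := by
    have hnu : ∑ n ∈ Icc (-(H : ℤ)) (N + H), ‖zext N (uu N) n‖ ^ 2 = U := by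
      rw [hU, ← norm_zext]
      symm
      apply sum_subset
      · intro n hn
        rw [mem_Icc] at hn ⊢
        omega
      · intro n _ hn
        rw [mem_Icc] at hn
        rw [zext_supp N (uu N) n (by omega)]
        simp
    have := sum_close (Icc (-(H : ℤ)) (N + H)) (ff η1 N) (zext N (uu N)) 1 t B 2 (by norm_num) ht0 ht1
      hB0.le (by norm_num) (by rw [one_mul, hnu]; exact hU2) (by
        rw [one_mul]
        refine le_trans (le_of_eq ?_) hEt
        refine sum_congr rfl fun n _ => ?_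
        unfold ff
        rw [sub_sub_cancel_left, norm_neg])
    rw [one_mul, one_mul, hnu] at this
    have h1 := (abs_le.1 this).2
    nlinarith
  have hB2 : (((S.filter (fun q => (t * B) ^ 2 < OF q)).card : ℕ) : ℝ) ≤ ε / 4 * K := by
    have hoa := off_avg (-(H : ℤ)) (N + H) (by omega) K hKn (ff η1 N) (ff η1 N)
      ((N : ℝ) ^ (1 - 2 / 5 * η1)) D e3 hD0.le (by
        intro h hh0 hh
        apply e5
        · exact Int.natAbs_pos.2 hh0
        · have : (h.natAbs : ℤ) ≤ 3 * N := by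
            rw [Int.natCast_natAbs]
            omega
          exact_mod_cast this)
    apply markov S OF (fun q _ => by positivity) ((t * B) ^ 2) _ _ hoa (by positivity)
    push_cast
    have hz : ((N : ℝ) ^ (1 - 2 / 5 * η1)) ^ 2 = (N : ℝ) ^ (2 - 4 / 5 * η1) := by
      rw [← Real.rpow_natCast, ← Real.rpow_mul hN0.le]
      congr 1
      push_cast
      ring
    have hKK : (N : ℝ) ^ (2 - 2 * δ) ≤ (K : ℝ) ^ 2 := by
      calc (N : ℝ) ^ (2 - 2 * δ) = ((N : ℝ) ^ (1 - δ)) ^ 2 := by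
            rw [← Real.rpow_natCast, ← Real.rpow_mul hN0.le]
            congr 1
            push_cast
            ring
        _ ≤ _ := pow_le_pow_left₀ (by positivity) hK 2
    have hkey : 60 * N * D * (N : ℝ) ^ (2 - 4 / 5 * η1) ≤ (ε / 4 * K) * K * (t ^ 2 * B) := by
      have h1 : 60 * N * D * (N : ℝ) ^ (2 - 4 / 5 * η1) ≤ 60 * (N : ℝ) ^ (3 - 5 * δ) := by
        have : 60 * N * D * (N : ℝ) ^ (2 - 4 / 5 * η1) = 60 * ((N : ℝ) ^ (1 : ℝ) * (N : ℝ) ^ δ * (N : ℝ) ^ (2 - 4 / 5 * η1)) := by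
          rw [hNone, hD]
          ring
        rw [this, hadd, hadd]
        apply mul_le_mul_of_nonneg_left _ (by norm_num)
        apply hmono
        linarith
      have h2 : 60 ≤ ε / 4 * t ^ 2 * (N : ℝ) ^ (3 * δ) := by
        have h3 : 240 ≤ (N : ℝ) ^ (3 * δ) * (ε * t ^ 2) := by
          rwa [div_le_iff₀ (by positivity)] at c3
        linarith
      calc 60 * N * D * (N : ℝ) ^ (2 - 4 / 5 * η1) ≤ 60 * (N : ℝ) ^ (3 - 5 * δ) := h1
        _ ≤ (ε / 4 * t ^ 2 * (N : ℝ) ^ (3 * δ)) * (N : ℝ) ^ (3 - 5 * δ) :=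
            mul_le_mul_of_nonneg_right h2 (by positivity)
        _ = ε / 4 * t ^ 2 * ((N : ℝ) ^ (2 - 2 * δ) * (N : ℝ) ^ (1 : ℝ)) := by
            rw [mul_assoc, hadd, hadd]
            congr 2
            ring
        _ ≤ ε / 4 * t ^ 2 * ((K : ℝ) ^ 2 * B) := by
            apply mul_le_mul_of_nonneg_left _ (by positivity)
            rw [hNone]
            exact mul_le_mul hKK hBN hN0.le (by positivity)
        _ = _ := by ring
    calc 2 * ((N : ℝ) + H - -H) / K * D * ((N : ℝ) ^ (1 - 2 / 5 * η1)) ^ 2 *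
          ∑ n ∈ Icc (-(H : ℤ)) (N + H), ‖ff η1 N n‖ ^ 2
        ≤ 2 * (3 * N) / K * D * ((N : ℝ) ^ (1 - 2 / 5 * η1)) ^ 2 * (10 * B) := by
          have h1 : (N : ℝ) + H - -H ≤ 3 * N := by linarith
          gcongr
      _ = (60 * N * D * (N : ℝ) ^ (2 - 4 / 5 * η1)) * (B / K) := by
          rw [hz]
          field_simp
          ring
      _ ≤ ((ε / 4 * K) * K * (t ^ 2 * B)) * (B / K) := mul_le_mul_of_nonneg_right hkey (by positivity)
      _ = _ := by
          field_simp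
  -- (B3)
  set TE : ℕ → ℝ := fun q => (1 / (q : ℝ)) * ∑ b ∈ (range q).filter (fun b => y < q / Nat.gcd b q),
      ‖ES (-(H : ℤ)) (N + H) E ((b : ℝ) / q)‖ ^ 2 with hTE
  have hy8 : (N : ℝ) / (y + 1) ≤ (N : ℝ) ^ (1 - 8 * δ) := by
    rw [div_le_iff₀ (by positivity)]
    calc (N : ℝ) = (N : ℝ) ^ (1 - 8 * δ) * (N : ℝ) ^ η2 := by
          rw [hadd, h8δ]
          norm_num
      _ ≤ _ := mul_le_mul_of_nonneg_left y4.le (by positivity)
  have hB3 : (((S.filter (fun q => t ^ 2 * B < TE q)).card : ℕ) : ℝ) ≤ ε / 4 * K := by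
    have hav := avg_fracs (N + 2 * H + 1) (fun n => E ((n : ℤ) - H - 1)) K y hKn
    rw [norm_shift H N E] at hav
    have hTEs : ∑ q ∈ S, TE q ≤ 24 * (((N + 2 * H + 1 : ℕ) : ℝ) / (y + 1) + 2 * K) *
        ∑ n ∈ Icc (-(H : ℤ)) (N + H), ‖E n‖ ^ 2 := by
      refine le_trans (le_of_eq ?_) hav
      refine sum_congr rfl fun q _ => ?_
      rw [hTE]
      simp only
      congr 1
      refine sum_congr rfl fun b _ => ?_
      rw [ES_shift H N E]
    apply markov S TE (fun q _ => by rw [hTE]; positivity) (t ^ 2 * B) _ _ hTEs (by positivity)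
    have h1 : ((N + 2 * H + 1 : ℕ) : ℝ) / (y + 1) ≤ K := by
      have h2 : ((N + 2 * H + 1 : ℕ) : ℝ) ≤ 4 * N := by
        push_cast
        linarith
      calc ((N + 2 * H + 1 : ℕ) : ℝ) / (y + 1) ≤ 4 * N / (y + 1) := by gcongr
        _ = 4 * (N / (y + 1)) := by ring
        _ ≤ (N : ℝ) ^ (3 * δ) * (N : ℝ) ^ (1 - 8 * δ) := mul_le_mul c4 hy8 (by positivity) (by positivity)
        _ = (N : ℝ) ^ (1 - 5 * δ) := by
            rw [hadd]
            congr 1
            ring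
        _ ≤ (N : ℝ) ^ (1 - δ) := hmono _ _ (by linarith)
        _ ≤ K := hK
    calc 24 * (((N + 2 * H + 1 : ℕ) : ℝ) / (y + 1) + 2 * K) * ∑ n ∈ Icc (-(H : ℤ)) (N + H), ‖E n‖ ^ 2
        ≤ 24 * (K + 2 * K) * (2 * C2 * η1 * B) := by gcongr
      _ = (576 * C2 * η1) * (K * B / 4) := by ring
      _ ≤ (ε * t ^ 2) * (K * B / 4) := mul_le_mul_of_nonneg_right hC2η (by positivity)
      _ = _ := by ring
  -- (B4)
  have hR8 : (R : ℝ) ≤ (N : ℝ) ^ (1 - 8 * δ) := hR2.trans (hmono _ _ (by linarith))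
  set SC : ℕ → ℝ := fun q => (1 / (Nat.totient q : ℝ)) *
    ∑ χ ∈ (univ : Finset (DirichletCharacter ℂ q)).filter
        (fun χ => y < χ.conductor ∧ χ.conductor ≤ R), ‖CS N (uu N) χ‖ ^ 2 with hSC
  have hB4 : (((S.filter (fun q => t * B < SC q)).card : ℕ) : ℝ) ≤ ε / 4 * K := by
    have hsc := small_cond N (uu N) K y R (D * L) D hKn hD0.le hDq (by
      intro q hqS
      refine (uu_not_coprime q N (hq q hqS).1 (by omega)).trans ?_
      exact mul_le_mul_of_nonneg_right (hDq q hqS) hL0.le)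
    apply markov S SC (fun q _ => by rw [hSC]; positivity) (t * B) _ _ hsc (by positivity)
    have hLL : L ^ 2 ≤ B := by
      have : L ≤ N := by
        have := Real.log_le_sub_one_of_pos hN0
        linarith
      rw [hB, pow_two]
      exact mul_le_mul_of_nonneg_right this hL0.le
    have h196 : 196 ≤ ε / 4 * t * (N : ℝ) ^ (3 * δ) := by
      have h3 : 784 ≤ (N : ℝ) ^ (3 * δ) * (ε * t) := by
        rwa [div_le_iff₀ (by positivity)] at c2
      linarith
    calc D * (48 * (N / (y + 1) + R) * U + 4 * (D * L) ^ 2 * R)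
        ≤ D * (48 * ((N : ℝ) ^ (1 - 8 * δ) + (N : ℝ) ^ (1 - 8 * δ)) * (2 * B) +
            4 * (D ^ 2 * B) * (N : ℝ) ^ (1 - 8 * δ)) := by
          have h1 : (D * L) ^ 2 ≤ D ^ 2 * B := by
            rw [mul_pow]
            exact mul_le_mul_of_nonneg_left hLL (by positivity)
          gcongr
      _ = 192 * ((N : ℝ) ^ δ * (N : ℝ) ^ (1 - 8 * δ)) * B +
            4 * ((N : ℝ) ^ δ * (N : ℝ) ^ δ * (N : ℝ) ^ δ * (N : ℝ) ^ (1 - 8 * δ)) * B := by
          rw [hD]
          ring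
      _ = 192 * (N : ℝ) ^ (1 - 7 * δ) * B + 4 * (N : ℝ) ^ (1 - 5 * δ) * B := by
          rw [hadd, hadd, hadd, hadd]
          congr 4
          · ring
          · ring
      _ ≤ 192 * (N : ℝ) ^ (1 - 4 * δ) * B + 4 * (N : ℝ) ^ (1 - 4 * δ) * B := by
          have h1 := hmono (1 - 7 * δ) (1 - 4 * δ) (by linarith)
          have h2 := hmono (1 - 5 * δ) (1 - 4 * δ) (by linarith)
          gcongr
      _ = 196 * ((N : ℝ) ^ (1 - 4 * δ) * B) := by ring
      _ ≤ (ε / 4 * t * (N : ℝ) ^ (3 * δ)) * ((N : ℝ) ^ (1 - 4 * δ) * B) :=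
          mul_le_mul_of_nonneg_right h196 (by positivity)
      _ = ε / 4 * t * ((N : ℝ) ^ (3 * δ) * (N : ℝ) ^ (1 - 4 * δ)) * B := by ring
      _ = ε / 4 * t * (N : ℝ) ^ (1 - δ) * B := by
          rw [hadd]
          congr 3
          ring
      _ ≤ ε / 4 * t * K * B := by gcongr
      _ = _ := by ring
  -- conclusion
  have hsub : (S.filter (fun q => ε * (Nat.totient q * (N * Real.log N)) <
      |∑ χ ∈ (univ : Finset (DirichletCharacter ℂ q)).filter (fun χ => R < χ.conductor),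
        ‖∑ n ∈ Icc 1 N, ((ArithmeticFunction.vonMangoldt n : ℝ) : ℂ) * χ (n : ZMod q)‖ ^ 2 -
          Nat.totient q * (N * Real.log N)|)) ⊆
      ((S.filter F1) ∪ (S.filter (fun q => (t * B) ^ 2 < OF q))) ∪
      ((S.filter (fun q => t ^ 2 * B < TE q)) ∪ (S.filter (fun q => t * B < SC q))) := by
    intro q hqm
    rw [mem_filter] at hqm
    obtain ⟨hqS, hqb⟩ := hqm
    by_contra hcon
    rw [mem_union, mem_union, mem_union, mem_filter, mem_filter, mem_filter, mem_filter] at hcon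
    push Not at hcon
    obtain ⟨⟨k1, k2⟩, k3, k4⟩ := hcon
    have k1 : sm y q ≤ P := by
      have := k1 hqS
      rw [hF1] at this
      simpa using this
    have k2 := k2 hqS
    have k3 := k3 hqS
    have k4 := k4 hqS
    have hq1 := (hq q hqS).1
    have hqK := (hq q hqS).2.2
    have hqr : (0 : ℝ) < q := by linarith
    have hφ : (0 : ℝ) < Nat.totient q := by exact_mod_cast Nat.totient_pos.2 hq1
    have hφK : (K : ℝ) ≤ D * Nat.totient q := hqK.trans (totient_ge q hq1 D (hDq q hqS))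
    have hmq : sm y q ≤ q := Nat.le_of_dvd hq1 (sm_dvd y q (by omega))
    have hmqr : (sm y q : ℝ) ≤ q := by exact_mod_cast hmq
    have hmP : (sm y q : ℝ) ≤ P := by exact_mod_cast k1
    have hPR : P ≤ R := by
      have : (P : ℝ) ≤ R := a2.trans ((hmono _ _ hη1η).trans hR1)
      exact_mod_cast this
    have htB1 : 1 ≤ t * B := by
      have : 1 ≤ t * L := by
        rw [div_le_iff₀ ht0] at l2
        linarith
      have h2 : t * L ≤ t * B := by
        apply mul_le_mul_of_nonneg_left _ ht0.le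
        rw [hB]
        nlinarith
      linarith
    have hcore := core N P H y R q B t D ht0 ht1 hB0.le hq1 (by omega) (hDq q hqS) e6 hEt
      (by
        have : ‖off q (-(H : ℤ)) (N + H) (ff η1 N) (ff η1 N)‖ ≤ t * B := by
          have h1 : ‖off q (-(H : ℤ)) (N + H) (ff η1 N) (ff η1 N)‖ ^ 2 ≤ (t * B) ^ 2 := k2
          exact le_of_sq_le_sq h1 (by positivity)
        exact this)
      (by
        have h1 : ∀ c ∈ range (sm y q), ‖ES (-(H : ℤ)) (N + H) (ff η1 N) ((c : ℝ) / (sm y q : ℕ))‖ ^ 2 ≤ 1 := by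
          intro c hc
          have := e4 (sm y q) (sm_pos y q) k1 c hc
          have h2 := norm_nonneg (ES (-(H : ℤ)) (N + H) (ff η1 N) ((c : ℝ) / (sm y q : ℕ)))
          exact pow_le_one₀ h2 this
        have h2 : (1 / (q : ℝ)) * ∑ c ∈ range (sm y q), ‖ES (-(H : ℤ)) (N + H) (ff η1 N) ((c : ℝ) / (sm y q : ℕ))‖ ^ 2 ≤
            t * B := by
          calc (1 / (q : ℝ)) * ∑ c ∈ range (sm y q), ‖ES (-(H : ℤ)) (N + H) (ff η1 N) ((c : ℝ) / (sm y q : ℕ))‖ ^ 2
              ≤ (1 / (q : ℝ)) * ∑ c ∈ range (sm y q), 1 :=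
                mul_le_mul_of_nonneg_left (sum_le_sum h1) (by positivity)
            _ = (1 / (q : ℝ)) * sm y q := by simp
            _ ≤ (1 / (q : ℝ)) * q := mul_le_mul_of_nonneg_left hmqr (by positivity)
            _ = 1 := by field_simp
            _ ≤ _ := htB1
        exact h2)
      k3
      (by
        have h1 : L ≤ t ^ 2 * (N : ℝ) ^ (1 / 2 : ℝ) := by
          rw [pow_one] at e10
          have h2 : t ^ 2 * (1 / t ^ 2 * L) ≤ t ^ 2 * (N : ℝ) ^ (1 / 2 : ℝ) :=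
            mul_le_mul_of_nonneg_left e10 (by positivity)
          have h3 : t ^ 2 * (1 / t ^ 2 * L) = L := by field_simp
          rwa [h3] at h2
        calc (D * L) ^ 2 = (D * D) * L * L := by ring
          _ ≤ (D * D) * (t ^ 2 * (N : ℝ) ^ (1 / 2 : ℝ)) * L := by gcongr
          _ = t ^ 2 * (((N : ℝ) ^ δ * (N : ℝ) ^ δ * (N : ℝ) ^ (1 / 2 : ℝ)) * L) := by
              rw [hD]
              ring
          _ = t ^ 2 * ((N : ℝ) ^ (δ + δ + 1 / 2) * L) := by rw [hadd, hadd]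
          _ ≤ t ^ 2 * ((N : ℝ) ^ (1 : ℝ) * L) := by
              have := hmono (δ + δ + 1 / 2) 1 (by linarith)
              gcongr
          _ = _ := by rw [hNone])
      (by
        have h24 : 24 ≤ t * (N : ℝ) ^ (3 * δ) := by
          rw [div_le_iff₀ ht0] at c1
          linarith
        have h1 : D / (y + 1) ≤ (N : ℝ) ^ (δ - 8 * δ) := by
          rw [div_le_iff₀ (by positivity)]
          calc D = (N : ℝ) ^ (δ - 8 * δ) * (N : ℝ) ^ η2 := by
                rw [hadd, h8δ, hD]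
                congr 1
                ring
            _ ≤ _ := mul_le_mul_of_nonneg_left y4.le (by positivity)
        have h2 : (sm y q : ℝ) ^ 2 ≤ N := by
          calc (sm y q : ℝ) ^ 2 ≤ ((N : ℝ) ^ η1) ^ 2 := pow_le_pow_left₀ (by positivity) (hmP.trans a2) 2
            _ = (N : ℝ) ^ (η1 * 2) := by
                rw [← Real.rpow_natCast, ← Real.rpow_mul hN0.le]
                norm_num
            _ ≤ (N : ℝ) ^ (1 : ℝ) := hmono _ _ (by linarith)
            _ = N := hNone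
        calc D / (y + 1) * (6 * (N + (sm y q : ℝ) ^ 2) * U)
            ≤ (N : ℝ) ^ (δ - 8 * δ) * (6 * (N + N) * (2 * B)) := by gcongr
          _ = 24 * ((N : ℝ) ^ (δ - 8 * δ) * (N : ℝ) ^ (1 : ℝ)) * B := by
              rw [hNone]
              ring
          _ ≤ (t * (N : ℝ) ^ (3 * δ)) * ((N : ℝ) ^ (δ - 8 * δ) * (N : ℝ) ^ (1 : ℝ)) * B := by gcongr
          _ = t * ((N : ℝ) ^ (3 * δ) * ((N : ℝ) ^ (δ - 8 * δ) * (N : ℝ) ^ (1 : ℝ))) * B := by ring
          _ = t * (N : ℝ) ^ (3 * δ + (δ - 8 * δ + 1)) * B := by rw [hadd, hadd]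
          _ ≤ t * (N : ℝ) ^ (-δ + (1 - δ)) * B := by
              have := hmono (3 * δ + (δ - 8 * δ + 1)) (-δ + (1 - δ)) (by linarith)
              gcongr
          _ = t * ((N : ℝ) ^ (-δ) * (N : ℝ) ^ (1 - δ)) * B := by rw [hadd]
          _ ≤ t * ((N : ℝ) ^ (-δ) * (D * Nat.totient q)) * B := by
              have := hK.trans hφK
              gcongr
          _ = t * B * Nat.totient q * ((N : ℝ) ^ (-δ) * (N : ℝ) ^ δ) := by
              rw [hD]
              ring
          _ = _ := by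
              rw [hadd]
              norm_num)
      (k1.trans hPR)
      k4
      (by
        have h1 : 0 ≤ ∑ n ∈ Icc 1 N, (ArithmeticFunction.vonMangoldt n - uR N n) := by
          apply sum_nonneg
          intro n _
          linarith [uR_le N n]
        calc (∑ n ∈ Icc 1 N, (ArithmeticFunction.vonMangoldt n - uR N n)) ^ 2
            ≤ (Cv * Real.sqrt N) ^ 2 := pow_le_pow_left₀ h1 (hvd N) 2
          _ = Cv ^ 2 * N := by
              rw [mul_pow, Real.sq_sqrt hN0.le]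
          _ ≤ (t ^ 2 * L) * N := by
              apply mul_le_mul_of_nonneg_right _ hN0.le
              rw [div_le_iff₀ (by positivity)] at l1
              linarith
          _ = _ := by
              rw [hB]
              ring)
    have h500 : 500 * t = ε := by rw [ht]; ring
    rw [h500] at hcore
    exact absurd hqb (not_lt.2 hcore)
  have hcard := card_le_card hsub
  have hc2 : ((S.filter (fun q => ε * (Nat.totient q * (N * Real.log N)) <
      |∑ χ ∈ (univ : Finset (DirichletCharacter ℂ q)).filter (fun χ => R < χ.conductor),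
        ‖∑ n ∈ Icc 1 N, ((ArithmeticFunction.vonMangoldt n : ℝ) : ℂ) * χ (n : ZMod q)‖ ^ 2 -
          Nat.totient q * (N * Real.log N)|)).card : ℝ) ≤
      ((S.filter F1).card + (S.filter (fun q => (t * B) ^ 2 < OF q)).card : ℝ) +
      ((S.filter (fun q => t ^ 2 * B < TE q)).card + (S.filter (fun q => t * B < SC q)).card : ℝ) := by
    have h1 := card_union_le ((S.filter F1) ∪ (S.filter (fun q => (t * B) ^ 2 < OF q)))
      ((S.filter (fun q => t ^ 2 * B < TE q)) ∪ (S.filter (fun q => t * B < SC q)))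
    have h2 := card_union_le (S.filter F1) (S.filter (fun q => (t * B) ^ 2 < OF q))
    have h3 := card_union_le (S.filter (fun q => t ^ 2 * B < TE q)) (S.filter (fun q => t * B < SC q))
    have h4 := hcard.trans (h1.trans (Nat.add_le_add h2 h3))
    exact_mod_cast h4
  refine hc2.trans ?_
  linarith

end Pool.Agent.W110.HV
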