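import Pool.Agent.W110.HV.Chars
import Pool.Agent.Helper112.Bilinear

/-!
The fractions `b/q` by their reduced denominators; the large sieve with weights `1/D`.
-/

open Finset

namespace Pool.Agent.W110.HV

open Pool.Agent.Helper112

/-- the fractions `b/q`, `0 ≤ b < q`, by their reduced denominators -/
theorem frac_sum (q : ℕ) (hq : 0 < q) (F : ℕ → ℝ → ℝ) :
    ∑ b ∈ range q, F (q / Nat.gcd b q) ((b : ℝ) / q) =
      ∑ D ∈ q.divisors, ∑ a ∈ (range D).filter (fun a => a.Coprime D), F D ((a : ℝ) / D) := by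
  rw [sum_sigma']
  have hqr : (0 : ℝ) < q := by exact_mod_cast hq
  apply sum_bij' (fun b _ => (⟨q / Nat.gcd b q, b / Nat.gcd b q⟩ : Σ _ : ℕ, ℕ))
    (fun x _ => x.2 * (q / x.1))
  · intro b hb
    rw [mem_range] at hb
    have hg : 0 < Nat.gcd b q := Nat.gcd_pos_of_pos_right _ hq
    rw [mem_sigma, Nat.mem_divisors, mem_filter, mem_range]
    refine ⟨⟨Nat.div_dvd_of_dvd (Nat.gcd_dvd_right b q), hq.ne'⟩, ?_, Nat.coprime_div_gcd_div_gcd hg⟩
    exact Nat.div_lt_div_of_lt_of_dvd (Nat.gcd_dvd_right b q) hb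
  · rintro ⟨D, a⟩ hx
    rw [mem_sigma, Nat.mem_divisors, mem_filter, mem_range] at hx
    obtain ⟨⟨hD, _⟩, ha, _⟩ := hx
    simp only at hD ha ⊢
    rw [mem_range]
    obtain ⟨k, rfl⟩ := hD
    have hD0 : 0 < D := Nat.pos_of_mul_pos_right hq
    have hk0 : 0 < k := Nat.pos_of_mul_pos_left hq
    rw [Nat.mul_div_cancel_left k hD0]
    exact Nat.mul_lt_mul_of_pos_right ha hk0
  · intro b hb
    simp only
    have hg : 0 < Nat.gcd b q := Nat.gcd_pos_of_pos_right _ hq
    have h1 : q / (q / Nat.gcd b q) = Nat.gcd b q :=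
      Nat.div_div_self (Nat.gcd_dvd_right b q) hq.ne'
    rw [h1]
    exact Nat.div_mul_cancel (Nat.gcd_dvd_left b q)
  · rintro ⟨D, a⟩ hx
    rw [mem_sigma, Nat.mem_divisors, mem_filter, mem_range] at hx
    obtain ⟨⟨hD, _⟩, ha, hc⟩ := hx
    simp only at hD ha hc ⊢
    obtain ⟨k, rfl⟩ := hD
    have hD0 : 0 < D := Nat.pos_of_mul_pos_right hq
    have hk0 : 0 < k := Nat.pos_of_mul_pos_left hq
    have h1 : Nat.gcd (a * k) (D * k) = k := by
      rw [Nat.gcd_mul_right, Nat.Coprime.gcd_eq_one hc, one_mul]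
    rw [Nat.mul_div_cancel_left k hD0, h1, Nat.mul_div_cancel _ hk0, Nat.mul_div_cancel _ hk0]
  · intro b hb
    have hg : 0 < Nat.gcd b q := Nat.gcd_pos_of_pos_right _ hq
    simp only
    congr 1
    obtain ⟨b', hb'⟩ := Nat.gcd_dvd_left b q
    obtain ⟨q', hq'⟩ := Nat.gcd_dvd_right b q
    set g := Nat.gcd b q with hgd
    have e1 : b / g = b' := by
      conv_lhs => rw [hb']
      exact Nat.mul_div_cancel_left b' hg
    have e2 : q / g = q' := by
      conv_lhs => rw [hq']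
      exact Nat.mul_div_cancel_left q' hg
    rw [e1, e2]
    have hgr : (g : ℝ) ≠ 0 := by positivity
    have hb2 : (b : ℝ) = g * b' := by exact_mod_cast hb'
    have hq2 : (q : ℝ) = g * q' := by exact_mod_cast hq'
    rw [hb2, hq2]
    rw [mul_div_mul_left _ _ hgr]

/-- partial summation with a quadratic bound -/
lemma abel_bound (R : ℕ → ℝ) (hR0 : ∀ f, 0 ≤ R f) (F0 F1 : ℕ) (h0 : 1 ≤ F0) (N U : ℝ) (hN : 0 ≤ N)
    (hU : 0 ≤ U) (hR : ∀ j : ℕ, ∑ f ∈ Icc 1 j, R f ≤ 6 * (N + (j : ℝ) ^ 2) * U) :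
    ∑ f ∈ Icc F0 F1, R f / f ≤ 12 * (N / F0 + F1) * U := by
  have hF0 : (0 : ℝ) < F0 := by exact_mod_cast h0
  rcases Nat.lt_or_ge F1 F0 with hlt | hge
  · rw [Icc_eq_empty (by omega), sum_empty]
    positivity
  have hF01 : (F0 : ℝ) ≤ F1 := by exact_mod_cast hge
  have hF1 : (0 : ℝ) < F1 := by linarith
  rw [BLB.abel R F0 F1 h0 (by omega)]
  have hS : ∀ j : ℕ, ∑ f ∈ Icc F0 j, R f ≤ 6 * (N + (j : ℝ) ^ 2) * U := by
    intro j
    refine le_trans ?_ (hR j)
    exact sum_le_sum_of_subset_of_nonneg (Icc_subset_Icc_left h0) fun f _ _ => hR0 f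
  have h1 : (∑ f ∈ Icc F0 F1, R f) / (F1 + 1) ≤ 6 * (N / F0 + F1) * U := by
    rw [div_le_iff₀ (by positivity)]
    refine (hS F1).trans ?_
    have h2 : N + (F1 : ℝ) ^ 2 ≤ (N / F0 + F1) * (F1 + 1) := by
      have h3 : N ≤ N / F0 * (F1 + 1) := by
        rw [div_mul_eq_mul_div, le_div_iff₀ hF0]
        nlinarith
      nlinarith
    calc 6 * (N + (F1 : ℝ) ^ 2) * U ≤ 6 * ((N / F0 + F1) * (F1 + 1)) * U := by gcongr
      _ = _ := by ring
  have h4 : ∀ m : ℕ, F0 ≤ m → ∑ j ∈ Icc F0 m, (1 : ℝ) / (j * (j + 1)) = 1 / F0 - 1 / (m + 1) := by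
    intro m hm
    induction m, hm using Nat.le_induction with
    | base =>
      rw [Icc_self, sum_singleton]
      field_simp
      ring
    | succ n hn ih =>
      rw [sum_Icc_succ_top (by omega), ih]
      have : (0 : ℝ) < (n : ℝ) + 1 := by positivity
      push_cast
      field_simp
      ring
  have h5 : ∑ j ∈ Icc F0 F1, (∑ f ∈ Icc F0 j, R f) / (j * (j + 1)) ≤ 6 * (N / F0 + F1) * U := by
    calc ∑ j ∈ Icc F0 F1, (∑ f ∈ Icc F0 j, R f) / ((j : ℝ) * (j + 1))
        ≤ ∑ j ∈ Icc F0 F1, (6 * N * U * (1 / ((j : ℝ) * (j + 1))) + 6 * U) := by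
          apply sum_le_sum
          intro j hj
          rw [mem_Icc] at hj
          have hj0 : (0 : ℝ) < j := by
            have : 0 < j := by omega
            exact_mod_cast this
          rw [div_le_iff₀ (by positivity)]
          refine (hS j).trans ?_
          have : (6 * N * U * (1 / ((j : ℝ) * (j + 1))) + 6 * U) * ((j : ℝ) * (j + 1)) =
              6 * N * U + 6 * U * (j ^ 2 + j) := by
            field_simp
          rw [this]
          have : 0 ≤ 6 * U * j := by positivity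
          nlinarith
      _ = 6 * N * U * (1 / F0 - 1 / (F1 + 1)) + 6 * U * (F1 + 1 - F0) := by
          rw [sum_add_distrib, ← mul_sum, h4 F1 hge, sum_const, Nat.card_Icc, nsmul_eq_mul,
            Nat.cast_sub (by omega)]
          push_cast
          ring
      _ ≤ 6 * N * U * (1 / F0) + 6 * U * F1 := by
          have h6 : (0 : ℝ) ≤ 1 / (F1 + 1) := by positivity
          have h7 : (1 : ℝ) ≤ F0 := by exact_mod_cast h0
          have h8 : 6 * N * U * (1 / F0 - 1 / (F1 + 1)) ≤ 6 * N * U * (1 / F0) := by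
            apply mul_le_mul_of_nonneg_left (by linarith) (by positivity)
          have h9 : 6 * U * (F1 + 1 - F0) ≤ 6 * U * F1 :=
            mul_le_mul_of_nonneg_left (by linarith) (by positivity)
          linarith
      _ = _ := by ring
  linarith

end Pool.Agent.W110.HV
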