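import Pool.Agent.W110.HV.Smooth
import Pool.Agent.H343R2.Pnt

/-!
The logarithms of the primes in `(√N, N]`.
-/

open Finset

namespace Pool.Agent.W110.HV

open Pool.Agent.Helper112

/-- `log n` for the primes `n > √N` -/
noncomputable def uR (N n : ℕ) : ℝ := if n.Prime ∧ N < n ^ 2 then Real.log n else 0

noncomputable def uu (N n : ℕ) : ℂ := (uR N n : ℂ)

lemma uR_nonneg (N n : ℕ) : 0 ≤ uR N n := by
  unfold uR
  split_ifs
  · exact Real.log_natCast_nonneg n
  · exact le_refl 0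

lemma uR_le (N n : ℕ) : uR N n ≤ ArithmeticFunction.vonMangoldt n := by
  unfold uR
  split_ifs with h
  · rw [ArithmeticFunction.vonMangoldt_apply_prime h.1]
  · exact ArithmeticFunction.vonMangoldt_nonneg

lemma uR_log (N n : ℕ) (hn : n ≤ N) : uR N n ≤ Real.log N := by
  unfold uR
  split_ifs with h
  · exact Real.log_le_log (by exact_mod_cast h.1.pos) (by exact_mod_cast hn)
  · exact Real.log_natCast_nonneg N

lemma norm_uu (N n : ℕ) : ‖uu N n‖ = uR N n := by
  unfold uu
  rw [Complex.norm_real, Real.norm_of_nonneg (uR_nonneg N n)]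

lemma sum_uR (N : ℕ) : ∑ n ∈ Icc 1 N, uR N n = Chebyshev.theta N - Chebyshev.theta (Nat.sqrt N) := by
  have h1 : Chebyshev.theta N = ∑ p ∈ Icc 1 N, if p.Prime then Real.log p else 0 := by
    rw [Chebyshev.theta_eq_sum_Icc, Nat.floor_natCast, sum_filter]
    symm
    apply sum_subset (Icc_subset_Icc_left (by omega))
    intro x _ hx
    rw [mem_Icc] at *
    have : x = 0 := by omega
    subst this
    simp
  have h2 : Chebyshev.theta (Nat.sqrt N) = ∑ p ∈ Icc 1 N, if p.Prime ∧ p ^ 2 ≤ N then Real.log p else 0 := by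
    rw [Chebyshev.theta_eq_sum_Icc, Nat.floor_natCast, sum_filter]
    have : ∀ p ∈ Icc 0 (Nat.sqrt N), (if p.Prime then Real.log p else 0) =
        if p.Prime ∧ p ^ 2 ≤ N then Real.log p else 0 := by
      intro p hp
      rw [mem_Icc] at hp
      have h3 : p ^ 2 ≤ N := by
        have := Nat.sqrt_le' N
        exact le_trans (Nat.pow_le_pow_left hp.2 2) this
      simp [h3]
    rw [sum_congr rfl this]
    rw [← sum_filter, ← sum_filter]
    apply sum_congr _ (fun _ _ => rfl)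
    ext p
    rw [mem_filter, mem_filter, mem_Icc, mem_Icc]
    constructor
    · rintro ⟨_, hp, h⟩
      refine ⟨⟨hp.one_lt.le, ?_⟩, hp, h⟩
      have := hp.one_lt
      nlinarith
    · rintro ⟨_, hp, h⟩
      refine ⟨⟨by omega, ?_⟩, hp, h⟩
      rw [Nat.le_sqrt']
      exact h
  rw [h1, h2, ← sum_sub_distrib]
  refine sum_congr rfl fun p _ => ?_
  unfold uR
  by_cases hp : p.Prime
  · by_cases h : p ^ 2 ≤ N
    · have : ¬ N < p ^ 2 := by omega
      simp [hp, h, this]
    · have : N < p ^ 2 := by omega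
      simp [hp, h, this]
  · simp [hp]

theorem vdiff : ∃ C : ℝ, 0 < C ∧ ∀ N : ℕ,
    ∑ n ∈ Icc 1 N, (ArithmeticFunction.vonMangoldt n - uR N n) ≤ C * Real.sqrt N := by
  obtain ⟨C, hC⟩ := Chebyshev.psi_sub_theta_le_mul_sqrt
  refine ⟨|C| + 2, by positivity, fun N => ?_⟩
  have h1 : Chebyshev.psi N = ∑ n ∈ Icc 1 N, ArithmeticFunction.vonMangoldt n := by
    rw [Chebyshev.psi_eq_sum_Icc, Nat.floor_natCast]
    symm
    apply sum_subset (Icc_subset_Icc_left (by omega))
    intro x _ hx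
    rw [mem_Icc] at *
    have : x = 0 := by omega
    subst this
    simp
  rw [sum_sub_distrib, ← h1, sum_uR]
  have h2 := hC N
  have h3 := Chebyshev.theta_le_log4_mul_x (x := (Nat.sqrt N : ℝ)) (by positivity)
  have h4 : ((Nat.sqrt N : ℕ) : ℝ) ≤ Real.sqrt N := Real.nat_sqrt_le_real_sqrt
  have h5 : Real.log 4 ≤ 2 := by
    have h1 : Real.log 4 = 2 * Real.log 2 := by
      rw [show (4 : ℝ) = 2 ^ 2 by norm_num, Real.log_pow]; push_cast; ring
    have := Real.log_two_lt_d9
    linarith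
  have h6 : Real.log 4 * (Nat.sqrt N : ℝ) ≤ 2 * Real.sqrt N := by
    apply mul_le_mul h5 h4 (by positivity) (by norm_num)
  have h7 : C * Real.sqrt N ≤ |C| * Real.sqrt N :=
    mul_le_mul_of_nonneg_right (le_abs_self _) (Real.sqrt_nonneg _)
  linarith

theorem norm_asymp (ε : ℝ) (hε : 0 < ε) : ∃ N0 : ℕ, ∀ N : ℕ, N0 ≤ N →
    |∑ n ∈ Icc 1 N, ‖uu N n‖ ^ 2 - N * Real.log N| ≤ ε * (N * Real.log N) := by
  -- it suffices to treat `ε ≤ 1/2`
  wlog hε1 : ε ≤ 1 / 2 generalizing ε with hw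
  · push Not at hε1
    obtain ⟨N0, hN0⟩ := hw (1 / 2) (by norm_num) le_rfl
    refine ⟨max N0 1, fun N hN => (hN0 N (le_trans (le_max_left _ _) hN)).trans ?_⟩
    apply mul_le_mul_of_nonneg_right hε1.le
    have := Real.log_natCast_nonneg N
    positivity
  have ht := Pool.Agent.Helper923.PNT.theta_div_tendsto
  rw [Metric.tendsto_atTop] at ht
  obtain ⟨x0, hx0⟩ := ht (ε / 8) (by positivity)
  -- `N ^ (1 - ε/8) ≤ ε / 16 * N`
  have h2 : ∃ n1 : ℕ, ∀ N : ℕ, n1 ≤ N → (16 / ε) ≤ (N : ℝ) ^ (ε / 8) := by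
    have := (tendsto_rpow_atTop (show 0 < ε / 8 by positivity)).comp tendsto_natCast_atTop_atTop
    have h3 := this.eventually (Filter.eventually_ge_atTop (16 / ε))
    obtain ⟨n1, hn1⟩ := Filter.eventually_atTop.1 h3
    exact ⟨n1, hn1⟩
  obtain ⟨n1, hn1⟩ := h2
  refine ⟨max (max ⌈x0⌉₊ n1) 2, fun N hN => ?_⟩
  have hNx : x0 ≤ N := by
    have : ⌈x0⌉₊ ≤ N := le_trans (le_trans (le_max_left _ _) (le_max_left _ _)) hN
    exact (Nat.le_ceil x0).trans (by exact_mod_cast this)
  have hNn : n1 ≤ N := le_trans (le_trans (le_max_right _ _) (le_max_left _ _)) hN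
  have hN2 : 2 ≤ N := le_trans (le_max_right _ _) hN
  have hNr : (2 : ℝ) ≤ N := by exact_mod_cast hN2
  have hN0 : (0 : ℝ) < N := by linarith
  set ℓ := Real.log N with hℓ
  have hℓ0 : 0 < ℓ := Real.log_pos (by linarith)
  have hθ := hx0 N hNx
  rw [Real.dist_eq, abs_lt] at hθ
  have hθ1 : Chebyshev.theta N ≤ (1 + ε / 8) * N := by
    have : Chebyshev.theta N / N ≤ 1 + ε / 8 := by linarith [hθ.2]
    rwa [div_le_iff₀ hN0] at this
  have hθ2 : (1 - ε / 8) * N ≤ Chebyshev.theta N := by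
    have : 1 - ε / 8 ≤ Chebyshev.theta N / N := by linarith [hθ.1]
    rwa [le_div_iff₀ hN0] at this
  have hθ0 := Chebyshev.theta_nonneg (Nat.sqrt N : ℝ)
  simp_rw [norm_uu]
  have hup : ∑ n ∈ Icc 1 N, uR N n ^ 2 ≤ (1 + ε / 8) * (N * ℓ) := by
    calc ∑ n ∈ Icc 1 N, uR N n ^ 2 ≤ ∑ n ∈ Icc 1 N, ℓ * uR N n := by
          apply sum_le_sum
          intro n hn
          rw [mem_Icc] at hn
          rw [pow_two]
          exact mul_le_mul_of_nonneg_right (uR_log N n hn.2) (uR_nonneg N n)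
      _ = ℓ * (Chebyshev.theta N - Chebyshev.theta (Nat.sqrt N)) := by rw [← mul_sum, sum_uR]
      _ ≤ ℓ * ((1 + ε / 8) * N) := mul_le_mul_of_nonneg_left (by linarith) hℓ0.le
      _ = _ := by ring
  -- lower bound
  set M : ℝ := (N : ℝ) ^ (1 - ε / 8) with hM
  have hM0 : 0 < M := by positivity
  have hM1 : M * (16 / ε) ≤ N := by
    calc M * (16 / ε) ≤ M * (N : ℝ) ^ (ε / 8) := mul_le_mul_of_nonneg_left (hn1 N hNn) hM0.le
      _ = N := by
          rw [hM, ← Real.rpow_add hN0]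
          norm_num
  have hM2 : M ≤ ε / 16 * N := by
    have : M * (16 / ε) * (ε / 16) = M := by field_simp
    have h3 : M * (16 / ε) * (ε / 16) ≤ N * (ε / 16) := mul_le_mul_of_nonneg_right hM1 (by positivity)
    linarith
  have hMsq : (N : ℝ) ≤ M ^ 2 := by
    rw [hM, ← Real.rpow_natCast, ← Real.rpow_mul hN0.le]
    calc (N : ℝ) = (N : ℝ) ^ (1 : ℝ) := (Real.rpow_one _).symm
      _ ≤ _ := Real.rpow_le_rpow_of_exponent_le (by linarith) (by push_cast; linarith)
  have hlow : (1 - ε / 8) * ℓ * (Chebyshev.theta N - Chebyshev.theta M) ≤ ∑ n ∈ Icc 1 N, uR N n ^ 2 := by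
    have hf1 : Chebyshev.theta M = ∑ p ∈ (Icc 0 ⌊M⌋₊).filter Nat.Prime, Real.log p := Chebyshev.theta_eq_sum_Icc M
    have hf2 : Chebyshev.theta N = ∑ p ∈ (Icc 0 N).filter Nat.Prime, Real.log p := by
      have := Chebyshev.theta_eq_sum_Icc (N : ℝ)
      rwa [Nat.floor_natCast] at this
    have hMN : ⌊M⌋₊ ≤ N := by
      have : M ≤ N := by nlinarith
      exact Nat.floor_le_of_le this
    have hf3 : Chebyshev.theta N - Chebyshev.theta M = ∑ p ∈ (Ioc ⌊M⌋₊ N).filter Nat.Prime, Real.log p := by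
      rw [hf1, hf2, sub_eq_iff_eq_add, ← sum_union]
      · congr 1
        rw [← filter_union]
        congr 1
        ext x
        rw [mem_union, mem_Icc, mem_Ioc, mem_Icc]
        omega
      · apply disjoint_filter_filter
        rw [disjoint_left]
        intro x hx hx2
        rw [mem_Ioc] at hx
        rw [mem_Icc] at hx2
        omega
    rw [hf3, mul_sum]
    calc ∑ p ∈ (Ioc ⌊M⌋₊ N).filter Nat.Prime, (1 - ε / 8) * ℓ * Real.log p
        ≤ ∑ p ∈ (Ioc ⌊M⌋₊ N).filter Nat.Prime, uR N p ^ 2 := by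
          apply sum_le_sum
          intro p hp
          rw [mem_filter, mem_Ioc] at hp
          have hMp : M < p := (Nat.floor_lt hM0.le).1 hp.1.1
          have hlogp : (1 - ε / 8) * ℓ ≤ Real.log p := by
            have := Real.log_le_log hM0 hMp.le
            rwa [hM, Real.log_rpow hN0] at this
          have hlp0 : 0 ≤ Real.log p := Real.log_natCast_nonneg p
          have hsq : N < p ^ 2 := by
            have : (N : ℝ) < (p : ℝ) ^ 2 := lt_of_le_of_lt hMsq (pow_lt_pow_left₀ hMp hM0.le (by norm_num))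
            exact_mod_cast this
          unfold uR
          rw [if_pos ⟨hp.2, hsq⟩, pow_two]
          exact mul_le_mul_of_nonneg_right hlogp hlp0
      _ ≤ _ := by
          apply sum_le_sum_of_subset_of_nonneg
          · intro p hp
            rw [mem_filter, mem_Ioc] at hp
            rw [mem_Icc]
            have := hp.2.one_lt
            omega
          · intro p _ _
            positivity
  have hθM : Chebyshev.theta M ≤ ε / 8 * N := by
    have h3 := Chebyshev.theta_le_log4_mul_x (x := M) hM0.le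
    have h5 : Real.log 4 ≤ 2 := by
      have h1 : Real.log 4 = 2 * Real.log 2 := by
        rw [show (4 : ℝ) = 2 ^ 2 by norm_num, Real.log_pow]; push_cast; ring
      have := Real.log_two_lt_d9
      linarith
    have h6 : Real.log 4 * M ≤ 2 * M := mul_le_mul_of_nonneg_right h5 hM0.le
    linarith
  have hlow2 : (1 - ε / 8) * ℓ * ((1 - ε / 4) * N) ≤ ∑ n ∈ Icc 1 N, uR N n ^ 2 := by
    refine le_trans ?_ hlow
    apply mul_le_mul_of_nonneg_left (by linarith)
    have : 0 ≤ 1 - ε / 8 := by linarith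
    positivity
  have hNℓ : 0 < N * ℓ := by positivity
  rw [abs_le]
  constructor
  · have : (1 - ε) * (N * ℓ) ≤ (1 - ε / 8) * ℓ * ((1 - ε / 4) * N) := by
      have h8 : (1 - ε) ≤ (1 - ε / 8) * (1 - ε / 4) := by nlinarith
      calc (1 - ε) * (N * ℓ) ≤ ((1 - ε / 8) * (1 - ε / 4)) * (N * ℓ) :=
            mul_le_mul_of_nonneg_right h8 hNℓ.le
        _ = _ := by ring
    linarith
  · have : (1 + ε / 8) * (N * ℓ) ≤ (1 + ε) * (N * ℓ) :=
      mul_le_mul_of_nonneg_right (by linarith) hNℓ.le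
    linarith

/-- the terms which are not coprime to `q` -/
lemma uu_not_coprime (q N : ℕ) (hq : 1 ≤ q) (hN : 1 ≤ N) :
    ∑ n ∈ (Icc 1 N).filter (fun n => ¬ n.Coprime q), ‖uu N n‖ ≤ q.divisors.card * Real.log N := by
  refine le_trans ?_ (H343.sum_not_coprime q N hq hN)
  apply sum_le_sum
  intro n _
  rw [norm_uu]
  exact uR_le N n

end Pool.Agent.W110.HV
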