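import Pool.Agent.W110.HV.Window
import Pool.Agent.H336R2.V.Raman
import Pool.Agent.H343R2.PhiSum

/-!
The large sieve inequality of Ramaré type for sequences without small prime factors.
-/

open Finset

namespace Pool.Agent.W110.HV

open Pool.Agent.Helper112

lemma ex_eq_ee (x : ℝ) : H343.ex x = ee x := by
  unfold H343.ex ee
  congr 1
  push_cast
  ring

/-- the large sieve for one window -/
lemma window_ls (R H : ℕ) (u : ℤ → ℂ) (x : ℤ) :
    ∑ r ∈ Fr R, ‖VV H u x (xi r)‖ ^ 2 ≤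
      6 * (H + (R : ℝ) ^ 2) * ∑ i ∈ range H, ‖u (x + i)‖ ^ 2 := by
  have h := additive_large_sieve H R (fun n => u (x + (n : ℤ) - 1))
  have h1 : ∑ n ∈ Icc 1 H, ‖u (x + (n : ℤ) - 1)‖ ^ 2 = ∑ i ∈ range H, ‖u (x + i)‖ ^ 2 := by
    rw [show Icc 1 H = Ico 1 (H + 1) by ext; simp, sum_Ico_eq_sum_range]
    refine sum_congr (by simp) fun i _ => ?_
    congr 3
    push_cast
    ring
  rw [h1] at h
  refine le_trans (le_of_eq ?_) h
  unfold Fr
  rw [sum_sigma]
  refine sum_congr rfl fun f _ => sum_congr rfl fun a _ => ?_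
  rw [norm_VV]
  have h2 : ∑ n ∈ Icc 1 H, u (x + (n : ℤ) - 1) * ee (n * a / f) =
      ee ((a : ℝ) / f) * WW H u (xi ⟨f, a⟩) x := by
    rw [show Icc 1 H = Ico 1 (H + 1) by ext; simp, sum_Ico_eq_sum_range]
    unfold WW
    rw [mul_sum]
    refine sum_congr (by simp) fun i _ => ?_
    have e1 : ee (((1 + i : ℕ) : ℝ) * a / f) = ee ((a : ℝ) / f) * ee (i * xi ⟨f, a⟩) := by
      rw [← ls_ee_add]
      congr 1
      unfold xi
      push_cast
      ring
    have e2 : x + ((1 + i : ℕ) : ℤ) - 1 = x + i := by push_cast; ring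
    rw [e1, e2]
    ring
  rw [h2, norm_mul, ls_norm_ee, one_mul]

/-- Ramanujan sums at coprime arguments -/
lemma raman_coprime (s : ℕ) (hs : 1 ≤ s) (n : ℤ) (hn : IsCoprime n (s : ℤ)) :
    ∑ b ∈ (range s).filter (fun b => b.Coprime s), ee (n * ((b : ℝ) / s)) =
      ((ArithmeticFunction.moebius s : ℤ) : ℂ) := by
  have h := H336V.RamanAux.raman_eq s hs n
  have e1 : ∑ b ∈ (range s).filter (fun b => b.Coprime s), ee (n * ((b : ℝ) / s)) =
      ∑ b ∈ (range s).filter (fun b => b.Coprime s), H343.ex ((b : ℝ) * n / s) := by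
    refine sum_congr rfl fun b _ => ?_
    rw [ex_eq_ee]
    congr 1
    ring
  rw [e1, h]
  rw [sum_eq_single s]
  · rw [Nat.div_self (by omega)]
    simp
  · intro d hd hne
    rw [Nat.mem_divisors] at hd
    rw [if_neg, mul_zero]
    intro hdvd
    have h1 : ((s / d : ℕ) : ℤ) ∣ (s : ℤ) := by
      exact_mod_cast Nat.div_dvd_of_dvd hd.1
    have h2 := hn.isUnit_of_dvd' hdvd h1
    have h3 : s / d = 1 := by
      rcases Int.isUnit_iff.1 h2 with h4 | h4
      · exact_mod_cast h4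
      · exfalso
        have : (0 : ℤ) ≤ ((s / d : ℕ) : ℤ) := Int.natCast_nonneg _
        omega
    apply hne
    have h4 := Nat.div_mul_cancel hd.1
    rw [h3, one_mul] at h4
    exact h4
  · intro h
    exact absurd (Nat.mem_divisors.2 ⟨dvd_rfl, by omega⟩) h

/-- Montgomery's inequality -/
lemma montgomery (H : ℕ) (u : ℤ → ℂ) (x : ℤ) (s : ℕ) (hs : 1 ≤ s)
    (hu : ∀ n : ℤ, u n ≠ 0 → IsCoprime n (s : ℤ)) (hsq : Squarefree s) (θ : ℝ) :
    (1 / (Nat.totient s : ℝ)) * ‖VV H u x θ‖ ^ 2 ≤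
      ∑ b ∈ (range s).filter (fun b => b.Coprime s), ‖VV H u x (θ + (b : ℝ) / s)‖ ^ 2 := by
  have h1 : ∑ b ∈ (range s).filter (fun b => b.Coprime s), VV H u x (θ + (b : ℝ) / s) =
      ((ArithmeticFunction.moebius s : ℤ) : ℂ) * VV H u x θ := by
    unfold VV
    rw [sum_comm, mul_sum]
    refine sum_congr rfl fun i _ => ?_
    by_cases h0 : u (x + i) = 0
    · simp [h0]
    · have h2 := raman_coprime s hs (x + i) (hu _ h0)
      have h3 : ∀ b ∈ (range s).filter (fun b => b.Coprime s),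
          u (x + i) * ee (((x + i : ℤ) : ℝ) * (θ + (b : ℝ) / s)) =
          u (x + i) * ee (((x + i : ℤ) : ℝ) * θ) * ee (((x + i : ℤ) : ℝ) * ((b : ℝ) / s)) := by
        intro b _
        rw [mul_assoc, ← ls_ee_add]
        congr 2
        ring
      rw [sum_congr rfl h3, ← mul_sum, h2]
      ring
  have hφ : (0 : ℝ) < Nat.totient s := by exact_mod_cast Nat.totient_pos.2 hs
  have hmu : ‖((ArithmeticFunction.moebius s : ℤ) : ℂ)‖ = 1 := by
    rw [ArithmeticFunction.moebius_apply_of_squarefree hsq]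
    simp
  have h4 : ‖VV H u x θ‖ ^ 2 ≤ (Nat.totient s : ℝ) *
      ∑ b ∈ (range s).filter (fun b => b.Coprime s), ‖VV H u x (θ + (b : ℝ) / s)‖ ^ 2 := by
    have h5 : ‖VV H u x θ‖ = ‖∑ b ∈ (range s).filter (fun b => b.Coprime s), VV H u x (θ + (b : ℝ) / s)‖ := by
      rw [h1, norm_mul, hmu, one_mul]
    rw [h5]
    refine (pow_le_pow_left₀ (norm_nonneg _) (norm_sum_le _ _) 2).trans ?_
    have h6 : ((range s).filter (fun b => b.Coprime s)).card = Nat.totient s := by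
      rw [Nat.totient_eq_card_coprime]
      congr 1
      ext b
      simp only [mem_filter, mem_range]
      rw [Nat.coprime_comm]
    rw [← h6]
    exact sq_sum_le_card_mul_sum_sq
  rw [one_div, inv_mul_le_iff₀ hφ]
  exact h4

/-- squarefree numbers up to `Z` all of whose prime factors exceed `P` -/
noncomputable def SS (P Z : ℕ) : Finset ℕ := (H343.Mod 0 Z).filter (fun s => ∀ p ∈ s.primeFactors, P < p)

lemma mem_SS {P Z s : ℕ} (h : s ∈ SS P Z) : 1 ≤ s ∧ s ≤ Z ∧ Squarefree s ∧ ∀ p : ℕ, p.Prime → p ∣ s → P < p := by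
  unfold SS H343.Mod at h
  rw [mem_filter, mem_filter, mem_Ioc] at h
  exact ⟨h.1.1.1, h.1.1.2, h.1.2, fun p hp hps => h.2 p (Nat.mem_primeFactors.2 ⟨hp, hps, by omega⟩)⟩

lemma coprime_of_SS {P Z s d : ℕ} (h : s ∈ SS P Z) (hd1 : 1 ≤ d) (hd : d ≤ P) : Nat.Coprime d s := by
  obtain ⟨_, _, _, h4⟩ := mem_SS h
  apply Nat.Coprime.symm
  rw [Nat.coprime_iff_gcd_eq_one]
  by_contra hc
  obtain ⟨p, hp, hpd⟩ := Nat.exists_prime_and_dvd hc
  have h5 := h4 p hp (hpd.trans (Nat.gcd_dvd_left _ _))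
  have h6 := Nat.le_of_dvd hd1 (hpd.trans (Nat.gcd_dvd_right _ _))
  omega

lemma VV_period (H : ℕ) (u : ℤ → ℂ) (x : ℤ) (θ : ℝ) (k : ℤ) : VV H u x (θ + k) = VV H u x θ := by
  unfold VV
  refine sum_congr rfl fun i _ => ?_
  congr 1
  have : ((x + i : ℤ) : ℝ) * (θ + k) = ((x + i : ℤ) : ℝ) * θ + (((x + i) * k : ℤ) : ℝ) := by
    push_cast
    ring
  rw [this, ls_ee_add, ls_ee_int, mul_one]

/-- the index map of the CRT decomposition -/
def crtMap (z : ℕ × (Σ _ : ℕ, ℕ) × ℕ) : Σ _ : ℕ, ℕ :=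
  ⟨z.2.1.1 * z.1, (z.2.1.2 * z.1 + z.2.2 * z.2.1.1) % (z.2.1.1 * z.1)⟩

theorem expand (P Z R H : ℕ) (hR : P * Z ≤ R) (u : ℤ → ℂ) (x : ℤ)
    (hu : ∀ n : ℤ, u n ≠ 0 → ∀ s : ℕ, 1 ≤ s → s ≤ R → IsCoprime n (s : ℤ)) :
    (∑ s ∈ SS P Z, (1 / (Nat.totient s : ℝ))) * ∑ r ∈ Fr P, ‖VV H u x (xi r)‖ ^ 2 ≤
      ∑ r ∈ Fr R, ‖VV H u x (xi r)‖ ^ 2 := by
  rcases Nat.eq_zero_or_pos P with hP0 | hP0
  · subst hP0
    have : Fr 0 = ∅ := by
      unfold Fr
      simp
    rw [this]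
    simp only [sum_empty, mul_zero]
    positivity
  set F : ℝ → ℝ := fun θ => ‖VV H u x θ‖ ^ 2 with hF
  set J : Finset (ℕ × (Σ _ : ℕ, ℕ) × ℕ) :=
    (SS P Z ×ˢ Fr P ×ˢ range Z).filter (fun z => z.2.2 < z.1 ∧ z.2.2.Coprime z.1) with hJ
  have h1 : (∑ s ∈ SS P Z, (1 / (Nat.totient s : ℝ))) * ∑ r ∈ Fr P, F (xi r) ≤
      ∑ z ∈ J, F (xi z.2.1 + (z.2.2 : ℝ) / z.1) := by
    rw [hJ, sum_filter, sum_product, sum_mul]
    apply sum_le_sum
    intro s hs
    obtain ⟨hs1, hsZ, hsq, hsp⟩ := mem_SS hs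
    rw [mul_sum, sum_product]
    apply sum_le_sum
    intro r hr
    have hZR : Z ≤ R := le_trans (Nat.le_mul_of_pos_left _ hP0) hR
    have h2 := montgomery H u x s hs1 (fun n hn => hu n hn s hs1 (hsZ.trans hZR)) hsq (xi r)
    refine h2.trans (le_of_eq ?_)
    rw [← sum_filter]
    apply sum_congr
    · ext b
      simp only [mem_filter, mem_range]
      constructor
      · rintro ⟨a1, a2⟩
        exact ⟨by omega, a1, a2⟩
      · rintro ⟨_, a1, a2⟩
        exact ⟨a1, a2⟩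
    · intro b _
      rfl
  refine h1.trans ?_
  have hmem : ∀ z ∈ J, 1 ≤ z.2.1.1 ∧ z.2.1.1 ≤ P ∧ z.2.1.2 < z.2.1.1 ∧ z.2.1.2.Coprime z.2.1.1 ∧
      z.1 ∈ SS P Z ∧ z.2.2 < z.1 ∧ z.2.2.Coprime z.1 := by
    intro z hz
    rw [hJ, mem_filter, mem_product, mem_product] at hz
    obtain ⟨⟨hz1, hz2, _⟩, hz4, hz5⟩ := hz
    unfold Fr at hz2
    rw [mem_sigma, mem_Icc, mem_filter, mem_range] at hz2
    exact ⟨hz2.1.1, hz2.1.2, hz2.2.1, hz2.2.2, hz1, hz4, hz5⟩
  have hval : ∀ z ∈ J, F (xi z.2.1 + (z.2.2 : ℝ) / z.1) = F (xi (crtMap z)) := by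
    intro z hz
    obtain ⟨a1, a2, a3, a4, a5, a6, a7⟩ := hmem z hz
    obtain ⟨b1, b2, b3, b4⟩ := mem_SS a5
    obtain ⟨s, ⟨d, a⟩, b⟩ := z
    simp only at a1 a2 a3 a4 a5 a6 a7 b1 b2 b3 b4 ⊢
    have hd0 : (0 : ℝ) < d := by exact_mod_cast a1
    have hs0 : (0 : ℝ) < s := by exact_mod_cast b1
    have e1 : xi ⟨d, a⟩ + (b : ℝ) / s = xi (crtMap ⟨s, ⟨d, a⟩, b⟩) +
        (((a * s + b * d) / (d * s) : ℕ) : ℤ) := by
      unfold xi crtMap
      simp only
      have e2 := Nat.div_add_mod (a * s + b * d) (d * s)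
      have e3 : ((a * s + b * d : ℕ) : ℝ) = ((d * s : ℕ) : ℝ) * (((a * s + b * d) / (d * s) : ℕ) : ℝ) +
          (((a * s + b * d) % (d * s) : ℕ) : ℝ) := by
        exact_mod_cast e2.symm
      have e4 : (a : ℝ) / d + b / s = ((a * s + b * d : ℕ) : ℝ) / ((d * s : ℕ) : ℝ) := by
        push_cast
        field_simp
      have e5 : (((d * s : ℕ) : ℕ) : ℝ) ≠ 0 := by positivity
      rw [e4, e3, Int.cast_natCast, add_div, mul_div_cancel_left₀ _ e5]
      ring
    rw [e1]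
    simp only [hF]
    rw [VV_period]
  rw [sum_congr rfl hval]
  have hinj : Set.InjOn crtMap (J : Set (ℕ × (Σ _ : ℕ, ℕ) × ℕ)) := by
    intro z hz w hw hzw
    obtain ⟨a1, a2, a3, a4, a5, a6, a7⟩ := hmem z hz
    obtain ⟨c1, c2, c3, c4, c5, c6, c7⟩ := hmem w hw
    obtain ⟨b1, b2, b3, b4⟩ := mem_SS a5
    obtain ⟨e1, e2, e3, e4⟩ := mem_SS c5
    obtain ⟨s, ⟨d, a⟩, b⟩ := z
    obtain ⟨s', ⟨d', a'⟩, b'⟩ := w
    simp only [crtMap] at *
    have h0 := congrArg Sigma.fst hzw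
    simp only at h0
    have hdd : d = d' := by
      apply Nat.dvd_antisymm
      · have : d ∣ d' * s' := h0 ▸ Dvd.intro _ rfl
        exact (coprime_of_SS c5 a1 a2).dvd_of_dvd_mul_right this
      · have : d' ∣ d * s := h0 ▸ Dvd.intro _ rfl
        exact (coprime_of_SS a5 c1 c2).dvd_of_dvd_mul_right this
    subst hdd
    have hss : s = s' := Nat.eq_of_mul_eq_mul_left a1 h0
    subst hss
    have h2 : (a * s + b * d) % (d * s) = (a' * s + b' * d) % (d * s) := by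
      have := hzw
      simp only [Sigma.mk.injEq, heq_eq_eq, true_and] at this
      exact this
    have h3 : a * s + b * d ≡ a' * s + b' * d [MOD d * s] := h2
    have hco := coprime_of_SS a5 a1 a2
    have h4 : a * s ≡ a' * s [MOD d] := by
      have h5 := h3.of_mul_right s
      have h6 : a * s + b * d ≡ a * s [MOD d] := by
        unfold Nat.ModEq
        simp
      have h7 : a' * s + b' * d ≡ a' * s [MOD d] := by
        unfold Nat.ModEq
        simp
      exact h6.symm.trans (h5.trans h7)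
    have h5 : a ≡ a' [MOD d] := Nat.ModEq.cancel_right_of_coprime hco h4
    have h6 : b * d ≡ b' * d [MOD s] := by
      have h5 := h3.of_mul_left d
      have h6 : a * s + b * d ≡ b * d [MOD s] := by
        unfold Nat.ModEq
        simp
      have h7 : a' * s + b' * d ≡ b' * d [MOD s] := by
        unfold Nat.ModEq
        simp
      exact h6.symm.trans (h5.trans h7)
    have h7 : b ≡ b' [MOD s] := Nat.ModEq.cancel_right_of_coprime hco.symm h6
    have h8 : a = a' := by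
      have := h5
      unfold Nat.ModEq at this
      rwa [Nat.mod_eq_of_lt a3, Nat.mod_eq_of_lt c3] at this
    have h9 : b = b' := by
      have := h7
      unfold Nat.ModEq at this
      rwa [Nat.mod_eq_of_lt a6, Nat.mod_eq_of_lt c6] at this
    subst h8
    subst h9
    rfl
  rw [← sum_image hinj (f := fun r => F (xi r))]
  apply sum_le_sum_of_subset_of_nonneg
  · intro y hy
    rw [mem_image] at hy
    obtain ⟨z, hz, rfl⟩ := hy
    obtain ⟨a1, a2, a3, a4, a5, a6, a7⟩ := hmem z hz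
    obtain ⟨b1, b2, b3, b4⟩ := mem_SS a5
    obtain ⟨s, ⟨d, a⟩, b⟩ := z
    simp only at a1 a2 a3 a4 a5 a6 a7 b1 b2 b3 b4 ⊢
    have hco := coprime_of_SS a5 a1 a2
    unfold Fr crtMap
    simp only [mem_sigma, mem_Icc, mem_filter, mem_range]
    refine ⟨⟨Nat.mul_pos a1 b1, (Nat.mul_le_mul a2 b2).trans hR⟩,
      Nat.mod_lt _ (Nat.mul_pos a1 b1), ?_⟩
    have h1 : Nat.Coprime (a * s + b * d) (d * s) := by
      apply Nat.Coprime.mul_right
      · have : Nat.Coprime (a * s) d := Nat.Coprime.mul_left a4 hco.symm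
        rw [Nat.coprime_add_mul_right_left]
        exact this
      · have : Nat.Coprime (b * d) s := Nat.Coprime.mul_left a7 hco
        rw [add_comm, Nat.coprime_add_mul_right_left]
        exact this
    have h2 : Nat.gcd ((a * s + b * d) % (d * s)) (d * s) = 1 := by
      rw [← Nat.gcd_rec, Nat.gcd_comm]
      exact h1
    exact h2
  · intro _ _ _
    positivity

end Pool.Agent.W110.HV
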