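import Pool.Agent.W110.HV.Rama
import Pool.Agent.Helper923.HMertens

/-!
The number of moduli gained in the inequality of `Rama`.
-/

open Finset

namespace Pool.Agent.W110.HV

open Pool.Agent.Helper112

lemma totient_prod (A : Finset ℕ) (hA : ∀ p ∈ A, p.Prime) :
    (Nat.totient (∏ p ∈ A, p) : ℝ) = ∏ p ∈ A, ((p : ℝ) - 1) := by
  classical
  induction A using Finset.induction_on with
  | empty => simp
  | insert p A hp ih =>
    rw [prod_insert hp, prod_insert hp, Nat.totient_mul]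
    · have h1 := hA p (mem_insert_self _ _)
      rw [Nat.totient_prime h1]
      push_cast
      rw [ih fun q hq => hA q (mem_insert_of_mem hq), Nat.cast_sub h1.one_le]
      push_cast
      ring
    · apply Nat.Coprime.prod_right
      intro q hq
      rw [Nat.coprime_primes (hA p (mem_insert_self _ _)) (hA q (mem_insert_of_mem hq))]
      rintro rfl
      exact hp hq

lemma split_LL (P Z : ℕ) : H343.LL 0 Z ≤
    (∏ p ∈ (Icc 1 P).filter Nat.Prime, (1 + 1 / ((p : ℝ) - 1))) *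
      ∑ s ∈ SS P Z, (1 / (Nat.totient s : ℝ)) := by
  classical
  set Q := (Icc 1 P).filter Nat.Prime with hQ
  rw [prod_one_add, sum_mul_sum, ← sum_product']
  set A : ℕ → Finset ℕ := fun n => n.primeFactors.filter (fun p => p ≤ P) with hA
  set B : ℕ → Finset ℕ := fun n => n.primeFactors.filter (fun p => ¬ p ≤ P) with hB
  set g : ℕ → Finset ℕ × ℕ := fun n => (A n, ∏ p ∈ B n, p) with hg
  have hprime : ∀ n : ℕ, ∀ p ∈ n.primeFactors, p.Prime := fun n p hp => Nat.prime_of_mem_primeFactors hp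
  have hn : ∀ n ∈ H343.Mod 0 Z, (∏ p ∈ A n, p) * (∏ p ∈ B n, p) = n := by
    intro n hn
    unfold H343.Mod at hn
    rw [mem_filter] at hn
    rw [hA, hB, prod_filter_mul_prod_filter_not]
    exact Nat.prod_primeFactors_of_squarefree hn.2
  have hcop : ∀ n, Nat.Coprime (∏ p ∈ A n, p) (∏ p ∈ B n, p) := by
    intro n
    apply Nat.Coprime.prod_left
    intro p hp
    apply Nat.Coprime.prod_right
    intro r hr
    rw [hA, mem_filter] at hp
    rw [hB, mem_filter] at hr
    rw [Nat.coprime_primes (hprime n p hp.1) (hprime n r hr.1)]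
    rintro rfl
    exact hr.2 hp.2
  have hinj : Set.InjOn g (H343.Mod 0 Z : Set ℕ) := by
    intro n hn1 m hm1 h
    simp only [hg, Prod.mk.injEq] at h
    rw [← hn n hn1, ← hn m hm1, h.1, h.2]
  have hφ : ∀ n ∈ H343.Mod 0 Z, (1 : ℝ) / Nat.totient n =
      (fun z : Finset ℕ × ℕ => (∏ p ∈ z.1, 1 / ((p : ℝ) - 1)) * (1 / (Nat.totient z.2 : ℝ))) (g n) := by
    intro n hn1
    simp only [hg]
    rw [prod_div_distrib, prod_const_one, ← totient_prod (A n) (fun p hp => by
      rw [hA, mem_filter] at hp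
      exact hprime n p hp.1)]
    conv_lhs => rw [← hn n hn1]
    rw [Nat.totient_mul (hcop n)]
    push_cast
    rw [one_div_mul_one_div]
  unfold H343.LL
  rw [sum_congr rfl hφ]
  rw [← sum_image (f := fun z : Finset ℕ × ℕ =>
    (∏ p ∈ z.1, 1 / ((p : ℝ) - 1)) * (1 / (Nat.totient z.2 : ℝ))) hinj]
  apply sum_le_sum_of_subset_of_nonneg
  · intro z hz
    rw [mem_image] at hz
    obtain ⟨n, hn1, rfl⟩ := hz
    rw [mem_product, mem_powerset]
    have hn2 := hn1
    unfold H343.Mod at hn2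
    rw [mem_filter, mem_Ioc] at hn2
    constructor
    · intro p hp
      simp only [hg, hA, mem_filter] at hp
      rw [hQ, mem_filter, mem_Icc]
      exact ⟨⟨(hprime n p hp.1).one_le, hp.2⟩, hprime n p hp.1⟩
    · unfold SS
      have hdvd : (∏ p ∈ B n, p) ∣ n := by
        conv_rhs => rw [← hn n hn1]
        exact Dvd.intro_left _ rfl
      have hpos : 0 < ∏ p ∈ B n, p := Nat.pos_of_dvd_of_pos hdvd hn2.1.1
      rw [mem_filter]
      refine ⟨?_, ?_⟩
      · unfold H343.Mod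
        rw [mem_filter, mem_Ioc]
        exact ⟨⟨hpos, (Nat.le_of_dvd hn2.1.1 hdvd).trans hn2.1.2⟩, hn2.2.squarefree_of_dvd hdvd⟩
      · intro p hp
        have hpp := Nat.prime_of_mem_primeFactors hp
        have h1 : p ∣ ∏ p ∈ B n, p := Nat.dvd_of_mem_primeFactors hp
        rw [hpp.prime.dvd_finset_prod_iff] at h1
        obtain ⟨r, hr, hpr⟩ := h1
        rw [hB, mem_filter] at hr
        have h2 := (Nat.prime_dvd_prime_iff_eq hpp (hprime n r hr.1)).1 hpr
        subst h2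
        have := hr.2
        omega
  · intro z hz _
    rw [mem_product, mem_powerset] at hz
    apply mul_nonneg
    · apply prod_nonneg
      intro p hp
      have h1 := hz.1 hp
      rw [hQ, mem_filter] at h1
      have h2 : (2 : ℝ) ≤ p := by exact_mod_cast h1.2.two_le
      apply div_nonneg zero_le_one
      linarith
    · positivity

/-- Mertens: the product over the primes up to `P` -/
lemma mertens_prod : ∃ C : ℝ, 0 < C ∧ ∀ P : ℕ, 2 ≤ P →
    ∏ p ∈ (Icc 1 P).filter Nat.Prime, (1 + 1 / ((p : ℝ) - 1)) ≤ C * Real.log P := by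
  obtain ⟨C, hC0, hC⟩ := Pool.Agent.Helper923.HMertens.mertens_ratio
  have hl2 : 0 < Real.log 2 := Real.log_pos (by norm_num)
  refine ⟨Real.exp (2 + C / Real.log 2) / Real.log 2, by positivity, fun P hP => ?_⟩
  have hPr : (2 : ℝ) ≤ P := by exact_mod_cast hP
  have hlP : 0 < Real.log P := Real.log_pos (by linarith)
  have h2 : ∀ p ∈ (Icc 1 P).filter Nat.Prime, (2 : ℝ) ≤ p := by
    intro p hp
    rw [mem_filter] at hp
    exact_mod_cast hp.2.two_le
  have h1 : ∏ p ∈ (Icc 1 P).filter Nat.Prime, (1 + 1 / ((p : ℝ) - 1)) ≤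
      Real.exp (∑ p ∈ (Icc 1 P).filter Nat.Prime, 1 / ((p : ℝ) - 1)) := by
    rw [Real.exp_sum]
    apply prod_le_prod
    · intro p hp
      have := h2 p hp
      have : 0 ≤ 1 / ((p : ℝ) - 1) := div_nonneg zero_le_one (by linarith)
      linarith
    · intro p _
      have := Real.add_one_le_exp (1 / ((p : ℝ) - 1))
      linarith
  have h3 : ∑ p ∈ (Icc 1 P).filter Nat.Prime, 1 / ((p : ℝ) - 1) ≤
      ∑ p ∈ (Ioc 2 P).filter Nat.Prime, (1 : ℝ) / p + 2 := by
    have e1 : (Icc 1 P).filter Nat.Prime = insert 2 ((Ioc 2 P).filter Nat.Prime) := by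
      ext p
      simp only [mem_filter, mem_Icc, mem_insert, mem_Ioc]
      constructor
      · rintro ⟨⟨a1, a2⟩, a3⟩
        rcases a3.two_le.eq_or_lt with h | h
        · exact Or.inl h.symm
        · exact Or.inr ⟨⟨h, a2⟩, a3⟩
      · rintro (rfl | ⟨⟨a1, a2⟩, a3⟩)
        · exact ⟨⟨by norm_num, hP⟩, Nat.prime_two⟩
        · exact ⟨⟨by omega, a2⟩, a3⟩
    rw [e1, sum_insert (by simp)]
    have e2 : ∀ p ∈ (Ioc 2 P).filter Nat.Prime, 1 / ((p : ℝ) - 1) =
        (1 : ℝ) / p + (1 / ((p : ℝ) - 1) - 1 / p) := by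
      intro p _
      ring
    rw [sum_congr rfl e2, sum_add_distrib]
    have e3 : ∑ p ∈ (Ioc 2 P).filter Nat.Prime, (1 / ((p : ℝ) - 1) - 1 / p) ≤
        ∑ p ∈ Ioc 2 P, (1 / ((p : ℝ) - 1) - 1 / p) := by
      apply sum_le_sum_of_subset_of_nonneg (filter_subset _ _)
      intro p hp _
      rw [mem_Ioc] at hp
      have hp2 : (2 : ℝ) < p := by exact_mod_cast hp.1
      have : 1 / (p : ℝ) ≤ 1 / ((p : ℝ) - 1) :=
        one_div_le_one_div_of_le (by linarith) (by linarith)
      linarith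
    have e4 : ∀ n : ℕ, 2 ≤ n → ∑ p ∈ Ioc 2 n, (1 / ((p : ℝ) - 1) - 1 / p) = 1 / 2 - 1 / n := by
      intro n hn
      induction n, hn using Nat.le_induction with
      | base => simp
      | succ n hn ih =>
        rw [sum_Ioc_succ_top (by omega), ih]
        push_cast
        ring
    rw [e4 P hP] at e3
    have e5 : (0 : ℝ) ≤ 1 / P := by positivity
    have e6 : (1 : ℝ) / ((2 : ℕ) - 1) = 1 := by norm_num
    push_cast at e6 ⊢
    linarith
  have h4 := (abs_le.1 (hC 2 P le_rfl hP)).2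
  push_cast at h4
  refine h1.trans ?_
  have h5 : ∑ p ∈ (Icc 1 P).filter Nat.Prime, 1 / ((p : ℝ) - 1) ≤
      (2 + C / Real.log 2) + Real.log (Real.log P / Real.log 2) := by linarith
  refine (Real.exp_le_exp.2 h5).trans (le_of_eq ?_)
  rw [Real.exp_add, Real.exp_log (by positivity)]
  ring

/-- Ramaré's inequality for a window, sequences without prime factors up to `R` -/
theorem ramare : ∃ C : ℝ, 0 < C ∧ ∀ (P Z R H : ℕ), 2 ≤ P → 1 ≤ Z → P * Z ≤ R → ∀ (u : ℤ → ℂ) (x : ℤ),
    (∀ n : ℤ, u n ≠ 0 → ∀ s : ℕ, 1 ≤ s → s ≤ R → IsCoprime n (s : ℤ)) →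
    Real.log Z * ∑ r ∈ Fr P, ‖VV H u x (xi r)‖ ^ 2 ≤
      C * Real.log P * (H + (R : ℝ) ^ 2) * ∑ i ∈ range H, ‖u (x + i)‖ ^ 2 := by
  obtain ⟨C, hC, h⟩ := mertens_prod
  refine ⟨C * 6, by positivity, fun P Z R H hP hZ hR u x hu => ?_⟩
  have h1 := expand P Z R H hR u x hu
  have h2 := window_ls R H u x
  have h3 := (H343.PhiSum.totient_lower Z hZ).trans (split_LL P Z)
  have h4 := h P hP
  have hPr : (2 : ℝ) ≤ P := by exact_mod_cast hP
  have hlP : 0 < Real.log P := Real.log_pos (by linarith)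
  set G := ∑ s ∈ SS P Z, (1 / (Nat.totient s : ℝ)) with hG
  have hG0 : 0 ≤ G := by positivity
  set A := ∑ r ∈ Fr P, ‖VV H u x (xi r)‖ ^ 2 with hA
  have hA0 : 0 ≤ A := by positivity
  set U := ∑ i ∈ range H, ‖u (x + i)‖ ^ 2 with hU
  calc Real.log Z * A ≤ ((∏ p ∈ (Icc 1 P).filter Nat.Prime, (1 + 1 / ((p : ℝ) - 1))) * G) * A :=
        mul_le_mul_of_nonneg_right h3 hA0
    _ ≤ ((C * Real.log P) * G) * A := by
        gcongr
    _ = (C * Real.log P) * (G * A) := by ring
    _ ≤ (C * Real.log P) * (6 * (H + (R : ℝ) ^ 2) * U) :=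
        mul_le_mul_of_nonneg_left (h1.trans h2) (by positivity)
    _ = _ := by ring

end Pool.Agent.W110.HV
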