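import Pool.Agent.W110.HV.Avg
import Pool.Agent.Helper923.HMertens

/-!
The `y`-smooth part of a modulus.
-/

open Finset

namespace Pool.Agent.W110.HV

open Pool.Agent.Helper112

/-- the `y`-smooth part of `q` -/
def sm (y q : ℕ) : ℕ := ∏ p ∈ q.primeFactors.filter (fun p => p ≤ y), p ^ q.factorization p

/-- the `y`-rough part of `q` -/
def rg (y q : ℕ) : ℕ := ∏ p ∈ q.primeFactors.filter (fun p => ¬ p ≤ y), p ^ q.factorization p

lemma sm_mul_rg (y q : ℕ) (hq : q ≠ 0) : sm y q * rg y q = q := by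
  unfold sm rg
  rw [prod_filter_mul_prod_filter_not]
  exact Nat.prod_factorization_pow_eq_self hq

lemma sm_pos (y q : ℕ) : 0 < sm y q := by
  unfold sm
  apply prod_pos
  intro p hp
  rw [mem_filter, Nat.mem_primeFactors] at hp
  exact pow_pos hp.1.1.pos _

lemma rg_pos (y q : ℕ) : 0 < rg y q := by
  unfold rg
  apply prod_pos
  intro p hp
  rw [mem_filter, Nat.mem_primeFactors] at hp
  exact pow_pos hp.1.1.pos _

lemma prime_dvd_rg {y q p : ℕ} (hp : p.Prime) (h : p ∣ rg y q) : y < p := by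
  unfold rg at h
  obtain ⟨r, hr, hpr⟩ := (hp.prime.dvd_finsetProd_iff _).1 h
  rw [mem_filter, Nat.mem_primeFactors] at hr
  have h1 : p ∣ r := hp.dvd_of_dvd_pow hpr
  have h2 : p = r := (Nat.prime_dvd_prime_iff_eq hp hr.1.1).1 h1
  subst h2
  omega

lemma dvd_sm {y q d : ℕ} (hq : q ≠ 0) (hd : d ∣ q) (hdy : d ≤ y) : d ∣ sm y q := by
  have h1 : Nat.Coprime d (rg y q) := by
    rw [Nat.coprime_iff_gcd_eq_one]
    by_contra h
    obtain ⟨p, hp, hpg⟩ := Nat.exists_prime_and_dvd h
    have h2 : p ∣ d := hpg.trans (Nat.gcd_dvd_left _ _)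
    have h3 : p ∣ rg y q := hpg.trans (Nat.gcd_dvd_right _ _)
    have h4 := prime_dvd_rg hp h3
    have h5 : p ≤ d := Nat.le_of_dvd (Nat.pos_of_dvd_of_pos hd (by omega)) h2
    omega
  have h2 : d ∣ sm y q * rg y q := by rw [sm_mul_rg y q hq]; exact hd
  exact Nat.Coprime.dvd_of_dvd_mul_right h1 h2

lemma sm_dvd (y q : ℕ) (hq : q ≠ 0) : sm y q ∣ q := ⟨rg y q, (sm_mul_rg y q hq).symm⟩

lemma den_gt {y q b : ℕ} (hq : q ≠ 0) (hb : ¬ rg y q ∣ b) : y < q / Nat.gcd b q := by
  by_contra h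
  push Not at h
  apply hb
  have hg : 0 < Nat.gcd b q := Nat.gcd_pos_of_pos_right _ (by omega)
  have h1 : q / Nat.gcd b q ∣ q := Nat.div_dvd_of_dvd (Nat.gcd_dvd_right b q)
  obtain ⟨k, hk⟩ := dvd_sm hq h1 h
  have h2 : q = (q / Nat.gcd b q) * Nat.gcd b q := (Nat.div_mul_cancel (Nat.gcd_dvd_right b q)).symm
  have h3 := sm_mul_rg y q hq
  rw [hk] at h3
  have h4 : 0 < q / Nat.gcd b q := Nat.div_pos (Nat.gcd_le_right _ (by omega)) hg
  have h5 : (q / Nat.gcd b q) * (k * rg y q) = (q / Nat.gcd b q) * Nat.gcd b q := by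
    rw [← h2, ← mul_assoc]
    exact h3
  have h6 : k * rg y q = Nat.gcd b q := Nat.eq_of_mul_eq_mul_left h4 h5
  exact (Dvd.intro_left k h6).trans (Nat.gcd_dvd_left b q)

lemma log_sm (y q : ℕ) : Real.log (sm y q) =
    ∑ p ∈ q.primeFactors.filter (fun p => p ≤ y), (q.factorization p : ℝ) * Real.log p := by
  unfold sm
  push_cast
  rw [Real.log_prod]
  · refine sum_congr rfl fun p _ => ?_
    rw [Real.log_pow]
  · intro p hp
    rw [mem_filter, Nat.mem_primeFactors] at hp
    have : (p : ℝ) ≠ 0 := by exact_mod_cast hp.1.1.ne_zero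
    positivity

lemma sum_fact (K p : ℕ) (hp : p.Prime) :
    ∑ q ∈ Ioc K (2 * K), (q.factorization p : ℝ) ≤ 4 * K / p := by
  have hp2 : (2 : ℝ) ≤ p := by exact_mod_cast hp.two_le
  have h1 : ∀ q ∈ Ioc K (2 * K), (q.factorization p : ℝ) ≤
      ∑ a ∈ Ico 1 (2 * K + 1), if p ^ a ∣ q then (1 : ℝ) else 0 := by
    intro q hq
    rw [mem_Ioc] at hq
    rw [Nat.factorization_eq_card_pow_dvd q hp, sum_boole]
    have : (Ico 1 q).filter (fun i => p ^ i ∣ q) ⊆ (Ico 1 (2 * K + 1)).filter (fun i => p ^ i ∣ q) := by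
      apply filter_subset_filter
      apply Ico_subset_Ico_right
      omega
    exact_mod_cast card_le_card this
  refine (sum_le_sum h1).trans ?_
  rw [sum_comm]
  calc ∑ a ∈ Ico 1 (2 * K + 1), ∑ q ∈ Ioc K (2 * K), (if p ^ a ∣ q then (1 : ℝ) else 0)
      ≤ ∑ a ∈ Ico 1 (2 * K + 1), 2 * K * ((1 / (p : ℝ)) ^ a) := by
        apply sum_le_sum
        intro a _
        rw [sum_boole]
        refine (dvd_count K (p ^ a)).trans (le_of_eq ?_)
        push_cast
        rw [one_div, inv_pow]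
        rfl
    _ = 2 * K * ∑ a ∈ Ico 1 (2 * K + 1), (1 / (p : ℝ)) ^ a := by rw [mul_sum]
    _ ≤ 2 * K * ((1 / (p : ℝ)) ^ 1 / (1 - 1 / (p : ℝ))) := by
        apply mul_le_mul_of_nonneg_left _ (by positivity)
        apply geom_sum_Ico_le_of_lt_one (by positivity)
        rw [div_lt_one (by linarith)]
        linarith
    _ ≤ 2 * K * (2 / p) := by
        apply mul_le_mul_of_nonneg_left _ (by positivity)
        have h2 : (1 : ℝ) / p ≤ 1 / 2 := one_div_le_one_div_of_le (by norm_num) hp2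
        rw [pow_one, div_le_div_iff₀ (by linarith) (by linarith)]
        have h3 : (1 : ℝ) / p * p = 1 := by field_simp
        rw [h3]
        linarith
    _ = _ := by ring

/-- few moduli have a large smooth part -/
theorem sm_count : ∃ C : ℝ, 0 < C ∧ ∀ (K y P : ℕ), 2 ≤ y → 2 ≤ P →
    ((((Ioc K (2 * K)).filter (fun q => P < sm y q)).card : ℕ) : ℝ) * Real.log P ≤
      C * Real.log y * K := by
  obtain ⟨C0, hC0⟩ := Pool.Agent.Helper923.HMertens.mertens_log
  have hl2 : 0 < Real.log 2 := Real.log_pos (by norm_num)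
  refine ⟨4 * (1 + |C0| / Real.log 2), by positivity, fun K y P hy hP => ?_⟩
  have hly : Real.log 2 ≤ Real.log y := Real.log_le_log (by norm_num) (by exact_mod_cast hy)
  have hPr : (2 : ℝ) ≤ P := by exact_mod_cast hP
  have hlP : 0 < Real.log P := Real.log_pos (by linarith)
  have hM := hC0 y (by omega)
  have hM2 := (abs_le.1 hM).2
  have h0 : ∑ q ∈ Ioc K (2 * K), Real.log (sm y q) ≤ 4 * (1 + |C0| / Real.log 2) * Real.log y * K := by
    have h1 : ∀ q ∈ Ioc K (2 * K), Real.log (sm y q) ≤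
        ∑ p ∈ (Icc 1 y).filter Nat.Prime, (q.factorization p : ℝ) * Real.log p := by
      intro q _
      rw [log_sm]
      apply sum_le_sum_of_subset_of_nonneg
      · intro p hp
        rw [mem_filter, Nat.mem_primeFactors] at hp
        rw [mem_filter, mem_Icc]
        exact ⟨⟨hp.1.1.one_lt.le, hp.2⟩, hp.1.1⟩
      · intro p _ _
        have := Real.log_natCast_nonneg p
        positivity
    refine (sum_le_sum h1).trans ?_
    rw [sum_comm]
    calc ∑ p ∈ (Icc 1 y).filter Nat.Prime, ∑ q ∈ Ioc K (2 * K), (q.factorization p : ℝ) * Real.log p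
        ≤ ∑ p ∈ (Icc 1 y).filter Nat.Prime, 4 * K * (Real.log p / p) := by
          apply sum_le_sum
          intro p hp
          rw [mem_filter] at hp
          rw [← sum_mul]
          have := mul_le_mul_of_nonneg_right (sum_fact K p hp.2) (Real.log_natCast_nonneg p)
          refine this.trans (le_of_eq ?_)
          ring
      _ = 4 * K * ∑ p ∈ (Icc 1 y).filter Nat.Prime, Real.log p / p := by rw [mul_sum]
      _ ≤ 4 * K * (Real.log y + C0) := by
          apply mul_le_mul_of_nonneg_left (by linarith) (by positivity)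
      _ ≤ 4 * K * (Real.log y + |C0| / Real.log 2 * Real.log y) := by
          apply mul_le_mul_of_nonneg_left _ (by positivity)
          have h2 : C0 ≤ |C0| := le_abs_self _
          have h3 : |C0| ≤ |C0| / Real.log 2 * Real.log y := by
            rw [div_mul_eq_mul_div, le_div_iff₀ hl2]
            exact mul_le_mul_of_nonneg_left hly (abs_nonneg _)
          linarith
      _ = _ := by ring
  refine le_trans ?_ h0
  calc ((((Ioc K (2 * K)).filter (fun q => P < sm y q)).card : ℕ) : ℝ) * Real.log P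
      = ∑ q ∈ (Ioc K (2 * K)).filter (fun q => P < sm y q), Real.log P := by
        rw [sum_const, nsmul_eq_mul]
    _ ≤ ∑ q ∈ (Ioc K (2 * K)).filter (fun q => P < sm y q), Real.log (sm y q) := by
        apply sum_le_sum
        intro q hq
        rw [mem_filter] at hq
        apply Real.log_le_log (by linarith)
        exact_mod_cast hq.2.le
    _ ≤ _ := by
        apply sum_le_sum_of_subset_of_nonneg (filter_subset _ _)
        intro q _ _
        exact Real.log_natCast_nonneg _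

lemma one_sub_prod (T : Finset ℕ) (x : ℕ → ℝ) (hx : ∀ p ∈ T, 0 ≤ x p ∧ x p ≤ 1) :
    1 - ∏ p ∈ T, (1 - x p) ≤ ∑ p ∈ T, x p := by
  classical
  induction T using Finset.induction_on with
  | empty => simp
  | insert a s ha ih =>
    rw [prod_insert ha, sum_insert ha]
    have h1 := ih (fun p hp => hx p (mem_insert_of_mem hp))
    have h2 := hx a (mem_insert_self a s)
    have h3 : 0 ≤ ∏ p ∈ s, (1 - x p) := prod_nonneg fun p hp => by
      have := hx p (mem_insert_of_mem hp)
      linarith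
    have h4 : ∏ p ∈ s, (1 - x p) ≤ 1 := prod_le_one (fun p hp => by
      have := hx p (mem_insert_of_mem hp)
      linarith) (fun p hp => by
      have := hx p (mem_insert_of_mem hp)
      linarith)
    nlinarith

lemma totient_real (n : ℕ) : (Nat.totient n : ℝ) = n * ∏ p ∈ n.primeFactors, (1 - (p : ℝ)⁻¹) := by
  have h := Nat.totient_eq_mul_prod_factors n
  have h2 : (((Nat.totient n : ℚ)) : ℝ) = ((n * ∏ p ∈ n.primeFactors, (1 - (p : ℚ)⁻¹) : ℚ) : ℝ) := by
    rw [h]
  push_cast at h2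
  exact h2

/-- the totient ratios of `q` and of its smooth part -/
lemma ratio_diff (y q : ℕ) (hq : q ≠ 0) (D : ℝ) (hD : (q.divisors.card : ℝ) ≤ D) :
    0 ≤ (Nat.totient (sm y q) : ℝ) / (sm y q : ℝ) - (Nat.totient q : ℝ) / q ∧
    (Nat.totient (sm y q) : ℝ) / (sm y q : ℝ) - (Nat.totient q : ℝ) / q ≤ D / (y + 1) := by
  have hs := sm_pos y q
  have hsr : (sm y q : ℝ) ≠ 0 := by positivity
  have hqr : (q : ℝ) ≠ 0 := by exact_mod_cast hq
  have e1 : (Nat.totient (sm y q) : ℝ) / (sm y q : ℝ) = ∏ p ∈ (sm y q).primeFactors, (1 - (p : ℝ)⁻¹) := by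
    rw [totient_real]
    field_simp
  have e2 : (Nat.totient q : ℝ) / q = ∏ p ∈ q.primeFactors, (1 - (p : ℝ)⁻¹) := by
    rw [totient_real]
    field_simp
  have hsub : (sm y q).primeFactors ⊆ q.primeFactors := Nat.primeFactors_mono (sm_dvd y q hq) hq
  have e3 : ∏ p ∈ q.primeFactors, (1 - (p : ℝ)⁻¹) =
      (∏ p ∈ q.primeFactors \ (sm y q).primeFactors, (1 - (p : ℝ)⁻¹)) *
        ∏ p ∈ (sm y q).primeFactors, (1 - (p : ℝ)⁻¹) := (prod_sdiff hsub).symm
  rw [e1, e2, e3]
  have hx : ∀ p ∈ q.primeFactors, 0 ≤ (p : ℝ)⁻¹ ∧ (p : ℝ)⁻¹ ≤ 1 := by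
    intro p hp
    rw [Nat.mem_primeFactors] at hp
    refine ⟨by positivity, ?_⟩
    apply inv_le_one_of_one_le₀
    exact_mod_cast hp.1.one_lt.le
  set a := ∏ p ∈ (sm y q).primeFactors, (1 - (p : ℝ)⁻¹) with ha
  set b := ∏ p ∈ q.primeFactors \ (sm y q).primeFactors, (1 - (p : ℝ)⁻¹) with hb
  have ha0 : 0 ≤ a := prod_nonneg fun p hp => by linarith [(hx p (hsub hp)).2]
  have ha1 : a ≤ 1 := prod_le_one (fun p hp => by linarith [(hx p (hsub hp)).2])
    (fun p hp => by linarith [(hx p (hsub hp)).1])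
  have hb1 : b ≤ 1 := prod_le_one (fun p hp => by linarith [(hx p (mem_sdiff.1 hp).1).2])
    (fun p hp => by linarith [(hx p (mem_sdiff.1 hp).1).1])
  have h1 : 1 - b ≤ ∑ p ∈ q.primeFactors \ (sm y q).primeFactors, (p : ℝ)⁻¹ :=
    one_sub_prod _ _ (fun p hp => hx p (mem_sdiff.1 hp).1)
  have h2 : ∑ p ∈ q.primeFactors \ (sm y q).primeFactors, (p : ℝ)⁻¹ ≤ D / (y + 1) := by
    calc ∑ p ∈ q.primeFactors \ (sm y q).primeFactors, (p : ℝ)⁻¹
        ≤ ∑ p ∈ q.primeFactors \ (sm y q).primeFactors, 1 / ((y : ℝ) + 1) := by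
          apply sum_le_sum
          intro p hp
          rw [mem_sdiff, Nat.mem_primeFactors, Nat.mem_primeFactors] at hp
          have h3 : y < p := by
            by_contra hc
            push Not at hc
            exact hp.2 ⟨hp.1.1, dvd_sm hq hp.1.2.1 hc, hs.ne'⟩
          rw [← one_div]
          apply one_div_le_one_div_of_le (by positivity)
          exact_mod_cast h3
      _ = ((q.primeFactors \ (sm y q).primeFactors).card : ℝ) * (1 / ((y : ℝ) + 1)) := by
          rw [sum_const, nsmul_eq_mul]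
      _ ≤ D * (1 / ((y : ℝ) + 1)) := by
          apply mul_le_mul_of_nonneg_right _ (by positivity)
          refine le_trans ?_ hD
          have : q.primeFactors \ (sm y q).primeFactors ⊆ q.divisors := by
            intro p hp
            rw [mem_sdiff, Nat.mem_primeFactors] at hp
            exact Nat.mem_divisors.2 ⟨hp.1.2.1, hq⟩
          exact_mod_cast card_le_card this
      _ = _ := by ring
  constructor
  · nlinarith
  · nlinarith

end Pool.Agent.W110.HV
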