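import Pool.Agent.W110.HV.Kernel
import Pool.Agent.H373R2.T7.Minor

/-!
Vinogradov's estimate with a power saving.
-/

open Finset

namespace Pool.Agent.W110.HV

open Pool.Agent.Helper112

lemma ee_eq (x : ℝ) : Pool.Agent.H807R2.Dav.ee x = ee x := by
  unfold Pool.Agent.H807R2.Dav.ee ee
  congr 1
  ring

lemma ev_pow (c : ℝ) (k : ℕ) (a : ℝ) (ha : 0 < a) : ∃ N0 : ℕ, ∀ N : ℕ, N0 ≤ N →
    c * Real.log N ^ k ≤ (N : ℝ) ^ a := by
  have h := (isLittleO_log_rpow_rpow_atTop (k : ℝ) ha).bound (show 0 < 1 / (|c| + 1) by positivity)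
  have h2 := (tendsto_natCast_atTop_atTop (R := ℝ)).eventually h
  obtain ⟨x0, hx0⟩ := Filter.eventually_atTop.1 h2
  refine ⟨max x0 1, fun x hx => ?_⟩
  have h3 := hx0 x (le_trans (le_max_left _ _) hx)
  have hx1 : (1 : ℝ) ≤ x := by exact_mod_cast (le_trans (le_max_right _ _) hx)
  have hl : 0 ≤ Real.log x := Real.log_nonneg hx1
  rw [Real.norm_of_nonneg (by positivity), Real.norm_of_nonneg (by positivity), Real.rpow_natCast] at h3
  have h4 : c ≤ |c| + 1 := by have := le_abs_self c; linarith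
  calc c * Real.log x ^ k ≤ (|c| + 1) * Real.log x ^ k := mul_le_mul_of_nonneg_right h4 (by positivity)
    _ ≤ (|c| + 1) * (1 / (|c| + 1) * (x : ℝ) ^ a) := mul_le_mul_of_nonneg_left h3 (by positivity)
    _ = _ := by field_simp

/-- dyadic decomposition -/
lemma dyadic_sum (E : ℕ → ℂ) (y0 N : ℕ) (T B : ℝ) (hy0 : 1 ≤ y0) (hB : 0 ≤ B)
    (hT : ∀ y ≤ y0, y ≤ N → ‖∑ n ∈ Icc 1 y, E n‖ ≤ T)
    (hblock : ∀ M M' : ℕ, y0 < M' → M' ≤ N → M = (M' + 1) / 2 → ‖∑ n ∈ Ioc M M', E n‖ ≤ B) :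
    ∀ J : ℕ, ∀ y : ℕ, y ≤ 2 ^ J → y ≤ N → ‖∑ n ∈ Icc 1 y, E n‖ ≤ T + J * B := by
  intro J
  induction J with
  | zero =>
    intro y hy hyN
    have h1 : y ≤ 1 := by simpa using hy
    have := hT y (h1.trans hy0) hyN
    simpa using this
  | succ J ih =>
    intro y hy hyN
    rcases le_or_gt y y0 with h | h
    · refine (hT y h hyN).trans ?_
      have : (0 : ℝ) ≤ ((J + 1 : ℕ) : ℝ) * B := by positivity
      linarith
    · rw [pow_succ] at hy
      have h1 := ih ((y + 1) / 2) (by omega) (by omega)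
      have h2 := hblock ((y + 1) / 2) y h hyN rfl
      have h5 : ∑ n ∈ Icc 1 y, E n = ∑ n ∈ Icc 1 ((y + 1) / 2), E n + ∑ n ∈ Ioc ((y + 1) / 2) y, E n := by
        rw [← sum_union (by
          rw [disjoint_left]; intro n hn hn'
          rw [mem_Icc] at hn; rw [mem_Ioc] at hn'; omega)]
        congr 1
        ext n
        rw [mem_union, mem_Icc, mem_Icc, mem_Ioc]
        omega
      rw [h5]
      have h6 := norm_add_le (∑ n ∈ Icc 1 ((y + 1) / 2), E n) (∑ n ∈ Ioc ((y + 1) / 2) y, E n)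
      push_cast
      linarith

theorem vino (η : ℝ) (hη : 0 < η) (hη1 : η ≤ 1 / 10) : ∃ N0 : ℕ, ∀ N : ℕ, N0 ≤ N → ∀ q : ℕ,
    (N : ℝ) ^ η ≤ q → (q : ℝ) ≤ (N : ℝ) ^ (1 - η) → ∀ c : ℤ, IsCoprime c (q : ℤ) → ∀ α : ℝ,
    |α - c / q| ≤ 1 / (q : ℝ) ^ 2 →
    ‖∑ n ∈ Icc 1 N, ((ArithmeticFunction.vonMangoldt n : ℝ) : ℂ) * ee ((n : ℝ) * α)‖ ≤
      (N : ℝ) ^ (1 - 9 / 20 * η) := by
  obtain ⟨n1, h1⟩ := ev_pow 210002 7 (η / 20) (by positivity)
  obtain ⟨n2, h2⟩ := Pool.Agent.H373R2.T7.ev_L' 10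
  refine ⟨max (max n1 n2) 32, fun N hN q hq1 hq2 c hcop α hα => ?_⟩
  have hNn1 : n1 ≤ N := le_trans (le_trans (le_max_left _ _) (le_max_left _ _)) hN
  have hNn2 : n2 ≤ N := le_trans (le_trans (le_max_right _ _) (le_max_left _ _)) hN
  have hN32 : 32 ≤ N := le_trans (le_max_right _ _) hN
  have hNr : (32 : ℝ) ≤ N := by exact_mod_cast hN32
  have hN0 : (0 : ℝ) < N := by linarith
  have hN1 : (1 : ℝ) ≤ N := by linarith
  set ℓ := Real.log N with hℓ
  have hℓ10 : 10 ≤ ℓ := h2 N hNn2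
  have hA := h1 N hNn1
  have hq0 : (0 : ℝ) < q := lt_of_lt_of_le (by positivity) hq1
  have hqn : 1 ≤ q := by exact_mod_cast hq0
  have hqr : (1 : ℝ) ≤ q := by exact_mod_cast hqn
  have hqN : (q : ℝ) ≤ N := hq2.trans (by
    calc (N : ℝ) ^ (1 - η) ≤ (N : ℝ) ^ (1 : ℝ) := Real.rpow_le_rpow_of_exponent_le hN1 (by linarith)
      _ = N := Real.rpow_one _)
  have hlq : Real.log q ≤ ℓ := Real.log_le_log hq0 hqN
  have hlq0 : 0 ≤ Real.log q := Real.log_nonneg hqr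
  set X : ℝ := (N : ℝ) ^ (1 - η) with hX
  set Y : ℝ := (N : ℝ) ^ (1 - η / 2) with hY
  have hX0 : 0 < X := by positivity
  have hY0 : 0 < Y := by positivity
  have hXY : X ≤ Y := Real.rpow_le_rpow_of_exponent_le hN1 (by linarith)
  have hYY : (N : ℝ) * X = Y ^ 2 := by
    rw [hX, hY, ← Real.rpow_natCast, ← Real.rpow_mul hN0.le]
    nth_rewrite 1 [← Real.rpow_one (N : ℝ)]
    rw [← Real.rpow_add hN0]
    congr 1
    push_cast
    ring
  -- the parameter `U`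
  set U : ℕ := ⌊(N : ℝ) ^ (1 / 5 : ℝ)⌋₊ with hU
  have hU5 : (2 : ℝ) ≤ (N : ℝ) ^ (1 / 5 : ℝ) := by
    calc (2 : ℝ) = (32 : ℝ) ^ (1 / 5 : ℝ) := by
          rw [show (32 : ℝ) = 2 ^ (5 : ℝ) by norm_num, ← Real.rpow_mul (by norm_num)]
          norm_num
      _ ≤ _ := Real.rpow_le_rpow (by norm_num) hNr (by norm_num)
  have hUle : (U : ℝ) ≤ (N : ℝ) ^ (1 / 5 : ℝ) := Nat.floor_le (by positivity)
  have hUge : (N : ℝ) ^ (1 / 5 : ℝ) / 2 ≤ U := by
    have := Nat.lt_floor_add_one ((N : ℝ) ^ (1 / 5 : ℝ))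
    rw [← hU] at this
    linarith
  have hU1 : 1 ≤ U := by
    have : (1 : ℝ) ≤ U := by linarith
    exact_mod_cast this
  have hU0 : (0 : ℝ) < U := by exact_mod_cast hU1
  have hUU : (U : ℝ) * U ≤ (N : ℝ) ^ (2 / 5 : ℝ) := by
    calc (U : ℝ) * U ≤ (N : ℝ) ^ (1 / 5 : ℝ) * (N : ℝ) ^ (1 / 5 : ℝ) := by gcongr
      _ = _ := by rw [← Real.rpow_add hN0]; norm_num
  have hUUX : (U : ℝ) * U ≤ X := hUU.trans (Real.rpow_le_rpow_of_exponent_le hN1 (by linarith))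
  have hNU : (N : ℝ) / U ≤ 2 * X := by
    rw [div_le_iff₀ hU0]
    calc (N : ℝ) = (N : ℝ) ^ (4 / 5 : ℝ) * (N : ℝ) ^ (1 / 5 : ℝ) := by
          rw [← Real.rpow_add hN0]; norm_num
      _ ≤ X * (2 * U) := by
          apply mul_le_mul _ (by linarith) (by positivity) (by positivity)
          exact Real.rpow_le_rpow_of_exponent_le hN1 (by linarith)
      _ = _ := by ring
  have hNq : (N : ℝ) / q ≤ X := by
    rw [div_le_iff₀ hq0]
    calc (N : ℝ) = X * (N : ℝ) ^ η := by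
          rw [hX, ← Real.rpow_add hN0]
          norm_num
      _ ≤ X * q := by gcongr
  set E : ℕ → ℂ := fun n => ((ArithmeticFunction.vonMangoldt n : ℝ) : ℂ) * ee ((n : ℝ) * α) with hE
  set y0 : ℕ := 2 * (U * U) with hy0
  have hEn : ∀ n ∈ Icc 1 N, ‖E n‖ ≤ ℓ := by
    intro n hn
    rw [mem_Icc] at hn
    rw [hE]
    simp only
    rw [norm_mul, ls_norm_ee, mul_one, Complex.norm_real, Real.norm_of_nonneg ArithmeticFunction.vonMangoldt_nonneg]
    refine ArithmeticFunction.vonMangoldt_le_log.trans ?_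
    apply Real.log_le_log (by exact_mod_cast hn.1)
    exact_mod_cast hn.2
  have hT : ∀ y ≤ y0, y ≤ N → ‖∑ n ∈ Icc 1 y, E n‖ ≤ 2 * X * ℓ := by
    intro y hy hyN
    refine (norm_sum_le _ _).trans ?_
    calc ∑ n ∈ Icc 1 y, ‖E n‖ ≤ ∑ n ∈ Icc 1 y, ℓ := by
          apply sum_le_sum
          intro n hn
          apply hEn
          rw [mem_Icc] at hn ⊢
          omega
      _ = y * ℓ := by simp
      _ ≤ _ := by
          apply mul_le_mul_of_nonneg_right _ (by linarith)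
          have : (y : ℝ) ≤ ((2 * (U * U) : ℕ) : ℝ) := by exact_mod_cast hy
          push_cast at this
          linarith
  have hlog4 : Real.log 4 ≤ 2 := by
    have h1 : Real.log 4 = 2 * Real.log 2 := by
      rw [show (4 : ℝ) = 2 ^ 2 by norm_num, Real.log_pow]; push_cast; ring
    have := Real.log_two_lt_d9
    linarith
  have hUlog : (Nat.log 2 (U * U) + 1 : ℝ) ≤ 2 * ℓ := by
    have h3 : (Nat.log 2 (U * U) : ℝ) * Real.log 2 ≤ ℓ := by
      have hUU1 : 1 ≤ U * U := Nat.mul_pos hU1 hU1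
      have h4 : (2 : ℝ) ^ Nat.log 2 (U * U) ≤ ((U * U : ℕ) : ℝ) := by
        exact_mod_cast Nat.pow_log_le_self 2 (by omega)
      have h5 : ((U * U : ℕ) : ℝ) ≤ N := by
        push_cast
        refine hUU.trans ?_
        calc (N : ℝ) ^ (2 / 5 : ℝ) ≤ (N : ℝ) ^ (1 : ℝ) := Real.rpow_le_rpow_of_exponent_le hN1 (by norm_num)
          _ = N := Real.rpow_one _
      have h7 := Real.log_le_log (by positivity) (h4.trans h5)
      rwa [Real.log_pow] at h7
    have h4 := Real.log_two_gt_d9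
    have h5 : (0 : ℝ) ≤ Nat.log 2 (U * U) := Nat.cast_nonneg _
    nlinarith
  have hblock : ∀ M M' : ℕ, y0 < M' → M' ≤ N → M = (M' + 1) / 2 → ‖∑ n ∈ Ioc M M', E n‖ ≤ 70000 * ℓ ^ 6 * Y := by
    intro M M' h1 h2 h3
    have hUM : U * U ≤ M := by omega
    have hM1 : 1 ≤ M := le_trans (Nat.mul_pos hU1 hU1) hUM
    have h4 := Pool.Agent.H373R2.T7.block_lin hqn hcop hα M M' U hM1 (by omega) (by omega) hU1 hUM
    simp_rw [ee_eq] at h4
    refine h4.trans ?_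
    set m : ℝ := (M : ℝ) with hm
    have hm1 : 1 ≤ m := by rw [hm]; exact_mod_cast hM1
    have hmN : m ≤ N := by rw [hm]; exact_mod_cast (by omega : M ≤ N)
    have hLg : 1 + Real.log (4 * m) ≤ 2 * ℓ := by
      rw [Real.log_mul (by norm_num) (by linarith)]
      have := Real.log_le_log (by linarith) hmN
      linarith
    have hLg0 : 0 ≤ 1 + Real.log (4 * m) := by
      have := Real.log_nonneg (show (1 : ℝ) ≤ 4 * m by linarith)
      linarith
    have e1 : m / q ≤ X := (div_le_div_of_nonneg_right hmN hq0.le).trans hNq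
    have e2 : m / U ≤ 2 * X := (div_le_div_of_nonneg_right hmN hU0.le).trans hNU
    have e3 : (q : ℝ) ≤ X := hq2
    have hR : Real.sqrt (672 * (1 + Real.log q) * (m * (m / q + m / U + q))) ≤ 104 * ℓ * Y := by
      rw [Real.sqrt_le_left (by positivity)]
      calc 672 * (1 + Real.log q) * (m * (m / q + m / U + q)) ≤ 672 * (2 * ℓ) * (N * (X + 2 * X + X)) := by
            gcongr
            linarith
        _ = 5376 * ℓ * (N * X) := by ring
        _ = 5376 * ℓ * Y ^ 2 := by rw [hYY]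
        _ ≤ (104 * ℓ * Y) ^ 2 := by
            have : 0 ≤ Y ^ 2 := by positivity
            have h5 : 5376 * ℓ ≤ (104 * ℓ) ^ 2 := by nlinarith
            calc 5376 * ℓ * Y ^ 2 ≤ (104 * ℓ) ^ 2 * Y ^ 2 := mul_le_mul_of_nonneg_right h5 this
              _ = _ := by ring
    have hUUc : ((U * U : ℕ) : ℝ) ≤ X := by push_cast; exact hUUX
    calc 8 * (1 + Real.log (4 * m)) ^ 5 * Real.sqrt (672 * (1 + Real.log q) * (m * (m / q + m / U + q))) +
          3 * (1 + Real.log (4 * m)) * (600 * (Nat.log 2 (U * U) + 1 : ℝ) * (m / q + ((U * U : ℕ) : ℝ) + q) * (1 + Real.log q))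
        ≤ 8 * (2 * ℓ) ^ 5 * (104 * ℓ * Y) +
          3 * (2 * ℓ) * (600 * (2 * ℓ) * (X + X + X) * (2 * ℓ)) := by
          gcongr
          linarith
      _ = 26624 * ℓ ^ 6 * Y + 43200 * ℓ ^ 3 * X := by ring
      _ ≤ 26624 * ℓ ^ 6 * Y + 43200 * ℓ ^ 6 * Y := by
          have : ℓ ^ 3 ≤ ℓ ^ 6 := pow_le_pow_right₀ (by linarith) (by norm_num)
          gcongr
      _ ≤ _ := by
          have : 0 ≤ ℓ ^ 6 * Y := by positivity
          linarith
  have hJ := dyadic_sum E y0 N (2 * X * ℓ) (70000 * ℓ ^ 6 * Y) (by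
    have : 1 ≤ U * U := Nat.mul_pos hU1 hU1
    omega) (by positivity) hT hblock (Nat.log 2 N + 1) N (Nat.lt_pow_succ_log_self (by norm_num) _).le le_rfl
  refine hJ.trans ?_
  have hlogN : ((Nat.log 2 N + 1 : ℕ) : ℝ) ≤ 3 * ℓ := by
    have h3 : (Nat.log 2 N : ℝ) * Real.log 2 ≤ ℓ := by
      have h4 : (2 : ℝ) ^ Nat.log 2 N ≤ N := by
        exact_mod_cast Nat.pow_log_le_self 2 (by omega)
      have h7 := Real.log_le_log (by positivity) h4
      rwa [Real.log_pow] at h7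
    have h4 := Real.log_two_gt_d9
    have h5 : (0 : ℝ) ≤ Nat.log 2 N := Nat.cast_nonneg _
    push_cast
    nlinarith
  calc 2 * X * ℓ + ((Nat.log 2 N + 1 : ℕ) : ℝ) * (70000 * ℓ ^ 6 * Y)
      ≤ 2 * Y * ℓ + 3 * ℓ * (70000 * ℓ ^ 6 * Y) := by gcongr
    _ = (2 * ℓ + 210000 * ℓ ^ 7) * Y := by ring
    _ ≤ (210002 * ℓ ^ 7) * Y := by
        have : ℓ ≤ ℓ ^ 7 := le_self_pow₀ (by linarith) (by norm_num)
        gcongr
        linarith
    _ ≤ (N : ℝ) ^ (η / 20) * Y := by gcongr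
    _ = (N : ℝ) ^ (1 - 9 / 20 * η) := by
        rw [hY, ← Real.rpow_add hN0]
        congr 1
        ring

end Pool.Agent.W110.HV
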