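import Pool.Agent.W110.HV.Norm
import Pool.Agent.W110.HV.Vino

/-!
The exponential sum over primes minus its smooth major arc part is small everywhere.
-/

open Finset

namespace Pool.Agent.W110.HV

open Pool.Agent.Helper112

lemma ev_const (C e : ℝ) (he : 0 < e) : ∃ n1 : ℕ, ∀ N : ℕ, n1 ≤ N → C ≤ (N : ℝ) ^ e := by
  have := (tendsto_rpow_atTop he).comp tendsto_natCast_atTop_atTop
  have h3 := this.eventually (Filter.eventually_ge_atTop C)
  obtain ⟨n1, hn1⟩ := Filter.eventually_atTop.1 h3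
  exact ⟨n1, hn1⟩

lemma sum_uR_le (N : ℕ) : ∑ n ∈ Icc 1 N, uR N n ≤ 6 * N := by
  rw [sum_uR]
  have h1 := Chebyshev.theta_le_log4_mul_x (x := (N : ℝ)) (by positivity)
  have h2 := Chebyshev.theta_nonneg (Nat.sqrt N : ℝ)
  have h5 : Real.log 4 ≤ 2 := by
    have h1 : Real.log 4 = 2 * Real.log 2 := by
      rw [show (4 : ℝ) = 2 ^ 2 by norm_num, Real.log_pow]; push_cast; ring
    have := Real.log_two_lt_d9
    linarith
  have h6 : Real.log 4 * (N : ℝ) ≤ 2 * N := mul_le_mul_of_nonneg_right h5 (by positivity)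
  have : (0 : ℝ) ≤ N := by positivity
  linarith

lemma SN_le (N : ℕ) (α : ℝ) : ‖SN N (uu N) α‖ ≤ 6 * N := by
  unfold SN
  refine (norm_sum_le _ _).trans (le_trans (le_of_eq ?_) (sum_uR_le N))
  refine sum_congr rfl fun n _ => ?_
  rw [norm_mul, ls_norm_ee, mul_one, norm_uu]

theorem sup_bound (η : ℝ) (hη : 0 < η) (hη1 : η ≤ 1 / 20) : ∃ N0 : ℕ, ∀ N : ℕ, N0 ≤ N → ∀ α : ℝ,
    ‖SN N (uu N) α‖ * |1 - Kh ⌊(N : ℝ) ^ η⌋₊ ⌊(N : ℝ) ^ (1 - 2 * η)⌋₊ α| ≤ (N : ℝ) ^ (1 - 2 / 5 * η) := by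
  obtain ⟨C, hC, hv⟩ := vdiff
  obtain ⟨n0, h0⟩ := vino η hη (by linarith)
  obtain ⟨n1, h1⟩ := ev_const 84 (3 / 5 * η) (by positivity)
  obtain ⟨n2, h2⟩ := ev_const (max C 8) (1 / 4) (by norm_num)
  obtain ⟨n3, h3⟩ := ev_const 2 (η / 20) (by positivity)
  refine ⟨max (max n0 n1) (max (max n2 n3) 2), fun N hN α => ?_⟩
  have hNn0 : n0 ≤ N := le_trans (le_trans (le_max_left _ _) (le_max_left _ _)) hN
  have hNn1 : n1 ≤ N := le_trans (le_trans (le_max_right _ _) (le_max_left _ _)) hN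
  have hNn2 : n2 ≤ N := le_trans (le_trans (le_max_left _ _) (le_trans (le_max_left _ _) (le_max_right _ _))) hN
  have hNn3 : n3 ≤ N := le_trans (le_trans (le_max_right _ _) (le_trans (le_max_left _ _) (le_max_right _ _))) hN
  have hN2 : 2 ≤ N := le_trans (le_trans (le_max_right _ _) (le_max_right _ _)) hN
  have hNr : (2 : ℝ) ≤ N := by exact_mod_cast hN2
  have hN1 : (1 : ℝ) ≤ N := by linarith
  have hN0 : (0 : ℝ) < N := by linarith
  have e1 := h1 N hNn1
  have e2 := h2 N hNn2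
  have e3 := h3 N hNn3
  set P : ℕ := ⌊(N : ℝ) ^ η⌋₊ with hP
  set H : ℕ := ⌊(N : ℝ) ^ (1 - 2 * η)⌋₊ with hH
  set n : ℕ := ⌊(N : ℝ) ^ (1 - η)⌋₊ with hn
  have hP1 : 1 ≤ P := by
    rw [hP, Nat.one_le_floor_iff]
    exact Real.one_le_rpow hN1 hη.le
  have hPle : (P : ℝ) ≤ (N : ℝ) ^ η := Nat.floor_le (by positivity)
  have hx2 : (1 : ℝ) ≤ (N : ℝ) ^ (1 - 2 * η) := Real.one_le_rpow hN1 (by linarith)
  have hH1 : 1 ≤ H := by
    rw [hH, Nat.one_le_floor_iff]
    exact hx2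
  have hHr : (1 : ℝ) ≤ H := by exact_mod_cast hH1
  have hHle : (H : ℝ) ≤ (N : ℝ) ^ (1 - 2 * η) := Nat.floor_le (by positivity)
  have hHge : (N : ℝ) ^ (1 - 2 * η) / 2 ≤ H := by
    have := Nat.lt_floor_add_one ((N : ℝ) ^ (1 - 2 * η))
    rw [← hH] at this
    linarith
  have hn1 : 1 ≤ n := by
    rw [hn, Nat.one_le_floor_iff]
    exact Real.one_le_rpow hN1 (by linarith)
  have hnle : (n : ℝ) ≤ (N : ℝ) ^ (1 - η) := Nat.floor_le (by positivity)
  have hngt : (N : ℝ) ^ (1 - η) < (n : ℝ) + 1 := Nat.lt_floor_add_one _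
  -- the error term in the kernel
  have hPH : 2 * (P : ℝ) ^ 6 / (H : ℝ) ^ 2 ≤ (N : ℝ) ^ (-η) := by
    have hH0 : (0 : ℝ) < (H : ℝ) ^ 2 := by positivity
    rw [div_le_iff₀ hH0]
    have hc1 : (P : ℝ) ^ 6 ≤ (N : ℝ) ^ (6 * η) := by
      calc (P : ℝ) ^ 6 ≤ ((N : ℝ) ^ η) ^ 6 := pow_le_pow_left₀ (by positivity) hPle 6
        _ = _ := by
            rw [← Real.rpow_natCast, ← Real.rpow_mul hN0.le]
            congr 1
            push_cast
            ring
    have hc2 : ((N : ℝ) ^ (1 - 2 * η) / 2) ^ 2 ≤ (H : ℝ) ^ 2 := pow_le_pow_left₀ (by positivity) hHge 2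
    have hc3 : ((N : ℝ) ^ (1 - 2 * η) / 2) ^ 2 = (N : ℝ) ^ (2 - 4 * η) / 4 := by
      rw [div_pow, ← Real.rpow_natCast, ← Real.rpow_mul hN0.le]
      norm_num
      congr 1
      ring
    rw [hc3] at hc2
    have hc4 : 2 * (N : ℝ) ^ (6 * η) ≤ (N : ℝ) ^ (-η) * ((N : ℝ) ^ (2 - 4 * η) / 4) := by
      have h8 : (8 : ℝ) ≤ (N : ℝ) ^ (1 / 4 : ℝ) := le_trans (le_max_right _ _) e2
      have : (N : ℝ) ^ (-η) * ((N : ℝ) ^ (2 - 4 * η) / 4) = (N : ℝ) ^ (2 - 11 * η) * (N : ℝ) ^ (6 * η) / 4 := by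
        rw [← mul_div_assoc, ← Real.rpow_add hN0, ← Real.rpow_add hN0]
        congr 2
        ring
      rw [this]
      have h9 : (N : ℝ) ^ (1 / 4 : ℝ) ≤ (N : ℝ) ^ (2 - 11 * η) :=
        Real.rpow_le_rpow_of_exponent_le hN1 (by linarith)
      have h10 : (8 : ℝ) * (N : ℝ) ^ (6 * η) ≤ (N : ℝ) ^ (2 - 11 * η) * (N : ℝ) ^ (6 * η) :=
        mul_le_mul_of_nonneg_right (h8.trans h9) (by positivity)
      linarith
    calc 2 * (P : ℝ) ^ 6 ≤ 2 * (N : ℝ) ^ (6 * η) := by linarith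
      _ ≤ _ := hc4
      _ ≤ _ := mul_le_mul_of_nonneg_left hc2 (by positivity)
  have hNη1 : (N : ℝ) ^ (-η) ≤ 1 := by
    calc (N : ℝ) ^ (-η) ≤ (N : ℝ) ^ (0 : ℝ) := Real.rpow_le_rpow_of_exponent_le hN1 (by linarith)
      _ = 1 := Real.rpow_zero _
  have hKle := Kh_le P H hP1 hH1 α
  have hK0 := Kh_nonneg P H α
  obtain ⟨r, hr1, hr2⟩ := Real.exists_rat_abs_sub_le_and_den_le α (n := n) hn1
  set q : ℕ := r.den with hq
  set c : ℤ := r.num with hc
  have hq0 : 0 < q := r.den_pos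
  have hqr : (0 : ℝ) < q := by exact_mod_cast hq0
  have hqr1 : (1 : ℝ) ≤ q := by exact_mod_cast hq0
  have hrr : ((r : ℚ) : ℝ) = (c : ℝ) / q := by
    have := Rat.num_div_den r
    have h : (((r.num : ℚ) / (r.den : ℚ) : ℚ) : ℝ) = ((r : ℚ) : ℝ) := by rw [this]
    push_cast at h
    rw [← h]
  rw [hrr] at hr1
  rcases Nat.lt_or_ge P q with hPq | hPq
  · -- minor arcs
    have hq1 : (N : ℝ) ^ η ≤ q := by
      have h5 := Nat.lt_floor_add_one ((N : ℝ) ^ η)
      rw [← hP] at h5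
      have h6 : (P : ℝ) + 1 ≤ q := by exact_mod_cast hPq
      linarith
    have hq2 : (q : ℝ) ≤ (N : ℝ) ^ (1 - η) := by
      have : (q : ℝ) ≤ n := by exact_mod_cast hr2
      linarith
    have hcop : IsCoprime c (q : ℤ) := by
      rw [Int.isCoprime_iff_gcd_eq_one]
      have := r.reduced
      rw [Nat.coprime_iff_gcd_eq_one] at this
      rw [Int.gcd, hc, hq]
      simpa using this
    have hα : |α - c / q| ≤ 1 / (q : ℝ) ^ 2 := by
      refine hr1.trans ?_
      rw [pow_two]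
      apply one_div_le_one_div_of_le (by positivity)
      apply mul_le_mul_of_nonneg_right _ hqr.le
      have : (q : ℝ) ≤ n := by exact_mod_cast hr2
      linarith
    have h6 := h0 N hNn0 q hq1 hq2 c hcop α hα
    have h7 : ‖SN N (uu N) α‖ ≤ (N : ℝ) ^ (1 - 9 / 20 * η) + C * Real.sqrt N := by
      have h8 : SN N (uu N) α = ∑ n ∈ Icc 1 N, ((ArithmeticFunction.vonMangoldt n : ℝ) : ℂ) * ee ((n : ℝ) * α) -
          ∑ n ∈ Icc 1 N, (((ArithmeticFunction.vonMangoldt n - uR N n : ℝ)) : ℂ) * ee ((n : ℝ) * α) := by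
        unfold SN
        rw [← sum_sub_distrib]
        refine sum_congr rfl fun n _ => ?_
        unfold uu
        push_cast
        ring
      rw [h8]
      refine (norm_sub_le _ _).trans (add_le_add h6 ?_)
      refine (norm_sum_le _ _).trans (le_trans (le_of_eq ?_) (hv N))
      refine sum_congr rfl fun n _ => ?_
      rw [norm_mul, ls_norm_ee, mul_one, Complex.norm_real, Real.norm_of_nonneg]
      linarith [uR_le N n]
    have h9 : |1 - Kh P H α| ≤ 1 := by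
      rw [abs_le]
      constructor <;> linarith
    have h10 : C * Real.sqrt N ≤ (N : ℝ) ^ (1 - 9 / 20 * η) := by
      have h11 : C ≤ (N : ℝ) ^ (1 / 4 : ℝ) := le_trans (le_max_left _ _) e2
      calc C * Real.sqrt N ≤ (N : ℝ) ^ (1 / 4 : ℝ) * Real.sqrt N :=
            mul_le_mul_of_nonneg_right h11 (Real.sqrt_nonneg _)
        _ = (N : ℝ) ^ (3 / 4 : ℝ) := by
            rw [Real.sqrt_eq_rpow, ← Real.rpow_add hN0]
            norm_num
        _ ≤ _ := Real.rpow_le_rpow_of_exponent_le hN1 (by linarith)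
    calc ‖SN N (uu N) α‖ * |1 - Kh P H α| ≤ ‖SN N (uu N) α‖ * 1 :=
          mul_le_mul_of_nonneg_left h9 (norm_nonneg _)
      _ ≤ 2 * (N : ℝ) ^ (1 - 9 / 20 * η) := by linarith
      _ ≤ (N : ℝ) ^ (η / 20) * (N : ℝ) ^ (1 - 9 / 20 * η) :=
          mul_le_mul_of_nonneg_right e3 (by positivity)
      _ = _ := by
          rw [← Real.rpow_add hN0]
          congr 1
          ring
  · -- major arcs
    set a : ℕ := (c % q).toNat with ha
    have hqz : (0 : ℤ) < q := by exact_mod_cast hq0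
    have ha1 : ((a : ℕ) : ℤ) = c % q := Int.toNat_of_nonneg (Int.emod_nonneg _ hqz.ne')
    have ha2 : a < q := by
      have := Int.emod_lt_of_pos c hqz
      rw [← ha1] at this
      exact_mod_cast this
    have ha3 : a.Coprime q := by
      rw [Nat.coprime_iff_gcd_eq_one]
      have h5 := r.reduced
      rw [Nat.coprime_iff_gcd_eq_one] at h5
      have h6 : Int.gcd c q = 1 := by
        rw [Int.gcd, hc, hq]
        simpa using h5
      have h7 : Int.gcd ((a : ℕ) : ℤ) q = 1 := by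
        rw [ha1, ← h6]
        exact Int.gcd_emod _ _
      exact_mod_cast h7
    have hmem : (⟨q, a⟩ : Σ _ : ℕ, ℕ) ∈ Fr P := by
      unfold Fr
      rw [mem_sigma, mem_Icc, mem_filter, mem_range]
      exact ⟨⟨hq0, hPq⟩, ha2, ha3⟩
    have hge := Kh_ge P H hH1 α ⟨q, a⟩ hmem
    have hd : dst (α - xi ⟨q, a⟩) ≤ (N : ℝ) ^ (-(1 - η)) := by
      refine (dst_le _ (c / q)).trans ?_
      have h5 : α - xi ⟨q, a⟩ - ((c / q : ℤ) : ℝ) = α - c / q := by
        have h6 : (c : ℝ) = a + q * ((c / q : ℤ) : ℝ) := by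
          have := Int.emod_add_mul_ediv c q
          rw [← ha1] at this
          exact_mod_cast this.symm
        unfold xi
        simp only
        rw [sub_sub]
        congr 1
        rw [eq_div_iff hqr.ne', add_mul, div_mul_cancel₀ _ hqr.ne']
        linarith
      rw [h5]
      refine hr1.trans ?_
      rw [Real.rpow_neg hN0.le, ← one_div]
      apply one_div_le_one_div_of_le (by positivity)
      have : (n : ℝ) + 1 ≤ ((n : ℝ) + 1) * q := le_mul_of_one_le_right (by positivity) hqr1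
      linarith
    have hpi : Real.pi ≤ 3.15 := Real.pi_lt_d2.le
    have hpi0 := Real.pi_pos
    have h6 : 4 * Real.pi * (H * dst (α - xi ⟨q, a⟩)) ≤ 13 * (N : ℝ) ^ (-η) := by
      have h7 : (H : ℝ) * dst (α - xi ⟨q, a⟩) ≤ (N : ℝ) ^ (-η) := by
        calc (H : ℝ) * dst (α - xi ⟨q, a⟩) ≤ (N : ℝ) ^ (1 - 2 * η) * (N : ℝ) ^ (-(1 - η)) :=
              mul_le_mul hHle hd (dst_nonneg _) (by positivity)
          _ = _ := by
              rw [← Real.rpow_add hN0]
              congr 1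
              ring
      have h8 : 0 ≤ (H : ℝ) * dst (α - xi ⟨q, a⟩) := mul_nonneg (by positivity) (dst_nonneg _)
      calc 4 * Real.pi * (H * dst (α - xi ⟨q, a⟩)) ≤ 13 * (H * dst (α - xi ⟨q, a⟩)) :=
            mul_le_mul_of_nonneg_right (by linarith) h8
        _ ≤ _ := mul_le_mul_of_nonneg_left h7 (by norm_num)
    have h9 : |1 - Kh P H α| ≤ 14 * (N : ℝ) ^ (-η) := by
      have : (0 : ℝ) ≤ (N : ℝ) ^ (-η) := by positivity
      rw [abs_le]
      constructor <;> linarith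
    calc ‖SN N (uu N) α‖ * |1 - Kh P H α| ≤ (6 * N) * (14 * (N : ℝ) ^ (-η)) :=
          mul_le_mul (SN_le N α) h9 (abs_nonneg _) (by positivity)
      _ = 84 * (N : ℝ) ^ (1 - η) := by
          rw [sub_eq_add_neg, Real.rpow_add hN0, Real.rpow_one]
          ring
      _ ≤ (N : ℝ) ^ (3 / 5 * η) * (N : ℝ) ^ (1 - η) := mul_le_mul_of_nonneg_right e1 (by positivity)
      _ = _ := by
          rw [← Real.rpow_add hN0]
          congr 1
          ring

end Pool.Agent.W110.HV
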