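import Pool.Agent.W110.HV.Kernel

/-!
The mean square of the smooth major arc part, in terms of short windows.
-/

open Finset

namespace Pool.Agent.W110.HV

open Pool.Agent.Helper112

/-- window sums -/
noncomputable def WW (H : ℕ) (u : ℤ → ℂ) (θ : ℝ) (x : ℤ) : ℂ := ∑ i ∈ range H, u (x + i) * ee (i * θ)

theorem ES_WW (H N : ℕ) (u : ℤ → ℂ) (hu : ∀ n : ℤ, n < 1 ∨ (N : ℤ) < n → u n = 0) (α θ : ℝ) :
    ES (-H) (N + H) (WW H u θ) α =
      ES (-H) (N + H) u α * (starRingEnd ℂ) (lsD H (α - θ)) := by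
  rw [ES_supp (-H) (N + H) N (by linarith [Int.natCast_nonneg H]) (by linarith [Int.natCast_nonneg H]) u hu]
  unfold ES WW lsD
  rw [map_sum, sum_mul_sum]
  have e1 : ∀ x ∈ Icc (-(H : ℤ)) (N + H), (∑ i ∈ range H, u (x + i) * ee (i * θ)) * ee (x * α) =
      ∑ n ∈ Icc (1 : ℤ) N, ∑ i ∈ range H, if x = n - i then u n * (ee (n * α) * ee (-(i * (α - θ)))) else 0 := by
    intro x hx
    rw [sum_mul, sum_comm]
    refine sum_congr rfl fun i _ => ?_
    have e2 : ∀ n ∈ Icc (1 : ℤ) N, (if x = n - i then u n * (ee (n * α) * ee (-(i * (α - θ)))) else 0) =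
        if n = x + i then u n * (ee (n * α) * ee (-(i * (α - θ)))) else 0 := by
      intro n _
      by_cases h : x = n - i
      · rw [if_pos h, if_pos (by linarith)]
      · rw [if_neg h, if_neg (fun e => h (by linarith))]
    rw [sum_congr rfl e2, sum_ite_eq']
    have e3 : ee (((x + i : ℤ) : ℝ) * α) * ee (-(i * (α - θ))) = ee (i * θ) * ee (x * α) := by
      rw [← ls_ee_add, ← ls_ee_add]
      congr 1
      push_cast
      ring
    split_ifs with h
    · rw [e3]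
      ring
    · rw [mem_Icc] at h
      rw [hu (x + i) (by by_contra hc; push Not at hc; exact h ⟨hc.1, hc.2⟩)]
      ring
  rw [sum_congr rfl e1, sum_comm]
  refine sum_congr rfl fun n hn => ?_
  rw [sum_comm]
  refine sum_congr rfl fun i hi => ?_
  rw [sum_ite_eq', if_pos]
  · rw [ls_conj_ee]
    ring
  · rw [mem_range] at hi
    rw [mem_Icc] at hn ⊢
    constructor <;> omega

/-- the mean square of `EE` -/
theorem EE_norm (P H N : ℕ) (hP : 1 ≤ P) (hH : 1 ≤ H) (hPH : 2 * (P : ℝ) ^ 6 ≤ (H : ℝ) ^ 2)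
    (u : ℤ → ℂ) (hu : ∀ n : ℤ, n < 1 ∨ (N : ℤ) < n → u n = 0) :
    ∑ n ∈ Icc (-(H : ℤ)) (N + H), ‖EE P H N u n‖ ^ 2 ≤
      (2 / (H : ℝ) ^ 2) * ∑ x ∈ Icc (-(H : ℤ)) (N + H), ∑ r ∈ Fr P, ‖WW H u (xi r) x‖ ^ 2 := by
  have hH0 : (0 : ℝ) < H := by exact_mod_cast hH
  set q : ℕ := N + 2 * H + 1 with hq
  have hq0 : 0 < q := by omega
  have hqr : (0 : ℝ) < q := by exact_mod_cast hq0
  have hlen : ((N : ℤ) + H) - (-(H : ℤ)) < q := by
    rw [hq]
    push_cast
    linarith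
  have hK2 : ∀ α : ℝ, Kh P H α ≤ 2 := by
    intro α
    refine (Kh_le P H hP hH α).trans ?_
    have : 2 * (P : ℝ) ^ 6 / (H : ℝ) ^ 2 ≤ 1 := by
      rw [div_le_one (by positivity)]
      exact hPH
    linarith
  have h1 := pars_norm q (-(H : ℤ)) (N + H) hq0 hlen (EE P H N u)
  have h2 : ∀ r ∈ Fr P, ∑ b ∈ range q, ‖ES (-H) (N + H) (WW H u (xi r)) ((b : ℝ) / q)‖ ^ 2 =
      q * ∑ x ∈ Icc (-(H : ℤ)) (N + H), ‖WW H u (xi r) x‖ ^ 2 := fun r _ =>
    pars_norm q (-(H : ℤ)) (N + H) hq0 hlen (WW H u (xi r))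
  have key : (q : ℝ) * ∑ n ∈ Icc (-(H : ℤ)) (N + H), ‖EE P H N u n‖ ^ 2 ≤
      q * ((2 / (H : ℝ) ^ 2) * ∑ x ∈ Icc (-(H : ℤ)) (N + H), ∑ r ∈ Fr P, ‖WW H u (xi r) x‖ ^ 2) := by
    rw [← h1]
    calc ∑ b ∈ range q, ‖ES (-H) (N + H) (EE P H N u) ((b : ℝ) / q)‖ ^ 2
        ≤ ∑ b ∈ range q, 2 * (‖ES (-H) (N + H) u ((b : ℝ) / q)‖ ^ 2 * Kh P H ((b : ℝ) / q)) := by
          apply sum_le_sum
          intro b _
          rw [ES_EE P H N u hu, norm_mul, mul_pow, Complex.norm_real, Real.norm_eq_abs,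
            abs_of_nonneg (Kh_nonneg _ _ _)]
          have h3 := Kh_nonneg P H ((b : ℝ) / q)
          have h4 := hK2 ((b : ℝ) / q)
          have h5 : Kh P H ((b : ℝ) / q) ^ 2 ≤ 2 * Kh P H ((b : ℝ) / q) := by nlinarith
          calc ‖ES (-H) (N + H) u ((b : ℝ) / q)‖ ^ 2 * Kh P H ((b : ℝ) / q) ^ 2
              ≤ ‖ES (-H) (N + H) u ((b : ℝ) / q)‖ ^ 2 * (2 * Kh P H ((b : ℝ) / q)) :=
                mul_le_mul_of_nonneg_left h5 (by positivity)
            _ = _ := by ring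
      _ = (2 / (H : ℝ) ^ 2) * ∑ r ∈ Fr P,
            ∑ b ∈ range q, ‖ES (-H) (N + H) (WW H u (xi r)) ((b : ℝ) / q)‖ ^ 2 := by
          rw [sum_comm, mul_sum]
          refine sum_congr rfl fun b _ => ?_
          unfold Kh
          rw [mul_sum, mul_sum, mul_sum, mul_sum]
          refine sum_congr rfl fun r _ => ?_
          rw [ES_WW H N u hu, norm_mul, RCLike.norm_conj, mul_pow]
          ring
      _ = _ := by
          rw [sum_congr rfl h2, ← mul_sum, sum_comm]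
          ring
  exact le_of_mul_le_mul_left key hqr

/-- twisted window sums with the true phases -/
noncomputable def VV (H : ℕ) (u : ℤ → ℂ) (x : ℤ) (θ : ℝ) : ℂ :=
  ∑ i ∈ range H, u (x + i) * ee (((x + i : ℤ) : ℝ) * θ)

lemma norm_VV (H : ℕ) (u : ℤ → ℂ) (x : ℤ) (θ : ℝ) : ‖VV H u x θ‖ = ‖WW H u θ x‖ := by
  have : VV H u x θ = ee (x * θ) * WW H u θ x := by
    unfold VV WW
    rw [mul_sum]
    refine sum_congr rfl fun i _ => ?_
    have : ee (((x + i : ℤ) : ℝ) * θ) = ee (x * θ) * ee (i * θ) := by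
      rw [← ls_ee_add]
      congr 1
      push_cast
      ring
    rw [this]
    ring
  rw [this, norm_mul, ls_norm_ee, one_mul]

/-- sum over windows of the local mean squares -/
lemma sum_windows (H N : ℕ) (u : ℤ → ℂ) (hu : ∀ n : ℤ, n < 1 ∨ (N : ℤ) < n → u n = 0) :
    ∑ x ∈ Icc (-(H : ℤ)) (N + H), ∑ i ∈ range H, ‖u (x + i)‖ ^ 2 ≤
      H * ∑ n ∈ Icc (1 : ℤ) N, ‖u n‖ ^ 2 := by
  rw [sum_comm]
  calc ∑ i ∈ range H, ∑ x ∈ Icc (-(H : ℤ)) (N + H), ‖u (x + i)‖ ^ 2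
      ≤ ∑ i ∈ range H, ∑ n ∈ Icc (1 : ℤ) N, ‖u n‖ ^ 2 := by
        apply sum_le_sum
        intro i _
        have h1 : ∑ x ∈ Icc (-(H : ℤ)) (N + H), ‖u (x + i)‖ ^ 2 =
            ∑ n ∈ (Icc (-(H : ℤ)) (N + H)).image (fun x => x + (i : ℤ)), ‖u n‖ ^ 2 := by
          rw [sum_image]
          intro a _ b _ h
          simpa using h
        rw [h1]
        have h2 : ∑ n ∈ (Icc (-(H : ℤ)) (N + H)).image (fun x => x + (i : ℤ)), ‖u n‖ ^ 2 =
            ∑ n ∈ ((Icc (-(H : ℤ)) (N + H)).image (fun x => x + (i : ℤ))).filter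
              (fun n => n ∈ Icc (1 : ℤ) N), ‖u n‖ ^ 2 := by
          symm
          apply sum_filter_of_ne
          intro n _ hn
          by_contra hc
          apply hn
          rw [mem_Icc] at hc
          rw [hu n (by by_contra hc2; push Not at hc2; exact hc ⟨hc2.1, hc2.2⟩)]
          simp
        rw [h2]
        apply sum_le_sum_of_subset_of_nonneg
        · intro n hn
          rw [mem_filter] at hn
          exact hn.2
        · intros
          positivity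
    _ = _ := by
        rw [sum_const, card_range, nsmul_eq_mul]

end Pool.Agent.W110.HV
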